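import Pool.Agent.V7H69.IK.Iso

/-!
# Ellipsoids
-/

set_option autoImplicit false

namespace Pool.Agent.V7H69.IK

open MeasureTheory Set Filter Topology
open scoped ENNReal InnerProductSpace Pointwise
open Pool.Agent.Results.MP_dc1397_gt.GibbsLevelSets (HyperplaneBound)

variable {n : ℕ}

theorem cvx_lin (A : Ec n →ₗ[ℝ] Ec n) : ConvexOn ℝ univ fun x : Ec n => ‖A x‖ :=
  (convexOn_univ_norm (E := Ec n)).comp_linearMap A

theorem cont_lin (A : Ec n →ₗ[ℝ] Ec n) : Continuous fun x : Ec n => ‖A x‖ :=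
  A.continuous_of_finiteDimensional.norm

/-- volume of an ellipsoid -/
theorem vol_ell (hn : 1 ≤ n) (B : Ec n →ₗ[ℝ] Ec n) (hB : LinearMap.det B ≠ 0) {r : ℝ}
    (hr : 0 < r) : |LinearMap.det B| * volume.real {x : Ec n | ‖B x‖ < r} = r ^ n * bv n := by
  have hne : Nontrivial (Ec n) := by
    have : Nonempty (Fin n) := ⟨⟨0, by omega⟩⟩
    infer_instance
  have e1 : {x : Ec n | ‖B x‖ < r} = B ⁻¹' Metric.ball 0 r := by
    ext x
    simp
  have hD : 0 < |LinearMap.det B| := abs_pos.2 hB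
  rw [e1]
  unfold Measure.real
  rw [Measure.addHaar_preimage_linearMap (volume : Measure (Ec n)) hB, ENNReal.toReal_mul,
    ENNReal.toReal_ofReal (abs_nonneg _), abs_inv, ← mul_assoc, mul_inv_cancel₀ hD.ne', one_mul,
    ← Measure.addHaar_closedBall_eq_addHaar_ball]
  exact ball_r hr.le

/-- Markov -/
theorem markov {K : Set (Ec n)} (hK : IsCompact K) {g : Ec n → ℝ} (hg : Continuous g)
    {r S : ℝ} (hr : 0 < r)
    (h : ∫ x in K, g x ^ 2 ≤ S) (hS : 2 * S ≤ r ^ 2 * volume.real K) :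
    volume.real K / 2 ≤ volume.real (K ∩ {x | g x ≤ r}) := by
  have hm : MeasurableSet {x : Ec n | g x ≤ r} := (isClosed_le hg continuous_const).measurableSet
  have hi : IntegrableOn ({x : Ec n | g x ≤ r}.indicator (fun _ => (1 : ℝ))) K :=
    (integrableOn_const hK.measure_lt_top.ne).indicator hm
  have h1 : ∫ x in K, r ^ 2 * (1 - {x : Ec n | g x ≤ r}.indicator (fun _ => (1 : ℝ)) x) ≤
      ∫ x in K, g x ^ 2 := by
    refine setIntegral_mono_on (((cint hK continuous_const).sub hi).const_mul _)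
      (cint hK (by fun_prop)) hK.measurableSet fun x _ => ?_
    by_cases hx : x ∈ {x : Ec n | g x ≤ r}
    · rw [indicator_of_mem hx]
      have := sq_nonneg (g x)
      linarith
    · rw [indicator_of_notMem hx, sub_zero, mul_one]
      have h2 : r < g x := by
        by_contra hcon
        push Not at hcon
        exact hx hcon
      exact pow_le_pow_left₀ hr.le h2.le 2
  have e1 : ∫ x in K, r ^ 2 * (1 - {x : Ec n | g x ≤ r}.indicator (fun _ => (1 : ℝ)) x) =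
      r ^ 2 * (volume.real K - volume.real (K ∩ {x | g x ≤ r})) := by
    rw [integral_const_mul, integral_sub (cint hK continuous_const) hi,
      setIntegral_indicator hm, setIntegral_const, setIntegral_const, smul_eq_mul, mul_one,
      smul_eq_mul, mul_one]
  rw [e1] at h1
  have h3 : r ^ 2 * (2 * (volume.real K - volume.real (K ∩ {x | g x ≤ r}))) ≤
      r ^ 2 * volume.real K := by linarith
  have h4 := le_of_mul_le_mul_left h3 (by positivity)
  linarith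

/-- volume estimate for the near-maximal ellipsoid -/
theorem vol_near (hn : 1 ≤ n) {α : ℝ} (ha : 0 < α) (hb : α < 1) {K : Set (Ec n)} (hK : IsCompact K)
    (A : Ec n →ₗ[ℝ] Ec n) (hA : LinearMap.det A ≠ 0)
    (h : ∀ B : Ec n →ₗ[ℝ] Ec n, LinearMap.det B ≠ 0 → gg α K B ≤ (1 + α / 8) * gg α K A)
    (B : Ec n →ₗ[ℝ] Ec n) (hB : LinearMap.det B ≠ 0) :
    volume.real (K ∩ {x | ‖B x‖ ≤ 1}) ≤ 4 * (volume.real {x : Ec n | ‖B x‖ < Real.sqrt 2} ^ α *
      volume.real (K ∩ {x | ‖A x‖ ≤ 1}) ^ (1 - α)) := by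
  have hs2 : 0 < Real.sqrt 2 := Real.sqrt_pos.2 two_pos
  obtain ⟨B', hB'⟩ : ∃ B' : Ec n →ₗ[ℝ] Ec n, B' = (Real.sqrt 2)⁻¹ • B := ⟨_, rfl⟩
  have hBx : ∀ x, ‖B' x‖ = (Real.sqrt 2)⁻¹ * ‖B x‖ := by
    intro x
    rw [hB', LinearMap.smul_apply, norm_smul, Real.norm_eq_abs, abs_of_pos (by positivity)]
  have hdet : LinearMap.det B' ≠ 0 := by
    rw [hB', LinearMap.det_smul]
    exact mul_ne_zero (pow_ne_zero _ (by positivity)) hB
  have h1 := (h B' hdet).trans (mul_le_mul_of_nonneg_left (gg_le hK ha hb A hA)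
    (by linarith : 0 ≤ 1 + α / 8))
  have hD : 0 < |LinearMap.det B'| := abs_pos.2 hdet
  -- lower bound
  have hS : IsCompact (K ∩ {x | ‖B x‖ ≤ 1}) :=
    hK.inter_right (isClosed_le (cont_lin B) continuous_const)
  have h2 : 1 / 2 * volume.real (K ∩ {x | ‖B x‖ ≤ 1}) ≤ ∫ x in K, ff B' x := by
    have h3 : ∫ x in K ∩ {x | ‖B x‖ ≤ 1}, (1 / 2 : ℝ) ≤ ∫ x in K ∩ {x | ‖B x‖ ≤ 1}, ff B' x := by
      refine setIntegral_mono_on (cint hS continuous_const) (ff_int hS B') hS.measurableSet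
        fun x hx => ?_
      have h4 : ‖B x‖ ≤ 1 := hx.2
      unfold ff
      refine le_trans ?_ (le_max_left _ _)
      rw [hBx, mul_pow, inv_pow, Real.sq_sqrt two_pos.le]
      have : ‖B x‖ ^ 2 ≤ 1 := by nlinarith [norm_nonneg (B x)]
      linarith
    rw [setIntegral_const, smul_eq_mul] at h3
    have h4 : ∫ x in K ∩ {x | ‖B x‖ ≤ 1}, ff B' x ≤ ∫ x in K, ff B' x :=
      setIntegral_mono_set (ff_int hK _) (Eventually.of_forall fun x => ff_nonneg _ x)
        (LE.le.eventuallyLE inter_subset_left)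
    linarith
  -- the volume of the ellipsoid
  obtain ⟨W, hW⟩ : ∃ W, W = volume.real {x : Ec n | ‖B x‖ < Real.sqrt 2} := ⟨_, rfl⟩
  have hWe : |LinearMap.det B'| * W = bv n := by
    have h3 := vol_ell hn B' hdet one_pos
    rw [one_pow, one_mul] at h3
    rw [← h3, hW]
    congr 2
    ext x
    change ‖B x‖ < Real.sqrt 2 ↔ ‖B' x‖ < 1
    rw [hBx, inv_mul_lt_iff₀ hs2, mul_one]
  have hbv := bv_pos n
  have hW0 : 0 < W := by
    by_contra hcon
    push Not at hcon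
    have := mul_nonpos_of_nonneg_of_nonpos hD.le hcon
    linarith
  rw [← hW]
  unfold gg at h1
  have e1 : volume.real (Metric.closedBall (0 : Ec n) 1) = bv n := rfl
  rw [e1, ← hWe, Real.mul_rpow hD.le hW0.le] at h1
  have hDa : 0 < |LinearMap.det B'| ^ α := Real.rpow_pos_of_pos hD _
  obtain ⟨N, hN⟩ : ∃ N, N = volume.real (K ∩ {x | ‖A x‖ ≤ 1}) ^ (1 - α) := ⟨_, rfl⟩
  have hN0 : 0 ≤ N := by rw [hN]; exact Real.rpow_nonneg measureReal_nonneg _
  rw [← hN] at h1 ⊢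
  have h3 : |LinearMap.det B'| ^ α * ∫ x in K, ff B' x ≤
      |LinearMap.det B'| ^ α * ((1 + α / 8) * (W ^ α * N)) := by
    refine h1.trans (le_of_eq ?_)
    ring
  have h4 := le_of_mul_le_mul_left h3 hDa
  have h5 : (1 + α / 8) * (W ^ α * N) ≤ 2 * (W ^ α * N) :=
    mul_le_mul_of_nonneg_right (by linarith) (by positivity)
  linarith

/-- **Ellipsoids** -/
theorem ell_open : ∃ C : ℝ, 0 < C ∧ ∀ (m : ℝ) (n : ℕ) (K : Set (Ec n)), 1 ≤ m → m < n →
    IsOpen K → Convex ℝ K → Bornology.IsBounded K → K.Nonempty → (∀ x ∈ K, -x ∈ K) →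
    ∃ A : Ec n ≃ₗ[ℝ] Ec n,
    (∀ T : Ec n ≃ₗ[ℝ] Ec n,
      HyperplaneBound (C * Real.sqrt (n / m)) (T '' (K ∩ {x | ‖A x‖ < 1}))) ∧
    (∀ B : Ec n ≃ₗ[ℝ] Ec n, volume.real (K ∩ {x | ‖B x‖ < 1}) ≤
      4 * (volume.real {x : Ec n | ‖B x‖ < Real.sqrt 2} ^ (m / n) *
        volume.real (K ∩ {x | ‖A x‖ < 1}) ^ (1 - m / n))) ∧
    (∀ (ℓ : ℝ) (B : Ec n ≃ₗ[ℝ] Ec n), 1 ≤ ℓ → 2 * m ≤ n →
      |LinearMap.det (B : Ec n →ₗ[ℝ] Ec n)| = 1 →
      ∫ x in K, ‖B x‖ ^ 2 ≤ ℓ ^ 2 * n * volume.real K ^ (1 + 2 / (n : ℝ)) →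
      volume.real K ≤ 64 * (10 * ℓ) ^ (2 * m) * volume.real (K ∩ {x | ‖A x‖ < 1})) := by
  obtain ⟨C, hC, H⟩ := thmB
  refine ⟨C * 2, by positivity, fun m n K hm hmn ho hc hb hne hs => ?_⟩
  have hn0 : (0 : ℝ) < n := by linarith
  have hn : 1 ≤ n := by
    have : (1 : ℝ) ≤ n := by linarith
    exact_mod_cast this
  have hm0 : 0 < m := by linarith
  obtain ⟨α, hα⟩ : ∃ α, α = m / n := ⟨_, rfl⟩
  have ha : 0 < α := by rw [hα]; positivity
  have hb1 : α < 1 := by rw [hα, div_lt_one hn0]; exact hmn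
  have hαn : α * n = m := by rw [hα]; field_simp
  have h0 := zero_mem hc hne hs
  have hcl := hb.isCompact_closure
  have h0' : (0 : Ec n) ∈ interior (closure K) := by
    rw [int_cl ho hc hne]
    exact h0
  obtain ⟨A, hA, hmax⟩ := near_max ha hb1 (by positivity : 0 < α / 8) hcl h0'
  obtain ⟨Ae, hAe⟩ : ∃ Ae : Ec n ≃ₗ[ℝ] Ec n, ∀ x, Ae x = A x :=
    ⟨LinearMap.equivOfDetNeZero A hA, fun x => rfl⟩
  have hpos := pos_of hcl A hA hmax
  have hAc : Continuous A := A.continuous_of_finiteDimensional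
  have hAi : (0 : Ec n) ∈ interior (A '' closure K) := by
    have h6 : IsOpen (Ae '' interior (closure K)) :=
      Ae.toContinuousLinearEquiv.toHomeomorph.isOpenMap _ isOpen_interior
    have e1 : Ae '' interior (closure K) = A '' interior (closure K) :=
      image_congr fun x _ => hAe x
    rw [e1] at h6
    exact interior_maximal (image_mono interior_subset) h6 ⟨0, h0', map_zero A⟩
  have hA0 : ‖A 0‖ < 1 := by rw [map_zero, norm_zero]; exact one_pos
  have hset : A '' (closure K ∩ {x | ‖A x‖ ≤ 1}) = om nq (A '' closure K) := by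
    ext y
    constructor
    · rintro ⟨x, hx, rfl⟩
      refine ⟨⟨x, hx.1, rfl⟩, ?_⟩
      have h5 : ‖A x‖ ≤ 1 := hx.2
      change ‖A x‖ ^ 2 ≤ 1
      nlinarith [norm_nonneg (A x)]
    · rintro ⟨⟨x, hx, rfl⟩, hy⟩
      refine ⟨x, ⟨hx, ?_⟩, rfl⟩
      have h5 : ‖A x‖ ^ 2 ≤ 1 := hy
      change ‖A x‖ ≤ 1
      nlinarith [norm_nonneg (A x)]
  have hAeq : {x : Ec n | ‖Ae x‖ < 1} = {x | ‖A x‖ < 1} := by
    ext x
    change ‖Ae x‖ < 1 ↔ ‖A x‖ < 1
    rw [hAe]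
  have hNA : volume.real (closure K ∩ {x | ‖A x‖ ≤ 1}) = volume.real (K ∩ {x | ‖Ae x‖ < 1}) := by
    rw [vol_cut ho hc h0 (cvx_lin A) (cont_lin A) hA0, hAeq]
  have hVol : ∀ B : Ec n ≃ₗ[ℝ] Ec n, volume.real (K ∩ {x | ‖B x‖ < 1}) ≤
      4 * (volume.real {x : Ec n | ‖B x‖ < Real.sqrt 2} ^ (m / n) *
        volume.real (K ∩ {x | ‖Ae x‖ < 1}) ^ (1 - m / n)) := by
    intro B
    have h1 := vol_near hn ha hb1 hcl A hA hmax (B : Ec n →ₗ[ℝ] Ec n)
      (LinearEquiv.isUnit_det' B).ne_zero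
    have hB0 : ‖(B : Ec n →ₗ[ℝ] Ec n) 0‖ < 1 := by rw [map_zero, norm_zero]; exact one_pos
    rw [vol_cut ho hc h0 (cvx_lin _) (cont_lin _) hB0, hNA, hα] at h1
    exact h1
  refine ⟨Ae, fun T => ?_, hVol, fun ℓ B hℓ h2m hdet hS => ?_⟩
  · have h1 := H α ha hb1 n (A '' closure K) hn (hcl.image hAc) (hc.closure.linear_image A) hAi
      (by
        rintro _ ⟨x, hx, rfl⟩
        exact ⟨-x, cl_symm hs x hx, map_neg A x⟩) hpos (Ae.symm.trans T)
    have e1 : interior ((Ae.symm.trans T) '' om nq (A '' closure K)) =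
        T '' (K ∩ {x | ‖Ae x‖ < 1}) := by
      rw [← hset]
      have e2 : (Ae.symm.trans T) '' (A '' (closure K ∩ {x | ‖A x‖ ≤ 1})) =
          T '' (closure K ∩ {x | ‖A x‖ ≤ 1}) := by
        rw [image_image]
        refine image_congr fun x _ => ?_
        change T (Ae.symm (A x)) = T x
        rw [← hAe, LinearEquiv.symm_apply_apply]
      rw [e2, hAeq, ← int_cut ho hc h0 (cvx_lin A) (cont_lin A) hA0]
      exact (T.toContinuousLinearEquiv.toHomeomorph.image_interior _).symm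
    rw [e1, hαn] at h1
    refine hb_mono ?_ h1
    rw [mul_assoc]
    refine mul_le_mul_of_nonneg_left ?_ hC.le
    rw [Real.sqrt_le_iff]
    refine ⟨by positivity, ?_⟩
    rw [mul_pow, Real.sq_sqrt (by positivity)]
    rw [div_le_iff₀ (by positivity)]
    have e3 : 2 ^ 2 * (n / m) * m ^ 2 = 4 * n * m := by
      field_simp
      norm_num
    rw [e3]
    nlinarith
  · -- the isotropic ellipsoid
    have hv0 : 0 < volume.real K := by
      refine ENNReal.toReal_pos (ho.measure_pos volume hne).ne' ?_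
      exact hb.measure_lt_top.ne
    obtain ⟨v, hv⟩ : ∃ v, v = volume.real K := ⟨_, rfl⟩
    rw [← hv] at hS hv0 ⊢
    obtain ⟨q, hq⟩ : ∃ q, q = v ^ (1 / (n : ℝ)) := ⟨_, rfl⟩
    have hq0 : 0 < q := by rw [hq]; exact Real.rpow_pos_of_pos hv0 _
    have hqn : q ^ n = v := by
      rw [hq, ← Real.rpow_natCast, ← Real.rpow_mul hv0.le, one_div_mul_cancel hn0.ne',
        Real.rpow_one]
    have e0 : v ^ (1 + 2 / (n : ℝ)) = v * q ^ 2 := by
      rw [Real.rpow_add hv0, Real.rpow_one, hq, ← Real.rpow_natCast (v ^ (1 / (n : ℝ))),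
        ← Real.rpow_mul hv0.le]
      congr 2
      push_cast
      ring
    rw [e0] at hS
    obtain ⟨ρ, hρ⟩ : ∃ ρ, ρ = Real.sqrt 2 * ℓ * Real.sqrt n * q := ⟨_, rfl⟩
    have hs2 : 0 < Real.sqrt 2 := Real.sqrt_pos.2 two_pos
    have hsn : 0 < Real.sqrt n := Real.sqrt_pos.2 hn0
    have hρ0 : 0 < ρ := by rw [hρ]; positivity
    have hρ2 : ρ ^ 2 = 2 * ℓ ^ 2 * n * q ^ 2 := by
      rw [hρ, mul_pow, mul_pow, mul_pow, Real.sq_sqrt two_pos.le, Real.sq_sqrt hn0.le]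
    obtain ⟨D, hD⟩ : ∃ D : Ec n ≃ₗ[ℝ] Ec n, ∀ x, D x = ρ⁻¹ • B x :=
      ⟨B.trans (LinearEquiv.smulOfNeZero ℝ (Ec n) ρ⁻¹ (inv_ne_zero hρ0.ne')), fun x => rfl⟩
    have hDn : ∀ x, ‖D x‖ = ρ⁻¹ * ‖B x‖ := by
      intro x
      rw [hD, norm_smul, Real.norm_eq_abs, abs_of_pos (by positivity)]
    have h1 := hVol D
    have hB0 : ‖(B : Ec n →ₗ[ℝ] Ec n) 0‖ < ρ := by rw [map_zero, norm_zero]; exact hρ0
    have h2 : v / 2 ≤ volume.real (K ∩ {x | ‖D x‖ < 1}) := by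
      have h3 := markov hcl (g := fun x => ‖(B : Ec n →ₗ[ℝ] Ec n) x‖) (cont_lin _)
        hρ0 (S := ℓ ^ 2 * n * (v * q ^ 2)) (by
          rw [setIntegral_congr_set (cl_ae hc)]
          exact hS) (by
          rw [vol_cl hc, ← hv, hρ2]
          refine le_of_eq ?_
          ring)
      rw [vol_cut ho hc h0 (cvx_lin _) (cont_lin _) hB0, vol_cl hc, ← hv] at h3
      refine h3.trans (le_of_eq ?_)
      congr 2
      ext x
      change ‖B x‖ < ρ ↔ ‖D x‖ < 1
      rw [hDn, inv_mul_lt_iff₀ hρ0, mul_one]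
    have h3 : volume.real {x : Ec n | ‖D x‖ < Real.sqrt 2} ≤ (10 * ℓ) ^ n * v := by
      have h4 := vol_ell hn (B : Ec n →ₗ[ℝ] Ec n) (LinearEquiv.isUnit_det' B).ne_zero
        (by positivity : 0 < Real.sqrt 2 * ρ)
      rw [hdet, one_mul] at h4
      have e4 : {x : Ec n | ‖D x‖ < Real.sqrt 2} =
          {x | ‖(B : Ec n →ₗ[ℝ] Ec n) x‖ < Real.sqrt 2 * ρ} := by
        ext x
        change ‖D x‖ < Real.sqrt 2 ↔ ‖B x‖ < Real.sqrt 2 * ρ
        rw [hDn, inv_mul_lt_iff₀ hρ0, mul_comm ρ]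
      rw [e4, h4]
      have e5 : Real.sqrt 2 * ρ = 2 * ℓ * q * Real.sqrt n := by
        rw [hρ]
        have : Real.sqrt 2 * Real.sqrt 2 = 2 := Real.mul_self_sqrt two_pos.le
        calc Real.sqrt 2 * (Real.sqrt 2 * ℓ * Real.sqrt n * q) =
            (Real.sqrt 2 * Real.sqrt 2) * ℓ * q * Real.sqrt n := by ring
          _ = _ := by rw [this]
      rw [e5, mul_pow, mul_pow, hqn]
      have h5 := bv_le n
      calc (2 * ℓ) ^ n * v * Real.sqrt n ^ n * bv n =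
            (2 * ℓ) ^ n * v * (Real.sqrt n ^ n * bv n) := by ring
        _ ≤ (2 * ℓ) ^ n * v * 5 ^ n := mul_le_mul_of_nonneg_left h5 (by positivity)
        _ = (2 * ℓ * 5) ^ n * v := by rw [mul_pow (2 * ℓ) 5]; ring
        _ = _ := by
          congr 2
          ring
    obtain ⟨N, hN⟩ : ∃ N, N = volume.real (K ∩ {x | ‖Ae x‖ < 1}) := ⟨_, rfl⟩
    have hN0 : 0 ≤ N := by rw [hN]; exact measureReal_nonneg
    rw [← hN] at h1 ⊢
    have h4 : volume.real {x : Ec n | ‖D x‖ < Real.sqrt 2} ^ (m / n) ≤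
        (10 * ℓ) ^ m * v ^ (m / n) := by
      refine (Real.rpow_le_rpow measureReal_nonneg h3 (by positivity)).trans (le_of_eq ?_)
      rw [Real.mul_rpow (by positivity) hv0.le, ← Real.rpow_natCast, ← Real.rpow_mul
        (by positivity)]
      congr 2
      field_simp
    have h5 : v ≤ 8 * ((10 * ℓ) ^ m * v ^ (m / n) * N ^ (1 - m / n)) := by
      have h6 := h2.trans h1
      have h7 : volume.real {x : Ec n | ‖D x‖ < Real.sqrt 2} ^ (m / n) * N ^ (1 - m / n) ≤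
          (10 * ℓ) ^ m * v ^ (m / n) * N ^ (1 - m / n) :=
        mul_le_mul_of_nonneg_right h4 (Real.rpow_nonneg hN0 _)
      linarith
    rw [← hα] at h5
    have e6 : v = v ^ α * v ^ (1 - α) := by
      rw [← Real.rpow_add hv0, add_sub_cancel, Real.rpow_one]
    have hva : 0 < v ^ α := Real.rpow_pos_of_pos hv0 _
    have h6 : v ^ (1 - α) ≤ 8 * (10 * ℓ) ^ m * N ^ (1 - α) := by
      have h7 : v ^ α * v ^ (1 - α) ≤ v ^ α * (8 * (10 * ℓ) ^ m * N ^ (1 - α)) := by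
        rw [← e6]
        refine h5.trans (le_of_eq ?_)
        ring
      exact le_of_mul_le_mul_left h7 hva
    have h1a : 0 < 1 - α := by linarith
    have h7 := Real.rpow_le_rpow (by positivity) h6 (inv_nonneg.2 h1a.le)
    rw [← Real.rpow_mul hv0.le, mul_inv_cancel₀ h1a.ne', Real.rpow_one,
      Real.mul_rpow (by positivity) (by positivity), ← Real.rpow_mul hN0,
      mul_inv_cancel₀ h1a.ne', Real.rpow_one] at h7
    refine h7.trans (mul_le_mul_of_nonneg_right ?_ hN0)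
    have h8 : 1 ≤ (10 * ℓ) ^ m := Real.one_le_rpow (by linarith) hm0.le
    have h9 : (1 - α)⁻¹ ≤ 2 := by
      rw [inv_le_comm₀ h1a two_pos]
      have : α ≤ 1 / 2 := by
        rw [hα, div_le_div_iff₀ hn0 two_pos]
        linarith
      linarith
    have h10 : (8 * (10 * ℓ) ^ m) ^ (1 - α)⁻¹ ≤ (8 * (10 * ℓ) ^ m) ^ (2 : ℝ) :=
      Real.rpow_le_rpow_of_exponent_le (by linarith) h9
    refine h10.trans (le_of_eq ?_)
    rw [Real.mul_rpow (by norm_num) (by positivity), ← Real.rpow_mul (by positivity)]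
    norm_num
    congr 1
    ring

end Pool.Agent.V7H69.IK
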