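import Pool.Agent.V7H69.IK.Ell

/-!
# Approximation by uniformly convex bodies
-/

set_option autoImplicit false

namespace Pool.Agent.V7H69.IK

open MeasureTheory Set Filter Topology
open scoped ENNReal InnerProductSpace Pointwise
open Pool.Agent.Results.MP_dc1397_gt.GibbsLevelSets (HyperplaneBound)

variable {n : ℕ}

/-- the function `‖x‖_K² + a ‖x‖²` -/
noncomputable def va (a : ℝ) (K : Set (Ec n)) (x : Ec n) : ℝ := gauge K x ^ 2 + a * ‖x‖ ^ 2

theorem abs_of {K : Set (Ec n)} (ho : IsOpen K) (h0 : (0 : Ec n) ∈ K) : Absorbent ℝ K :=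
  absorbent_nhds_zero (ho.mem_nhds h0)

theorem g_hom {K : Set (Ec n)} (hs : ∀ x ∈ K, -x ∈ K) (c : ℝ) (x : Ec n) :
    gauge K (c • x) = |c| * gauge K x := by
  rcases le_total 0 c with hc | hc
  · rw [gauge_smul_of_nonneg hc, abs_of_nonneg hc, smul_eq_mul]
  · have e : c • x = (-c) • (-x) := by rw [smul_neg, neg_smul, neg_neg]
    rw [e, gauge_smul_of_nonneg (by linarith), gauge_neg hs, abs_of_nonpos hc, smul_eq_mul]

theorem g_cvx {K : Set (Ec n)} (ho : IsOpen K) (hc : Convex ℝ K) (h0 : (0 : Ec n) ∈ K) :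
    ConvexOn ℝ univ (gauge K) := by
  refine ⟨convex_univ, fun x _ y _ s t hs ht _ => ?_⟩
  refine (gauge_add_le hc (abs_of ho h0) _ _).trans ?_
  rw [gauge_smul_of_nonneg hs, gauge_smul_of_nonneg ht]

theorem g_lt {K : Set (Ec n)} (ho : IsOpen K) (hc : Convex ℝ K) (h0 : (0 : Ec n) ∈ K) (x : Ec n) :
    gauge K x < 1 ↔ x ∈ K := by
  rw [gauge_lt_one_iff_mem_interior hc (ho.mem_nhds h0), ho.interior_eq]

theorem va_hom (a : ℝ) {K : Set (Ec n)} (hs : ∀ x ∈ K, -x ∈ K) (c : ℝ) (x : Ec n) :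
    va a K (c • x) = c ^ 2 * va a K x := by
  unfold va
  rw [g_hom hs, mul_pow, sq_abs, norm_smul, mul_pow, Real.norm_eq_abs, sq_abs]
  ring

theorem va_uc (a : ℝ) {K : Set (Ec n)} (ho : IsOpen K) (hc : Convex ℝ K)
    (h0 : (0 : Ec n) ∈ K) (hs : ∀ x ∈ K, -x ∈ K) : UC a (va a K) where
  even x := by
    unfold va
    rw [gauge_neg hs, norm_neg]
  cvx := by
    have h := (g_cvx ho hc h0).pow (fun x _ => gauge_nonneg x) 2
    refine h.congr fun x _ => ?_
    unfold va
    simp only [Pi.pow_apply]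
    ring

theorem va_zero (a : ℝ) (K : Set (Ec n)) : va a K 0 = 0 := by
  unfold va
  rw [gauge_zero, norm_zero]
  ring

/-- Markov -/
theorem markov2 {K : Set (Ec n)} (hK : IsCompact K) {g : Ec n → ℝ} (hg : Continuous g)
    {r η : ℝ} (hr : 0 < r) (h : ∫ x in K, g x ^ 2 ≤ η * r ^ 2 * volume.real K) :
    (1 - η) * volume.real K ≤ volume.real (K ∩ {x | g x ≤ r}) := by
  have hm : MeasurableSet {x : Ec n | g x ≤ r} := (isClosed_le hg continuous_const).measurableSet
  have hi : IntegrableOn ({x : Ec n | g x ≤ r}.indicator (fun _ => (1 : ℝ))) K :=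
    (integrableOn_const hK.measure_lt_top.ne).indicator hm
  have h1 : ∫ x in K, r ^ 2 * (1 - {x : Ec n | g x ≤ r}.indicator (fun _ => (1 : ℝ)) x) ≤
      ∫ x in K, g x ^ 2 := by
    refine setIntegral_mono_on (((cint hK continuous_const).sub hi).const_mul _)
      (cint hK (by fun_prop)) hK.measurableSet fun x _ => ?_
    by_cases hx : x ∈ {x : Ec n | g x ≤ r}
    · rw [indicator_of_mem hx]
      have := sq_nonneg (g x)
      linarith
    · rw [indicator_of_notMem hx, sub_zero, mul_one]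
      have h2 : r < g x := by
        by_contra hcon
        push Not at hcon
        exact hx hcon
      exact pow_le_pow_left₀ hr.le h2.le 2
  have e1 : ∫ x in K, r ^ 2 * (1 - {x : Ec n | g x ≤ r}.indicator (fun _ => (1 : ℝ)) x) =
      r ^ 2 * (volume.real K - volume.real (K ∩ {x | g x ≤ r})) := by
    rw [integral_const_mul, integral_sub (cint hK continuous_const) hi,
      setIntegral_indicator hm, setIntegral_const, setIntegral_const, smul_eq_mul, mul_one,
      smul_eq_mul, mul_one]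
  rw [e1] at h1
  have h3 : r ^ 2 * (volume.real K - volume.real (K ∩ {x | g x ≤ r})) ≤
      r ^ 2 * (η * volume.real K) := by linarith
  have h4 := le_of_mul_le_mul_left h3 (by positivity)
  linarith

/-- a direction with large second moment -/
theorem dir_of (hn : 1 ≤ n) {B : Set (Ec n)} (hB : IsCompact (closure B)) {s : ℝ}
    (h : s * volume.real B ≤ ∫ x in B, ‖x‖ ^ 2) : ∃ θ : Ec n, ‖θ‖ = 1 ∧
    s / n * volume.real B ≤ ∫ x in B, ⟪x, θ⟫_ℝ ^ 2 := by
  have hn0 : (0 : ℝ) < n := by exact_mod_cast hn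
  have hint : ∀ {f : Ec n → ℝ}, Continuous f → IntegrableOn f B := fun {f} hf =>
    (cint hB hf).mono_set subset_closure
  have e3 : ∫ y in B, ‖y‖ ^ 2 = ∑ i : Fin n, ∫ y in B,
      ⟪y, EuclideanSpace.single i (1 : ℝ)⟫_ℝ ^ 2 := by
    rw [← integral_finsetSum _ (fun i _ => hint (by fun_prop))]
    refine integral_congr_ae (Eventually.of_forall fun y => ?_)
    simp only
    rw [EuclideanSpace.real_norm_sq_eq]
    refine Finset.sum_congr rfl fun i _ => ?_
    rw [EuclideanSpace.inner_single_right]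
    simp
  by_contra hcon
  push Not at hcon
  have hlt : ∀ i : Fin n, ∫ y in B, ⟪y, EuclideanSpace.single i (1 : ℝ)⟫_ℝ ^ 2 <
      s / n * volume.real B := fun i => hcon _ (by simp)
  have h5 := Finset.sum_lt_sum_of_nonempty (s := (Finset.univ : Finset (Fin n)))
    (by
      have : Nonempty (Fin n) := ⟨⟨0, by omega⟩⟩
      exact Finset.univ_nonempty) fun i _ => hlt i
  rw [Finset.sum_const, Finset.card_univ, Fintype.card_fin, nsmul_eq_mul, ← e3] at h5
  have e4 : (n : ℝ) * (s / n * volume.real B) = s * volume.real B := by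
    field_simp
  rw [e4] at h5
  linarith

/-- **Approximation**: bodies with bounded outer volume ratio -/
theorem apx0 : ∃ C : ℝ, 0 < C ∧ ∀ (D R ε : ℝ) (n : ℕ) (K : Set (Ec n)), 0 < D → 0 < R → 0 < ε →
    ε ≤ 1 → 1 ≤ n → IsOpen K → Convex ℝ K → K.Nonempty → (∀ x ∈ K, -x ∈ K) →
    K ⊆ Metric.ball 0 R → R ^ n * bv n ≤ D ^ n * volume.real K →
    ∃ B : Set (Ec n), IsOpen B ∧ Convex ℝ B ∧ B.Nonempty ∧ (∀ x ∈ B, -x ∈ B) ∧ B ⊆ K ∧
    K ⊆ (1 + ε) • B ∧ HyperplaneBound (C * D / Real.sqrt ε) B := by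
  obtain ⟨C, hC, H⟩ := level_open
  refine ⟨C * 6, by positivity, fun D R ε n K hD hR hε hε1 hn ho hc hne hs hKR hvr => ?_⟩
  have hn0 : (0 : ℝ) < n := by exact_mod_cast hn
  have hn1 : (1 : ℝ) ≤ n := by exact_mod_cast hn
  have h0 := zero_mem hc hne hs
  have hb : Bornology.IsBounded K := Metric.isBounded_ball.subset hKR
  obtain ⟨a, ha⟩ : ∃ a, a = ε / R ^ 2 := ⟨_, rfl⟩
  have ha0 : 0 < a := by rw [ha]; positivity
  have hU := va_uc a ho hc h0 hs
  have hVc := hU.cont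
  have hVx := hU.cvx0 ha0.le
  have hV0 : va a K 0 < 1 := by rw [va_zero]; exact one_pos
  obtain ⟨B, hBe⟩ : ∃ B, B = K ∩ {x | va a K x < 1} := ⟨_, rfl⟩
  have hBc : Convex ℝ B := by rw [hBe]; exact cv_cut hc hVx 1
  have hBo : IsOpen B := by rw [hBe]; exact op_cut ho hVc 1
  have hB0 : (0 : Ec n) ∈ B := by rw [hBe]; exact ⟨h0, hV0⟩
  have hBK : B ⊆ K := by rw [hBe]; exact inter_subset_left
  have hBs : ∀ x ∈ B, -x ∈ B := by
    intro x hx
    rw [hBe] at hx ⊢
    refine ⟨hs x hx.1, ?_⟩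
    change va a K (-x) < 1
    rw [hU.even]
    exact hx.2
  have hlt : ∀ x ∈ K, va a K x < 1 + ε := by
    intro x hx
    have h1 := (g_lt ho hc h0 x).2 hx
    have h2 : ‖x‖ < R := by simpa using hKR hx
    have h3 : gauge K x ^ 2 < 1 := by nlinarith [gauge_nonneg (s := K) x]
    have h4 : a * ‖x‖ ^ 2 ≤ ε := by
      rw [ha, div_mul_eq_mul_div, div_le_iff₀ (by positivity)]
      refine mul_le_mul_of_nonneg_left ?_ hε.le
      exact pow_le_pow_left₀ (norm_nonneg x) h2.le 2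
    unfold va
    linarith
  have hmem : ∀ (c : ℝ) (x : Ec n), x ∈ K → 0 < c → c ≤ 1 → c ^ 2 * (1 + ε) ≤ 1 → c • x ∈ B := by
    intro c x hx hc0 hc1 hce
    rw [hBe]
    constructor
    · have := hc h0 hx (by linarith : 0 ≤ 1 - c) hc0.le (by ring)
      simpa using this
    · change va a K (c • x) < 1
      rw [va_hom a hs]
      have h1 := mul_lt_mul_of_pos_left (hlt x hx) (by positivity : 0 < c ^ 2)
      linarith
  -- volumes
  have hBb : IsCompact (closure B) := (hb.subset hBK).isCompact_closure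
  have hBfin : volume B ≠ ⊤ := (hb.subset hBK).measure_lt_top.ne
  have hKfin : volume K ≠ ⊤ := hb.measure_lt_top.ne
  have hs2 : 0 < Real.sqrt 2 := Real.sqrt_pos.2 two_pos
  have hvB : (Real.sqrt 2)⁻¹ ^ n * volume.real K ≤ volume.real B := by
    have h1 : (Real.sqrt 2)⁻¹ • K ⊆ B := by
      rintro _ ⟨x, hx, rfl⟩
      refine hmem _ x hx (by positivity) ?_ ?_
      · rw [inv_le_one₀ hs2]
        exact Real.one_le_sqrt.2 one_le_two
      · rw [inv_pow, Real.sq_sqrt two_pos.le]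
        linarith
    have h2 := measureReal_mono h1 hBfin
    refine le_trans (le_of_eq ?_) h2
    unfold Measure.real
    rw [Measure.addHaar_smul, finrank_euclideanSpace_fin, ENNReal.toReal_mul,
      ENNReal.toReal_ofReal (abs_nonneg _), abs_of_pos (by positivity)]
  -- the second moment
  obtain ⟨ρ, hρ⟩ : ∃ ρ, ρ = R / (2 * Real.sqrt 2 * D) := ⟨_, rfl⟩
  have hρ0 : 0 < ρ := by rw [hρ]; positivity
  have hρ2 : ρ ^ 2 = R ^ 2 / (8 * D ^ 2) := by
    rw [hρ, div_pow, mul_pow, mul_pow, Real.sq_sqrt two_pos.le]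
    norm_num
  have hsm : volume.real (B ∩ {x | ‖x‖ ≤ ρ}) ≤ volume.real B / 2 := by
    have h1 : volume.real (B ∩ {x | ‖x‖ ≤ ρ}) ≤ ρ ^ n * bv n := vb_le hρ0.le
    have h2 : ρ ^ n * bv n ≤ (1 / 2) ^ n * volume.real B := by
      have e : ρ ^ n * bv n = (1 / 2) ^ n * ((Real.sqrt 2)⁻¹ ^ n * (D⁻¹ ^ n * (R ^ n * bv n))) := by
        rw [hρ, ← mul_assoc, ← mul_assoc, ← mul_assoc, ← mul_pow, ← mul_pow, ← mul_pow]
        congr 2
        field_simp
      rw [e]
      refine mul_le_mul_of_nonneg_left (le_trans ?_ hvB) (by positivity)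
      refine mul_le_mul_of_nonneg_left ?_ (by positivity)
      rw [inv_pow, inv_mul_le_iff₀ (by positivity)]
      exact hvr
    have h3 : (1 / 2 : ℝ) ^ n ≤ 1 / 2 := by
      calc (1 / 2 : ℝ) ^ n ≤ (1 / 2) ^ 1 := pow_le_pow_of_le_one (by norm_num) (by norm_num) hn
        _ = 1 / 2 := pow_one _
    have h4 : (1 / 2 : ℝ) ^ n * volume.real B ≤ 1 / 2 * volume.real B :=
      mul_le_mul_of_nonneg_right h3 measureReal_nonneg
    linarith
  have hm2 : MeasurableSet {x : Ec n | ‖x‖ ≤ ρ} :=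
    (isClosed_le continuous_norm continuous_const).measurableSet
  have hmom : R ^ 2 / (16 * D ^ 2) * volume.real B ≤ ∫ x in B, ‖x‖ ^ 2 := by
    have hi : IntegrableOn ({x : Ec n | ‖x‖ ≤ ρ}.indicator (fun _ => (1 : ℝ))) B :=
      (integrableOn_const hBfin).indicator hm2
    have hi1 : IntegrableOn (fun _ : Ec n => (1 : ℝ)) B := integrableOn_const hBfin
    have h1 : ∫ x in B, ρ ^ 2 * (1 - {x : Ec n | ‖x‖ ≤ ρ}.indicator (fun _ => (1 : ℝ)) x) ≤
        ∫ x in B, ‖x‖ ^ 2 := by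
      refine setIntegral_mono_on ((hi1.sub hi).const_mul _)
        ((cint hBb (by fun_prop)).mono_set subset_closure) hBo.measurableSet fun x _ => ?_
      by_cases hx : x ∈ {x : Ec n | ‖x‖ ≤ ρ}
      · rw [indicator_of_mem hx]
        have := sq_nonneg ‖x‖
        linarith
      · rw [indicator_of_notMem hx, sub_zero, mul_one]
        have h2 : ρ < ‖x‖ := by
          by_contra hcon
          push Not at hcon
          exact hx hcon
        exact pow_le_pow_left₀ hρ0.le h2.le 2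
    have e1 : ∫ x in B, ρ ^ 2 * (1 - {x : Ec n | ‖x‖ ≤ ρ}.indicator (fun _ => (1 : ℝ)) x) =
        ρ ^ 2 * (volume.real B - volume.real (B ∩ {x | ‖x‖ ≤ ρ})) := by
      rw [integral_const_mul, integral_sub hi1 hi,
        setIntegral_indicator hm2, setIntegral_const, setIntegral_const, smul_eq_mul, mul_one,
        smul_eq_mul, mul_one]
    rw [e1] at h1
    refine le_trans ?_ h1
    have h2 : ρ ^ 2 * (volume.real B / 2) ≤
        ρ ^ 2 * (volume.real B - volume.real (B ∩ {x | ‖x‖ ≤ ρ})) :=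
      mul_le_mul_of_nonneg_left (by linarith) (by positivity)
    refine le_trans (le_of_eq ?_) h2
    rw [hρ2]
    ring
  obtain ⟨θ, hθ1, hθ2⟩ := dir_of hn hBb hmom
  -- growth
  obtain ⟨σ, hσ⟩ : ∃ σ : ℝ, σ = 1 / (2 * n) := ⟨_, rfl⟩
  have hσ0 : 0 < σ := by rw [hσ]; positivity
  have hσ1 : σ < 1 := by
    rw [hσ, div_lt_one (by positivity)]
    linarith
  have hgr : volume.real (K ∩ {x | va a K x ≤ 1 - σ}) ≤
      Real.exp (-(n / 2 * σ)) * volume.real (K ∩ {x | va a K x < 1}) := by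
    obtain ⟨r, hr⟩ : ∃ r, r = Real.sqrt (1 - σ) := ⟨_, rfl⟩
    have hr0 : 0 < r := by rw [hr]; exact Real.sqrt_pos.2 (by linarith)
    have hr2 : r ^ 2 = 1 - σ := by rw [hr]; exact Real.sq_sqrt (by linarith)
    have h1 : K ∩ {x | va a K x ≤ 1 - σ} ⊆ r • (closure K ∩ {x | va a K x ≤ 1}) := by
      intro x hx
      have h2 : va a K x ≤ 1 - σ := hx.2
      have h3 : va a K (r⁻¹ • x) ≤ 1 := by
        rw [va_hom a hs, inv_pow, hr2, inv_mul_le_iff₀ (by linarith), mul_one]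
        exact h2
      refine ⟨r⁻¹ • x, ⟨?_, h3⟩, smul_inv_smul₀ hr0.ne' x⟩
      rw [← gauge_le_one_iff_mem_closure hc (ho.mem_nhds h0)]
      have h4 : gauge K (r⁻¹ • x) ^ 2 ≤ 1 := by
        unfold va at h3
        have : 0 ≤ a * ‖r⁻¹ • x‖ ^ 2 := by positivity
        linarith
      nlinarith [gauge_nonneg (s := K) (r⁻¹ • x)]
    have h2 : volume.real (K ∩ {x | va a K x ≤ 1 - σ}) ≤
        volume.real (r • (closure K ∩ {x | va a K x ≤ 1})) := by
      refine measureReal_mono h1 ?_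
      rw [Measure.addHaar_smul]
      exact ENNReal.mul_ne_top ENNReal.ofReal_ne_top ((measure_mono inter_subset_left).trans_lt
        hb.isCompact_closure.measure_lt_top).ne
    have e1 : volume.real (r • (closure K ∩ {x | va a K x ≤ 1})) =
        r ^ n * volume.real (K ∩ {x | va a K x < 1}) := by
      rw [← vol_cut ho hc h0 hVx hVc hV0]
      unfold Measure.real
      rw [Measure.addHaar_smul, finrank_euclideanSpace_fin, ENNReal.toReal_mul,
        ENNReal.toReal_ofReal (abs_nonneg _), abs_of_pos (by positivity)]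
    rw [e1] at h2
    refine h2.trans (mul_le_mul_of_nonneg_right ?_ measureReal_nonneg)
    have h3 : r ≤ Real.exp (-(σ / 2)) := by
      rw [hr, Real.sqrt_le_iff]
      refine ⟨(Real.exp_pos _).le, ?_⟩
      rw [← Real.exp_nat_mul]
      have e2 : ((2 : ℕ) : ℝ) * -(σ / 2) = -σ := by
        push_cast
        ring
      rw [e2]
      have := Real.add_one_le_exp (-σ)
      linarith
    refine (pow_le_pow_left₀ hr0.le h3 n).trans (le_of_eq ?_)
    rw [← Real.exp_nat_mul]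
    congr 1
    ring
  have hqσ : 2 * ((n : ℝ) / 2) * σ ≤ 1 := by
    have : 2 * ((n : ℝ) / 2) * σ = 1 / 2 := by
      rw [hσ]
      field_simp
    rw [this]
    norm_num
  have hv0 : 0 < R ^ 2 / (16 * D ^ 2) / n := by positivity
  obtain ⟨h1, -⟩ := H (n / 2) σ a (R ^ 2 / (16 * D ^ 2) / n) 1 (by positivity) hσ0 hqσ ha0 hv0 n K
    (va a K) hn ho hc hb hs hU ⟨0, h0, hV0⟩ hgr
  have h2 := h1 ⟨θ, hθ1, by rw [← hBe]; exact hθ2⟩
  rw [← hBe] at h2
  refine ⟨B, hBo, hBc, ⟨0, hB0⟩, hBs, hBK, fun x hx => ?_, hb_mono ?_ h2⟩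
  · refine ⟨(1 + ε)⁻¹ • x, hmem _ x hx (by positivity) ?_ ?_, ?_⟩
    · rw [inv_le_one₀ (by positivity)]
      linarith
    · rw [inv_pow, inv_mul_le_iff₀ (by positivity), mul_one]
      nlinarith
    · exact smul_inv_smul₀ (by positivity) x
  · have e : (n : ℝ) / 2 * a * (R ^ 2 / (16 * D ^ 2) / n) = ε / (32 * D ^ 2) := by
      rw [ha]
      field_simp
      norm_num
    rw [e]
    have hse : 0 < Real.sqrt ε := Real.sqrt_pos.2 hε
    have h3 : Real.sqrt ε ≤ 6 * D * Real.sqrt (ε / (32 * D ^ 2)) := by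
      rw [Real.sqrt_le_iff]
      refine ⟨by positivity, ?_⟩
      rw [mul_pow, Real.sq_sqrt (by positivity)]
      have e2 : (6 * D) ^ 2 * (ε / (32 * D ^ 2)) = 36 / 32 * ε := by
        field_simp
        norm_num
      rw [e2]
      linarith
    rw [div_le_div_iff₀ (Real.sqrt_pos.2 (by positivity)) hse]
    calc C * Real.sqrt ε ≤ C * (6 * D * Real.sqrt (ε / (32 * D ^ 2))) :=
          mul_le_mul_of_nonneg_left h3 hC.le
      _ = _ := by ring

/-- **Approximation** of all bodies up to a small part of the volume -/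
theorem apx : ∃ C : ℝ, 0 < C ∧ ∀ (ℓ ε η : ℝ) (n : ℕ) (K : Set (Ec n)), 0 < ℓ → 0 < ε →
    ε ≤ 1 → 0 < η → η ≤ 1 / 2 → 1 ≤ n → IsOpen K → Convex ℝ K → Bornology.IsBounded K →
    K.Nonempty → (∀ x ∈ K, -x ∈ K) →
    ∫ x in K, ‖x‖ ^ 2 ≤ ℓ ^ 2 * n * volume.real K ^ (1 + 2 / (n : ℝ)) →
    ∃ B : Set (Ec n), IsOpen B ∧ Convex ℝ B ∧ B.Nonempty ∧ (∀ x ∈ B, -x ∈ B) ∧ B ⊆ K ∧
    (1 - η) * volume.real K ≤ volume.real (K ∩ (1 + ε) • B) ∧
    HyperplaneBound (C * ℓ / Real.sqrt (ε * η)) B := by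
  obtain ⟨C, hC, H⟩ := apx0
  refine ⟨C * 10, by positivity, fun ℓ ε η n K hℓ hε hε1 hη hη1 hn ho hc hb hne hs hS => ?_⟩
  have hn0 : (0 : ℝ) < n := by exact_mod_cast hn
  have h0 := zero_mem hc hne hs
  have hv0 : 0 < volume.real K :=
    ENNReal.toReal_pos (ho.measure_pos volume hne).ne' hb.measure_lt_top.ne
  obtain ⟨v, hv⟩ : ∃ v, v = volume.real K := ⟨_, rfl⟩
  rw [← hv] at hS hv0
  obtain ⟨q, hq⟩ : ∃ q, q = v ^ (1 / (n : ℝ)) := ⟨_, rfl⟩
  have hq0 : 0 < q := by rw [hq]; exact Real.rpow_pos_of_pos hv0 _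
  have hqn : q ^ n = v := by
    rw [hq, ← Real.rpow_natCast, ← Real.rpow_mul hv0.le, one_div_mul_cancel hn0.ne',
      Real.rpow_one]
  have e0 : v ^ (1 + 2 / (n : ℝ)) = v * q ^ 2 := by
    rw [Real.rpow_add hv0, Real.rpow_one, hq, ← Real.rpow_natCast (v ^ (1 / (n : ℝ))),
      ← Real.rpow_mul hv0.le]
    congr 2
    push_cast
    ring
  rw [e0] at hS
  have hsn : 0 < Real.sqrt n := Real.sqrt_pos.2 hn0
  have hsη : 0 < Real.sqrt η := Real.sqrt_pos.2 hη
  obtain ⟨R, hR⟩ : ∃ R, R = ℓ * Real.sqrt n * q / Real.sqrt η := ⟨_, rfl⟩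
  have hR0 : 0 < R := by rw [hR]; positivity
  have hR2 : R ^ 2 = ℓ ^ 2 * n * q ^ 2 / η := by
    rw [hR, div_pow, mul_pow, mul_pow, Real.sq_sqrt hn0.le, Real.sq_sqrt hη.le]
  have hcx : ConvexOn ℝ univ fun x : Ec n => ‖x‖ := convexOn_univ_norm
  have hR00 : ‖(0 : Ec n)‖ < R := by rwa [norm_zero]
  obtain ⟨K', hK'⟩ : ∃ K', K' = K ∩ Metric.ball 0 R := ⟨_, rfl⟩
  have hK'v : (1 - η) * v ≤ volume.real K' := by
    have h1 := markov2 hb.isCompact_closure (g := fun x : Ec n => ‖x‖) continuous_norm hR0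
      (η := η) (by
        rw [setIntegral_congr_set (cl_ae hc), vol_cl hc, ← hv]
        refine hS.trans (le_of_eq ?_)
        rw [hR2]
        field_simp)
    rw [vol_cut ho hc h0 hcx continuous_norm hR00, vol_cl hc, ← hv, ball_cut, ← hK'] at h1
    exact h1
  have hK'o : IsOpen K' := by rw [hK']; exact ho.inter Metric.isOpen_ball
  have hK'c : Convex ℝ K' := by rw [hK']; exact hc.inter (convex_ball _ _)
  have hK'0 : (0 : Ec n) ∈ K' := by
    rw [hK']
    exact ⟨h0, by simpa using hR0⟩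
  have hK's : ∀ x ∈ K', -x ∈ K' := by
    intro x hx
    rw [hK'] at hx ⊢
    refine ⟨hs x hx.1, ?_⟩
    have h1 : ‖x‖ < R := by simpa using hx.2
    simpa using h1
  have hvr : R ^ n * bv n ≤ (10 * ℓ / Real.sqrt η) ^ n * volume.real K' := by
    have h1 := bv_le n
    have e1 : R ^ n * bv n = (ℓ / Real.sqrt η) ^ n * v * (Real.sqrt n ^ n * bv n) := by
      have : R = ℓ / Real.sqrt η * q * Real.sqrt n := by
        rw [hR]
        ring
      rw [this, mul_pow, mul_pow, hqn]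
      ring
    rw [e1]
    have h2 : (2 : ℝ) ≤ 2 ^ n := by
      calc (2 : ℝ) = 2 ^ 1 := (pow_one 2).symm
        _ ≤ 2 ^ n := pow_le_pow_right₀ one_le_two hn
    have h3 : v ≤ 2 ^ n * volume.real K' := by
      have h4 : v ≤ 2 * volume.real K' := by nlinarith
      exact h4.trans (mul_le_mul_of_nonneg_right h2 measureReal_nonneg)
    calc (ℓ / Real.sqrt η) ^ n * v * (Real.sqrt n ^ n * bv n) ≤
          (ℓ / Real.sqrt η) ^ n * (2 ^ n * volume.real K') * 5 ^ n := by
          refine mul_le_mul (mul_le_mul_of_nonneg_left h3 (by positivity)) h1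
            (mul_nonneg (by positivity) (bv_pos n).le) ?_
          have := measureReal_nonneg (μ := (volume : Measure (Ec n))) (s := K')
          positivity
      _ = (ℓ / Real.sqrt η * 2 * 5) ^ n * volume.real K' := by
          rw [mul_pow, mul_pow]
          ring
      _ = _ := by
          congr 2
          ring
  obtain ⟨B, hBo, hBc, hBn, hBs, hBK, hKB, hH⟩ := H (10 * ℓ / Real.sqrt η) R ε n K'
    (by positivity) hR0 hε hε1 hn hK'o hK'c ⟨0, hK'0⟩ hK's
    (by rw [hK']; exact inter_subset_right) hvr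
  refine ⟨B, hBo, hBc, hBn, hBs, hBK.trans (by rw [hK']; exact inter_subset_left), ?_, ?_⟩
  · rw [← hv]
    refine hK'v.trans (measureReal_mono (fun x hx => ⟨?_, hKB hx⟩) ?_)
    · rw [hK'] at hx
      exact hx.1
    · exact ((measure_mono inter_subset_left).trans_lt hb.measure_lt_top).ne
  · refine hb_mono (le_of_eq ?_) hH
    rw [Real.sqrt_mul hε.le]
    field_simp

end Pool.Agent.V7H69.IK
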