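import Pool.Agent.V7H69.IK.Apx
import Pool.Agent.H888R2.KT.V1

/-!
# Approximation, with an exponentially small exceptional part
-/

set_option autoImplicit false

namespace Pool.Agent.V7H69.IK

open MeasureTheory Set Filter Topology
open scoped ENNReal InnerProductSpace Pointwise
open Pool.Agent.Results.MP_dc1397_gt.GibbsLevelSets (HyperplaneBound)
open Pool.Agent.H212R2.KLS (mu)

variable {n : ℕ}

/-- the uniform probability measure as a density -/
theorem mu_unif {K : Set (Ec n)} (hm : MeasurableSet K) (c : ℝ) :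
    mu (K.indicator fun _ => c) = ENNReal.ofReal c • (volume : Measure (Ec n)).restrict K := by
  unfold mu
  have e1 : (fun x : Ec n => ENNReal.ofReal (K.indicator (fun _ => c) x)) =
      K.indicator fun _ => ENNReal.ofReal c := by
    funext x
    by_cases hx : x ∈ K
    · rw [indicator_of_mem hx, indicator_of_mem hx]
    · rw [indicator_of_notMem hx, indicator_of_notMem hx, ENNReal.ofReal_zero]
  rw [e1, withDensity_indicator hm, withDensity_const]

/-- **Borell's lemma** for balls and open convex bodies -/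
theorem tail_ball {K : Set (Ec n)} (ho : IsOpen K) (hc : Convex ℝ K) (hb : Bornology.IsBounded K)
    (hne : K.Nonempty) {σ r : ℝ} (hσ : 0 < σ) (hr : 3 * σ ≤ r)
    (hS : ∫ x in K, ‖x‖ ^ 2 ≤ σ ^ 2 * volume.real K) :
    (1 - Real.exp (-(r / (3 * σ)))) * volume.real K ≤ volume.real (K ∩ {x | ‖x‖ ≤ r}) := by
  have hKm := ho.measurableSet
  have hKfin : volume K ≠ ∞ := hb.measure_lt_top.ne
  have hv : 0 < volume.real K := ENNReal.toReal_pos (ho.measure_pos volume hne).ne' hKfin
  obtain ⟨c, hc'⟩ : ∃ c, c = (volume.real K)⁻¹ := ⟨_, rfl⟩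
  have hc0 : 0 < c := by rw [hc']; exact inv_pos.2 hv
  have hcv : c * volume.real K = 1 := by rw [hc']; exact inv_mul_cancel₀ hv.ne'
  have hmu := mu_unif hKm c
  have hint : IntegrableOn (fun x : Ec n => ‖x‖ ^ 2) K :=
    (cint hb.isCompact_closure (by fun_prop)).mono_set subset_closure
  have h1 := Pool.Agent.H888R2.KT.borell (K.indicator fun _ : Ec n => c)
    (fun x => indicator_nonneg (fun _ _ => hc0.le) x) (measurable_const.indicator hKm)
    (by
      intro x y t ht0 ht1
      by_cases hx : x ∈ K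
      · by_cases hy : y ∈ K
        · have hm : (1 - t) • x + t • y ∈ K := hc hx hy (by linarith) ht0.le (by ring)
          rw [indicator_of_mem hx, indicator_of_mem hy, indicator_of_mem hm,
            ← Real.rpow_add hc0]
          simp
        · rw [indicator_of_notMem hy, Real.zero_rpow ht0.ne', mul_zero]
          exact indicator_nonneg (fun _ _ => hc0.le) _
      · rw [indicator_of_notMem hx, Real.zero_rpow (by linarith), zero_mul]
        exact indicator_nonneg (fun _ _ => hc0.le) _)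
    (by
      rw [hmu, Measure.smul_apply, Measure.restrict_apply_univ, smul_eq_mul,
        ← ENNReal.ofReal_toReal hKfin, ← ENNReal.ofReal_mul hc0.le]
      change ENNReal.ofReal (c * volume.real K) = 1
      rw [hcv, ENNReal.ofReal_one]) σ hσ
    (by
      rw [hmu]
      exact hint.integrable.smul_measure ENNReal.ofReal_ne_top)
    (by
      rw [hmu, integral_smul_measure, ENNReal.toReal_ofReal hc0.le, smul_eq_mul]
      calc c * ∫ x in K, ‖x‖ ^ 2 ≤ c * (σ ^ 2 * volume.real K) :=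
            mul_le_mul_of_nonneg_left hS hc0.le
        _ = σ ^ 2 * (c * volume.real K) := by ring
        _ = σ ^ 2 := by rw [hcv, mul_one]) r hr
  have hBm : MeasurableSet (Metric.closedBall (0 : Ec n) r) := measurableSet_closedBall
  rw [hmu, Measure.smul_apply, Measure.restrict_apply hBm.compl, smul_eq_mul] at h1
  have hf2 : volume ((Metric.closedBall (0 : Ec n) r)ᶜ ∩ K) ≠ ∞ :=
    ((measure_mono inter_subset_right).trans_lt hb.measure_lt_top).ne
  have h2 : c * volume.real ((Metric.closedBall (0 : Ec n) r)ᶜ ∩ K) ≤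
      Real.exp (-(r / (3 * σ))) := by
    rw [← ENNReal.ofReal_toReal hf2, ← ENNReal.ofReal_mul hc0.le] at h1
    exact (ENNReal.ofReal_le_ofReal_iff (Real.exp_pos _).le).1 h1
  have h3 : volume.real ((Metric.closedBall (0 : Ec n) r)ᶜ ∩ K) ≤
      Real.exp (-(r / (3 * σ))) * volume.real K := by
    have h4 := mul_le_mul_of_nonneg_left h2 hv.le
    calc volume.real ((Metric.closedBall (0 : Ec n) r)ᶜ ∩ K) =
          volume.real K * (c * volume.real ((Metric.closedBall (0 : Ec n) r)ᶜ ∩ K)) := by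
            rw [← mul_assoc, mul_comm (volume.real K) c, hcv, one_mul]
      _ ≤ volume.real K * Real.exp (-(r / (3 * σ))) := h4
      _ = _ := mul_comm _ _
  have h5 : K ∩ {x : Ec n | ‖x‖ ≤ r} = K ∩ Metric.closedBall 0 r := by
    ext x
    simp
  have h6 := measureReal_inter_add_sdiff (μ := volume) (s := K) (t := Metric.closedBall (0 : Ec n) r)
    hBm hKfin
  have h7 : K \ Metric.closedBall (0 : Ec n) r = (Metric.closedBall (0 : Ec n) r)ᶜ ∩ K := by
    ext x
    exact ⟨fun h => ⟨h.2, h.1⟩, fun h => ⟨h.2, h.1⟩⟩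
  rw [h7] at h6
  rw [h5]
  linarith

/-- **Approximation** of all bodies up to an exponentially small part of the volume -/
theorem apx2 : ∃ C : ℝ, 0 < C ∧ ∀ (ℓ ε η : ℝ) (n : ℕ) (K : Set (Ec n)), 0 < ℓ → 0 < ε →
    ε ≤ 1 → 0 < η → η ≤ 1 / 2 → 1 ≤ n → IsOpen K → Convex ℝ K → Bornology.IsBounded K →
    K.Nonempty → (∀ x ∈ K, -x ∈ K) →
    ∫ x in K, ‖x‖ ^ 2 ≤ ℓ ^ 2 * n * volume.real K ^ (1 + 2 / (n : ℝ)) →
    ∃ B : Set (Ec n), IsOpen B ∧ Convex ℝ B ∧ B.Nonempty ∧ (∀ x ∈ B, -x ∈ B) ∧ B ⊆ K ∧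
    (1 - η) * volume.real K ≤ volume.real (K ∩ (1 + ε) • B) ∧
    HyperplaneBound (C * ℓ * (1 + Real.log (1 / η)) / Real.sqrt ε) B := by
  obtain ⟨C, hC, H⟩ := apx0
  refine ⟨C * 40, by positivity, fun ℓ ε η n K hℓ hε hε1 hη hη1 hn ho hc hb hne hs hS => ?_⟩
  have hn0 : (0 : ℝ) < n := by exact_mod_cast hn
  have h0 := zero_mem hc hne hs
  have hv0 : 0 < volume.real K :=
    ENNReal.toReal_pos (ho.measure_pos volume hne).ne' hb.measure_lt_top.ne
  obtain ⟨s, hs'⟩ : ∃ s, s = 1 + Real.log (1 / η) := ⟨_, rfl⟩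
  have hlog : 0 ≤ Real.log (1 / η) := by
    refine Real.log_nonneg ?_
    rw [le_div_iff₀ hη]
    linarith
  have hs1 : 1 ≤ s := by linarith
  have hs0 : 0 < s := by linarith
  rw [← hs']
  obtain ⟨v, hv⟩ : ∃ v, v = volume.real K := ⟨_, rfl⟩
  rw [← hv] at hS hv0
  obtain ⟨q, hq⟩ : ∃ q, q = v ^ (1 / (n : ℝ)) := ⟨_, rfl⟩
  have hq0 : 0 < q := by rw [hq]; exact Real.rpow_pos_of_pos hv0 _
  have hqn : q ^ n = v := by
    rw [hq, ← Real.rpow_natCast, ← Real.rpow_mul hv0.le, one_div_mul_cancel hn0.ne',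
      Real.rpow_one]
  have e0 : v ^ (1 + 2 / (n : ℝ)) = v * q ^ 2 := by
    rw [Real.rpow_add hv0, Real.rpow_one, hq, ← Real.rpow_natCast (v ^ (1 / (n : ℝ))),
      ← Real.rpow_mul hv0.le]
    congr 2
    push_cast
    ring
  rw [e0] at hS
  have hsn : 0 < Real.sqrt n := Real.sqrt_pos.2 hn0
  obtain ⟨σ, hσ⟩ : ∃ σ, σ = ℓ * Real.sqrt n * q := ⟨_, rfl⟩
  have hσ0 : 0 < σ := by rw [hσ]; positivity
  have hσ2 : σ ^ 2 * v = ℓ ^ 2 * n * (v * q ^ 2) := by
    rw [hσ, mul_pow, mul_pow, Real.sq_sqrt hn0.le]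
    ring
  obtain ⟨R, hR⟩ : ∃ R, R = 4 * σ * s := ⟨_, rfl⟩
  have hR0 : 0 < R := by rw [hR]; positivity
  obtain ⟨K', hK'⟩ : ∃ K', K' = K ∩ Metric.ball 0 R := ⟨_, rfl⟩
  have hK'v : (1 - η) * v ≤ volume.real K' := by
    have h1 := tail_ball ho hc hb hne hσ0 (r := 3 * σ * s) (by nlinarith) (by
      rw [← hv, hσ2]
      exact hS)
    have e1 : 3 * σ * s / (3 * σ) = s := by field_simp
    have e2 : Real.exp (-s) ≤ η := by
      rw [hs', one_div, Real.log_inv, neg_add, neg_neg, Real.exp_add, Real.exp_log hη]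
      have h2 : Real.exp (-1) ≤ 1 := Real.exp_le_one_iff.2 (by norm_num)
      exact mul_le_of_le_one_left hη.le h2
    rw [e1, ← hv] at h1
    have h3 : (1 - η) * v ≤ (1 - Real.exp (-s)) * v :=
      mul_le_mul_of_nonneg_right (by linarith) hv0.le
    refine h3.trans (h1.trans (measureReal_mono ?_ ?_))
    · intro x hx
      rw [hK']
      refine ⟨hx.1, ?_⟩
      have h4 : ‖x‖ ≤ 3 * σ * s := hx.2
      have h5 : 3 * σ * s < R := by
        rw [hR]
        have := mul_pos hσ0 hs0
        nlinarith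
      rw [mem_ball_zero_iff]
      exact h4.trans_lt h5
    · rw [hK']
      exact ((measure_mono inter_subset_left).trans_lt hb.measure_lt_top).ne
  have hK'o : IsOpen K' := by rw [hK']; exact ho.inter Metric.isOpen_ball
  have hK'c : Convex ℝ K' := by rw [hK']; exact hc.inter (convex_ball _ _)
  have hK'0 : (0 : Ec n) ∈ K' := by
    rw [hK']
    exact ⟨h0, by simpa using hR0⟩
  have hK's : ∀ x ∈ K', -x ∈ K' := by
    intro x hx
    rw [hK'] at hx ⊢
    refine ⟨hs x hx.1, ?_⟩
    have h1 : ‖x‖ < R := by simpa using hx.2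
    simpa using h1
  have hvr : R ^ n * bv n ≤ (40 * ℓ * s) ^ n * volume.real K' := by
    have h1 := bv_le n
    have e1 : R ^ n * bv n = (4 * ℓ * s) ^ n * v * (Real.sqrt n ^ n * bv n) := by
      have : R = 4 * ℓ * s * q * Real.sqrt n := by
        rw [hR, hσ]
        ring
      rw [this, mul_pow, mul_pow, hqn]
      ring
    rw [e1]
    have h2 : (2 : ℝ) ≤ 2 ^ n := by
      calc (2 : ℝ) = 2 ^ 1 := (pow_one 2).symm
        _ ≤ 2 ^ n := pow_le_pow_right₀ one_le_two hn
    have h3 : v ≤ 2 ^ n * volume.real K' := by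
      have h4 : v ≤ 2 * volume.real K' := by nlinarith
      exact h4.trans (mul_le_mul_of_nonneg_right h2 measureReal_nonneg)
    calc (4 * ℓ * s) ^ n * v * (Real.sqrt n ^ n * bv n) ≤
          (4 * ℓ * s) ^ n * (2 ^ n * volume.real K') * 5 ^ n := by
          refine mul_le_mul (mul_le_mul_of_nonneg_left h3 (by positivity)) h1
            (mul_nonneg (by positivity) (bv_pos n).le) ?_
          have := measureReal_nonneg (μ := (volume : Measure (Ec n))) (s := K')
          positivity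
      _ = (4 * ℓ * s * 2 * 5) ^ n * volume.real K' := by
          rw [mul_pow (4 * ℓ * s * 2), mul_pow (4 * ℓ * s)]
          ring
      _ = _ := by
          congr 2
          ring
  obtain ⟨B, hBo, hBc, hBn, hBs, hBK, hKB, hH⟩ := H (40 * ℓ * s) R ε n K'
    (by positivity) hR0 hε hε1 hn hK'o hK'c ⟨0, hK'0⟩ hK's
    (by rw [hK']; exact inter_subset_right) hvr
  refine ⟨B, hBo, hBc, hBn, hBs, hBK.trans (by rw [hK']; exact inter_subset_left), ?_, ?_⟩
  · rw [← hv]
    refine hK'v.trans (measureReal_mono (fun x hx => ⟨?_, hKB hx⟩) ?_)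
    · rw [hK'] at hx
      exact hx.1
    · exact ((measure_mono inter_subset_left).trans_lt hb.measure_lt_top).ne
  · refine hb_mono (le_of_eq ?_) hH
    ring

end Pool.Agent.V7H69.IK
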