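import Pool.Agent.V7H69.IK.Var
import Pool.Agent.Y151.PV.Hyp
import Pool.Agent.Results.MP_dc1397_gt.GibbsLevelSets

/-!
# From concentration to central sections, with explicit constants
-/

set_option autoImplicit false

namespace Pool.Agent.V7H69.IK

open MeasureTheory Set Filter Topology
open scoped ENNReal InnerProductSpace Pointwise
open Pool.Agent.W695.KH (Eu EU EV VV Sm Pot Uu sec PerLe sec_bound perim)
open Pool.Agent.Y506.RG (EW VW Adm Star EW_aff star_aff star_of)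
open Pool.Agent.Y506.PV (CcW ind adm_ind VV_VW EV_EW)
open Pool.Agent.W932.KH (closure_ae EV_scale q_max q_pos)
open Pool.Agent.Results.MP_dc1397_gt.GibbsLevelSets (HyperplaneBound perimeter sectionArea
  perimeter_eq)

variable {n : ℕ}

theorem star_img {c : ℝ} {D : Set (Ec n)} (hD : IsCompact D) (hi : (interior D).Nonempty)
    (h : Star c (ind D)) (T : Ec n ≃ₗ[ℝ] Ec n) : Star c (ind (T '' D)) := by
  have hvol : 0 < volume D :=
    lt_of_lt_of_le (isOpen_interior.measure_pos volume hi) (measure_mono interior_subset)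
  have hA := adm_ind D hD.measurableSet hD.isBounded hvol
  refine star_aff T.symm.toContinuousLinearEquiv 0 1 one_pos _ (ind D) (fun x => ?_) hA h
  rw [sub_zero, one_mul]
  change ind (T '' D) x = ind D (T.symm x)
  unfold ind
  by_cases hx : T.symm x ∈ D
  · have h1 : x ∈ T '' D := ⟨T.symm x, hx, by simp⟩
    rw [indicator_of_mem hx, indicator_of_mem h1]
  · have h1 : x ∉ T '' D := by
      rintro ⟨y, hy, rfl⟩
      exact hx (by simpa using hy)
    rw [indicator_of_notMem hx, indicator_of_notMem h1]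

theorem stb_lin {κ : ℝ} (hκ : 0 < κ) {K : Set (Ec n)} (hK : IsCompact K) (hc : Convex ℝ K)
    (hint : (interior K).Nonempty) (hcc : CcW κ (1 / 25) (ind K)) : Star (2 / κ) (ind K) := by
  have hvol : 0 < volume K :=
    lt_of_lt_of_le (isOpen_interior.measure_pos volume hint) (measure_mono interior_subset)
  have hA := adm_ind K hK.measurableSet hK.isBounded hvol
  obtain ⟨A, hiA⟩ := Pool.Agent.Y211.PV.iso n (ind K) hA
  obtain ⟨K', hK'⟩ : ∃ K' : Set (Ec n), K' = A '' K := ⟨_, rfl⟩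
  have hcp' : IsCompact K' := by rw [hK']; exact hK.image A.continuous
  have hcv' : Convex ℝ K' := by
    rw [hK']
    exact hc.linear_image A.toLinearEquiv.toLinearMap
  have hvol' : 0 < volume K' := by
    have h1 : (interior K').Nonempty := by
      obtain ⟨x, hx⟩ := hint
      have h2 : IsOpen (A '' interior K) := A.toHomeomorph.isOpenMap _ isOpen_interior
      have h3 : A '' interior K ⊆ K' := by rw [hK']; exact image_mono interior_subset
      exact ⟨A x, interior_maximal h3 h2 ⟨x, hx, rfl⟩⟩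
    exact lt_of_lt_of_le (isOpen_interior.measure_pos volume h1) (measure_mono interior_subset)
  have hA' := adm_ind K' hcp'.measurableSet hcp'.isBounded hvol'
  have hw : ∀ x, ind K x = 1 * ind K' (A (x - 0)) := by
    intro x
    rw [sub_zero, one_mul]
    unfold ind
    by_cases hx : x ∈ K
    · have : A x ∈ K' := by rw [hK']; exact ⟨x, hx, rfl⟩
      rw [indicator_of_mem hx, indicator_of_mem this]
    · have : A x ∉ K' := by
        rw [hK']
        rintro ⟨y, hy, hxy⟩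
        exact hx (A.injective hxy ▸ hy)
      rw [indicator_of_notMem hx, indicator_of_notMem this]
  have hVW : ∀ v : Ec n → ℝ, VW (ind K) (fun x => v (A x)) = VW (ind K') v := by
    intro v
    unfold VW
    rw [EW_aff A 0 1 one_pos _ _ hw, EW_aff A 0 1 one_pos _ _ hw]
    simp only [add_zero, ContinuousLinearEquiv.apply_symm_apply]
  refine star_aff A 0 1 one_pos _ (ind K') hw hA' ?_
  have hst := star_of hA' 1 (2 / κ) one_pos (by positivity) ?_ ?_
  · rwa [Real.sqrt_one, div_one] at hst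
  · intro θ hθ
    have h1 := hiA θ
    rw [hVW (fun z => ⟪z, θ⟫_ℝ), hθ] at h1
    have h2 : (fun z : Ec n => ⟪θ, z⟫_ℝ) = fun z => ⟪z, θ⟫_ℝ := by
      funext z
      rw [real_inner_comm]
    rw [h2, h1]
    norm_num
  · intro g L' M' hg hb h5
    have hl : Pool.Agent.Y506.FF.LCon K' κ (1 / 25) := by
      intro v hv hv1 hvl
      rw [VV_VW K' hcp'.measurableSet, ← hVW]
      refine hcc n le_rfl A.toLinearEquiv.toLinearMap 1 one_pos ?_ v hv hv1 ?_
      · intro θ hθ
        have h1 := hiA θ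
        rw [hθ] at h1
        have h2 : VW (ind K) (fun x => ⟪A.toLinearEquiv.toLinearMap x, θ⟫_ℝ) =
          VW (ind K) (fun x => ⟪A x, θ⟫_ℝ) := rfl
        rw [h2, h1]
        norm_num
      · intro y
        rw [Real.sqrt_one, div_one]
        exact hvl y
    have key := Pool.Agent.Y665.FF.milb Pool.Agent.Y445.FF.mila' (Fin n) K' hcp' hcv' hvol'
      (1 / 25) κ (by norm_num) hκ hl g L' M' hg hb (by
        rw [VV_VW K' hcp'.measurableSet]
        linarith)
    rw [VV_VW K' hcp'.measurableSet, EV_EW K' hcp'.measurableSet] at key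
    exact key

/-! ### symmetric bodies -/

theorem symm_int {P : Set (Ec n)} (hs : ∀ x ∈ P, -x ∈ P) : ∀ x ∈ interior P, -x ∈ interior P := by
  intro x hx
  have hop : IsOpen ((fun y => -y) ⁻¹' interior P) := isOpen_interior.preimage continuous_neg
  have hsub : (fun y => -y) ⁻¹' interior P ⊆ P := by
    intro y hy
    have := hs _ (interior_subset hy)
    rwa [neg_neg] at this
  exact interior_maximal hsub hop (by simpa using hx)

theorem zero_int {P : Set (Ec n)} (h2 : Convex ℝ P) (h3 : (interior P).Nonempty)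
    (hs : ∀ x ∈ P, -x ∈ P) : (0 : Ec n) ∈ interior P := by
  obtain ⟨x, hx⟩ := h3
  have h := h2.interior hx (symm_int hs x hx) (by norm_num : (0 : ℝ) ≤ 1 / 2)
    (by norm_num : (0 : ℝ) ≤ 1 / 2) (by norm_num)
  rwa [smul_neg, add_neg_cancel] at h

theorem hyper_lin : ∃ C : ℝ, 0 < C ∧ ∀ c : ℝ, 0 < c → ∀ (n : ℕ) (P : Set (Ec n)), 1 ≤ n →
    IsCompact P → Convex ℝ P → (interior P).Nonempty → Star c (ind P) → (∀ x ∈ P, -x ∈ P) →
    HyperplaneBound (C * c) (interior P) := by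
  obtain ⟨C, hC, H'⟩ := Pool.Agent.Y151.PV.hyp
  refine ⟨C, hC, fun c hc n P hn h1 h2 h3 h4 hs => ?_⟩
  have hcl : closure (interior P) = P := by
    rw [h2.closure_interior_eq_closure_of_nonempty_interior h3, h1.isClosed.closure_eq]
  obtain ⟨a, ha, h⟩ := H' n hn (interior P) isOpen_interior h2.interior
    (h1.isBounded.subset interior_subset) (zero_int h2 h3 hs) (symm_int hs) c hc
    (by rw [hcl]; exact h4)
  refine ⟨a, ha, fun E hE hEΩ hvol => ?_⟩
  rw [← perimeter_eq]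
  by_cases hp : Pool.Agent.W695.KH.per E (interior P) = ⊤
  · rw [hp, ENNReal.mul_top (ENNReal.ofReal_pos.2 (by positivity)).ne']
    exact le_top
  · refine (h E hE hEΩ hvol _ (Pool.Agent.W695.KH.perLe_toReal E _ hp)).trans (le_of_eq ?_)
    rw [ENNReal.ofReal_mul (by positivity), ENNReal.ofReal_toReal hp]

theorem hb_mono {C C' : ℝ} (h : C ≤ C') {Ω : Set (Ec n)} (hb : HyperplaneBound C Ω) :
    HyperplaneBound C' Ω := by
  obtain ⟨a, ha, H⟩ := hb
  refine ⟨a, ha, fun E hE hEΩ hvol => (H E hE hEΩ hvol).trans ?_⟩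
  exact mul_le_mul_left (ENNReal.ofReal_le_ofReal h) _

/-! ### one Euclidean structure -/

theorem sm_scale {f : Ec n → ℝ} {L M : ℝ} (hf : Sm f L M) {r : ℝ} (hr0 : 0 < r) (hr1 : r < 1) :
    Sm (fun x => f (r • x)) L |M| ∧ ∀ x, ‖fderiv ℝ (fun x => f (r • x)) x‖ ≤
      ‖fderiv ℝ f (r • x)‖ := by
  have hfe : ∀ x, fderiv ℝ (fun x => f (r • x)) x = r • fderiv ℝ f (r • x) := by
    intro x
    exact fderiv_comp_smul (𝕜 := ℝ) (f := f) (x := x) (c := r)
  have hn : ∀ x, ‖fderiv ℝ (fun x => f (r • x)) x‖ ≤ ‖fderiv ℝ f (r • x)‖ := by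
    intro x
    rw [hfe, norm_smul, Real.norm_eq_abs, abs_of_pos hr0]
    exact mul_le_of_le_one_left (norm_nonneg _) hr1.le
  refine ⟨⟨fun x => hf.bdd _, hf.diff.comp (contDiff_const_smul r), fun x => (hn x).trans
    (hf.grad _), fun x y => ?_⟩, hn⟩
  rw [hfe, hfe, ← smul_sub, norm_smul, Real.norm_eq_abs, abs_of_pos hr0]
  have h1 := hf.lip (r • x) (r • y)
  have h2 : ‖r • x - r • y‖ ≤ ‖x - y‖ := by
    rw [← smul_sub, norm_smul, Real.norm_eq_abs, abs_of_pos hr0]
    exact mul_le_of_le_one_left (norm_nonneg _) hr1.le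
  have h3 : M * ‖r • x - r • y‖ ≤ |M| * ‖x - y‖ :=
    mul_le_mul (le_abs_self M) h2 (norm_nonneg _) (abs_nonneg M)
  calc r * ‖fderiv ℝ f (r • x) - fderiv ℝ f (r • y)‖
      ≤ 1 * ‖fderiv ℝ f (r • x) - fderiv ℝ f (r • y)‖ :=
        mul_le_mul_of_nonneg_right hr1.le (norm_nonneg _)
    _ ≤ _ := by
        rw [one_mul]
        exact h1.trans h3

theorem hypw : ∃ C : ℝ, 0 < C ∧ ∀ (n : ℕ), 1 ≤ n → ∀ Ω : Set (Ec n), IsOpen Ω →
    Convex ℝ Ω → Bornology.IsBounded Ω → (0 : Ec n) ∈ Ω → (∀ x ∈ Ω, -x ∈ Ω) →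
    ∀ K s0 : ℝ, 0 < K → 0 < s0 → (∃ θ : Ec n, ‖θ‖ = 1 ∧ s0 ≤ EV Ω fun x => ⟪θ, x⟫_ℝ ^ 2) →
    (∀ (g : Ec n → ℝ) (L' M' : ℝ), Sm g L' M' → (∀ x, |g x| ≤ 1 / 2) → 1 / 5 < VV Ω g →
      VV Ω g ≤ K * EV Ω fun x => ‖fderiv ℝ g x‖) → ∃ a : Ec n, a ≠ 0 ∧
    ∀ E : Set (Ec n), MeasurableSet E → E ⊆ Ω → volume E = volume Ω / 2 →
    ∀ P : ℝ, PerLe Ω E P → sec Ω a ≤ ENNReal.ofReal (C * (K / Real.sqrt s0) * P) := by
  obtain ⟨Cs, hCs, hs⟩ := sec_bound
  refine ⟨Real.sqrt Cs * (15 / 2), by positivity, ?_⟩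
  intro n hn Ω ho hconv hbd h0 hsym K s0 hK hs0 hθ hmil
  have hne : Nonempty (Fin n) := ⟨⟨0, by omega⟩⟩
  obtain ⟨a, ha, hmax⟩ := q_max (Ω := Ω) ho hbd
  set s := EV Ω (fun x => ⟪a, x⟫_ℝ ^ 2) with hsdef
  have hspos : 0 < s := q_pos ho hbd h0 a ha
  have hfin : volume Ω < ⊤ := hbd.measure_lt_top
  have hvol : 0 < (volume Ω).toReal :=
    ENNReal.toReal_pos (ho.measure_pos volume ⟨0, h0⟩).ne' hfin.ne
  have hss : 0 < Real.sqrt s := Real.sqrt_pos.2 hspos
  have hss0 : 0 < Real.sqrt s0 := Real.sqrt_pos.2 hs0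
  obtain ⟨c, hc⟩ : ∃ c, c = K / Real.sqrt s0 := ⟨_, rfl⟩
  have hc0 : 0 < c := by rw [hc]; positivity
  rw [← hc]
  have hs0s : s0 ≤ s := by
    obtain ⟨θ, hθ1, hθ2⟩ := hθ
    have h1 := hmax θ
    rw [hθ1] at h1
    linarith
  have hKc : K ≤ c * Real.sqrt s := by
    rw [hc, div_mul_eq_mul_div, le_div_iff₀ hss0]
    exact mul_le_mul_of_nonneg_left (Real.sqrt_le_sqrt hs0s) hK.le
  refine ⟨a, ?_, ?_⟩
  · rintro rfl
    rw [norm_zero] at ha
    exact zero_ne_one ha
  intro E hE hEΩ hEvol P hP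
  have key : (volume Ω).toReal ≤ 3 * (5 / 2 * (c * Real.sqrt s)) * P := by
    refine perim (Fin n) Ω ho hconv hbd h0 E hE hEΩ hEvol P hP (5 / 2 * (c * Real.sqrt s))
      (by positivity) ?_
    intro r hr0 hr1 f L M hf hf12 hV
    obtain ⟨hg, hgn⟩ := sm_scale hf hr0 hr1
    have hVV : VV (r • closure Ω) f = VV Ω (fun x => f (r • x)) := by
      unfold VV
      rw [EV_scale ho hconv r hr0, EV_scale ho hconv r hr0]
    have h1 := hmil (fun x => f (r • x)) L |M| hg (fun x => hf12 _) (by rw [← hVV]; exact hV)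
    rw [← hVV] at h1
    rw [EV_scale ho hconv r hr0 (fun x => ‖fderiv ℝ f x‖)]
    have h2 : EV Ω (fun x => ‖fderiv ℝ (fun x => f (r • x)) x‖) ≤
        EV Ω fun x => ‖fderiv ℝ f (r • x)‖ := by
      unfold EV
      refine div_le_div_of_nonneg_right ?_ hvol.le
      refine integral_mono_of_nonneg (Eventually.of_forall fun x => norm_nonneg _) ?_
        (Eventually.of_forall fun x => hgn x)
      have hcf : Continuous fun x : Ec n => ‖fderiv ℝ f (r • x)‖ :=
        ((hf.diff.continuous_fderiv one_ne_zero).comp (continuous_const_smul r)).norm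
      refine Measure.integrableOn_of_bounded (M := L) hfin.ne hcf.aestronglyMeasurable
        (Eventually.of_forall fun x => ?_)
      rw [norm_norm]
      exact hf.grad _
    set V := VV (r • closure Ω) f
    set Y := EV Ω fun x => ‖fderiv ℝ f (r • x)‖ with hY
    have hY0 : 0 ≤ Y := by
      rw [hY]
      unfold EV
      exact div_nonneg (integral_nonneg fun x => norm_nonneg _) hvol.le
    have h4 : V ≤ c * Real.sqrt s * Y := by
      refine h1.trans ((mul_le_mul_of_nonneg_left h2 hK.le).trans ?_)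
      exact mul_le_mul_of_nonneg_right hKc hY0
    have h3 : 5 / 2 * (c * Real.sqrt s) * Y = 5 / 2 * (c * Real.sqrt s * Y) := by ring
    rw [h3]
    have hV' : 1 / 5 < V := hV
    nlinarith
  have hPpos : 0 < P := by
    have h2 : 0 < 3 * (5 / 2 * (c * Real.sqrt s)) := by positivity
    by_contra hcon
    push Not at hcon
    have : 3 * (5 / 2 * (c * Real.sqrt s)) * P ≤ 0 := mul_nonpos_of_nonneg_of_nonpos h2.le hcon
    linarith
  have hsq : (volume Ω).toReal ^ 2 ≤ (15 / 2) ^ 2 * c ^ 2 * s * P ^ 2 := by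
    refine (pow_le_pow_left₀ hvol.le key 2).trans (le_of_eq ?_)
    have : Real.sqrt s ^ 2 = s := Real.sq_sqrt hspos.le
    calc (3 * (5 / 2 * (c * Real.sqrt s)) * P) ^ 2
        = (15 / 2) ^ 2 * c ^ 2 * Real.sqrt s ^ 2 * P ^ 2 := by ring
      _ = _ := by rw [this]
  obtain ⟨hsec1, hsec2, -⟩ := hs (Fin n) Ω ho hconv hbd h0 hsym a ha
  have h3 : (sec Ω a).toReal ^ 2 ≤ (Real.sqrt Cs * (15 / 2) * c * P) ^ 2 := by
    have h4 : (sec Ω a).toReal ^ 2 * s ≤ Cs * ((15 / 2) ^ 2 * c ^ 2 * s * P ^ 2) :=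
      hsec2.trans (mul_le_mul_of_nonneg_left hsq hCs.le)
    have h5 : (Real.sqrt Cs * (15 / 2) * c * P) ^ 2 = Cs * (15 / 2) ^ 2 * c ^ 2 * P ^ 2 := by
      rw [mul_pow, mul_pow, mul_pow, Real.sq_sqrt hCs.le]
    rw [h5]
    have h6 : (sec Ω a).toReal ^ 2 * s ≤ (Cs * (15 / 2) ^ 2 * c ^ 2 * P ^ 2) * s := by
      refine h4.trans (le_of_eq ?_)
      ring
    exact le_of_mul_le_mul_right h6 hspos
  have h7 : (sec Ω a).toReal ≤ Real.sqrt Cs * (15 / 2) * c * P :=
    le_of_sq_le_sq h3 (by positivity)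
  rw [← ENNReal.ofReal_toReal hsec1]
  exact ENNReal.ofReal_le_ofReal h7

end Pool.Agent.V7H69.IK
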