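import Mathlib

/-!
# Near-maximal ellipsoids
-/

set_option autoImplicit false

namespace Pool.Agent.V7H69.IK

open MeasureTheory Set Filter Topology
open scoped ENNReal InnerProductSpace

abbrev Ec (n : ℕ) : Type := EuclideanSpace ℝ (Fin n)

variable {n : ℕ}

/-- the integrand -/
noncomputable def ff (A : Ec n →ₗ[ℝ] Ec n) (x : Ec n) : ℝ := max (1 - ‖A x‖ ^ 2) 0

theorem ff_cont (A : Ec n →ₗ[ℝ] Ec n) : Continuous (ff A) := by
  have : Continuous A := A.continuous_of_finiteDimensional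
  unfold ff
  fun_prop

theorem ff_nonneg (A : Ec n →ₗ[ℝ] Ec n) (x : Ec n) : 0 ≤ ff A x := le_max_right _ _

theorem ff_int {K : Set (Ec n)} (hK : IsCompact K) (A : Ec n →ₗ[ℝ] Ec n) :
    IntegrableOn (ff A) K := (ff_cont A).continuousOn.integrableOn_compact hK

/-- the functional -/
noncomputable def gg (α : ℝ) (K : Set (Ec n)) (A : Ec n →ₗ[ℝ] Ec n) : ℝ :=
  |LinearMap.det A| ^ α * ∫ x in K, ff A x

theorem gg_le {K : Set (Ec n)} (hK : IsCompact K) {α : ℝ} (h0 : 0 < α) (h1 : α < 1)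
    (A : Ec n →ₗ[ℝ] Ec n) (hA : LinearMap.det A ≠ 0) :
    gg α K A ≤ volume.real (Metric.closedBall (0 : Ec n) 1) ^ α *
      volume.real (K ∩ {x | ‖A x‖ ≤ 1}) ^ (1 - α) := by
  have hAc : Continuous A := A.continuous_of_finiteDimensional
  have hm : IsClosed {x : Ec n | ‖A x‖ ≤ 1} := isClosed_le (by fun_prop) continuous_const
  have hKS : IsCompact (K ∩ {x | ‖A x‖ ≤ 1}) := hK.inter_right hm
  have hD : 0 < |LinearMap.det A| := abs_pos.2 hA
  -- the integral
  have i1 : ∫ x in K, ff A x ≤ volume.real (K ∩ {x | ‖A x‖ ≤ 1}) := by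
    rw [setIntegral_eq_of_subset_of_forall_sdiff_eq_zero hK.measurableSet
      (inter_subset_left : K ∩ {x | ‖A x‖ ≤ 1} ⊆ K) (fun x hx => ?_)]
    · have h2 : ∫ x in K ∩ {x | ‖A x‖ ≤ 1}, ff A x ≤ ∫ x in K ∩ {x | ‖A x‖ ≤ 1}, (1 : ℝ) := by
        refine setIntegral_mono_on (ff_int hKS A) (integrableOn_const hKS.measure_lt_top.ne) 
          hKS.measurableSet fun x _ => ?_
        unfold ff
        exact max_le (by have := sq_nonneg ‖A x‖; linarith) zero_le_one
      refine h2.trans (le_of_eq ?_)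
      simp
    · have h2 : ¬ ‖A x‖ ≤ 1 := fun h => hx.2 ⟨hx.1, h⟩
      push Not at h2
      unfold ff
      exact max_eq_right (by nlinarith)
  have i2 : |LinearMap.det A| * volume.real (K ∩ {x | ‖A x‖ ≤ 1}) ≤
      volume.real (Metric.closedBall (0 : Ec n) 1) := by
    have e1 : {x : Ec n | ‖A x‖ ≤ 1} = A ⁻¹' Metric.closedBall 0 1 := by
      ext x
      simp
    have h2 := Measure.addHaar_preimage_linearMap (volume : Measure (Ec n)) hA
      (Metric.closedBall (0 : Ec n) 1)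
    have h3 : volume.real (A ⁻¹' Metric.closedBall (0 : Ec n) 1) =
        |LinearMap.det A|⁻¹ * volume.real (Metric.closedBall (0 : Ec n) 1) := by
      unfold Measure.real
      rw [h2, ENNReal.toReal_mul, ENNReal.toReal_ofReal (abs_nonneg _), abs_inv]
    have h4 : volume.real (K ∩ {x | ‖A x‖ ≤ 1}) ≤
        |LinearMap.det A|⁻¹ * volume.real (Metric.closedBall (0 : Ec n) 1) := by
      rw [← h3, ← e1]
      refine measureReal_mono inter_subset_right ?_
      rw [e1, h2]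
      exact ENNReal.mul_ne_top ENNReal.ofReal_ne_top
        (isCompact_closedBall _ _).measure_lt_top.ne
    calc |LinearMap.det A| * volume.real (K ∩ {x | ‖A x‖ ≤ 1}) ≤
          |LinearMap.det A| * (|LinearMap.det A|⁻¹ *
            volume.real (Metric.closedBall (0 : Ec n) 1)) :=
          mul_le_mul_of_nonneg_left h4 hD.le
      _ = _ := by rw [← mul_assoc, mul_inv_cancel₀ hD.ne', one_mul]
  have hV : 0 ≤ volume.real (K ∩ {x | ‖A x‖ ≤ 1}) := measureReal_nonneg
  obtain ⟨V, hVe⟩ : ∃ V, V = volume.real (K ∩ {x | ‖A x‖ ≤ 1}) := ⟨_, rfl⟩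
  rw [← hVe] at i1 i2 hV ⊢
  have e2 : V = V ^ α * V ^ (1 - α) := by
    rw [← Real.rpow_add_of_nonneg hV h0.le (by linarith), add_sub_cancel, Real.rpow_one]
  unfold gg
  calc |LinearMap.det A| ^ α * ∫ x in K, ff A x ≤ |LinearMap.det A| ^ α * V := by gcongr
    _ = (|LinearMap.det A| * V) ^ α * V ^ (1 - α) := by
        rw [Real.mul_rpow hD.le hV]
        conv_lhs => rw [e2]
        ring
    _ ≤ _ := by gcongr

theorem gg_one_pos {α : ℝ} {K : Set (Ec n)} (hK : IsCompact K)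
    (h0 : (0 : Ec n) ∈ interior K) : 0 < gg α K LinearMap.id := by
  unfold gg
  rw [LinearMap.det_id, abs_one, Real.one_rpow, one_mul]
  have hU : IsOpen (interior K ∩ Metric.ball (0 : Ec n) (1 / 2)) :=
    isOpen_interior.inter Metric.isOpen_ball
  have hUK : interior K ∩ Metric.ball (0 : Ec n) (1 / 2) ⊆ K :=
    inter_subset_left.trans interior_subset
  have hfin : volume (interior K ∩ Metric.ball (0 : Ec n) (1 / 2)) ≠ ⊤ :=
    ((measure_mono hUK).trans_lt hK.measure_lt_top).ne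
  have hpos : 0 < volume.real (interior K ∩ Metric.ball (0 : Ec n) (1 / 2)) := by
    refine ENNReal.toReal_pos (hU.measure_pos volume ⟨0, h0, ?_⟩).ne' hfin
    rw [Metric.mem_ball, dist_self]
    norm_num
  have h2 : ∫ x in interior K ∩ Metric.ball (0 : Ec n) (1 / 2), (3 / 4 : ℝ) ≤
      ∫ x in interior K ∩ Metric.ball (0 : Ec n) (1 / 2), ff LinearMap.id x := by
    refine setIntegral_mono_on (integrableOn_const hfin)
      ((ff_int hK _).mono_set hUK) hU.measurableSet fun x hx => ?_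
    have h3 : ‖x‖ < 1 / 2 := by simpa using hx.2
    unfold ff
    refine le_trans ?_ (le_max_left _ _)
    rw [LinearMap.id_apply]
    nlinarith [norm_nonneg x]
  have h3 : ∫ x in interior K ∩ Metric.ball (0 : Ec n) (1 / 2), ff LinearMap.id x ≤
      ∫ x in K, ff LinearMap.id x :=
    setIntegral_mono_set (ff_int hK _) (Eventually.of_forall fun x => ff_nonneg _ x)
      (LE.le.eventuallyLE hUK)
  have h4 : ∫ x in interior K ∩ Metric.ball (0 : Ec n) (1 / 2), (3 / 4 : ℝ) =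
      volume.real (interior K ∩ Metric.ball (0 : Ec n) (1 / 2)) * (3 / 4) := by
    rw [setIntegral_const, smul_eq_mul]
  rw [h4] at h2
  have := mul_pos hpos (by norm_num : (0 : ℝ) < 3 / 4)
  linarith

/-- a near-maximal linear map -/
theorem near_max {α ε : ℝ} (ha : 0 < α) (hb : α < 1) (hε : 0 < ε) {K : Set (Ec n)}
    (hK : IsCompact K) (h0 : (0 : Ec n) ∈ interior K) :
    ∃ A : Ec n →ₗ[ℝ] Ec n, LinearMap.det A ≠ 0 ∧
      ∀ B : Ec n →ₗ[ℝ] Ec n, LinearMap.det B ≠ 0 → gg α K B ≤ (1 + ε) * gg α K A := by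
  obtain ⟨S, hS⟩ : ∃ S : Set ℝ, S = (fun B => gg α K B) '' {B : Ec n →ₗ[ℝ] Ec n |
    LinearMap.det B ≠ 0} := ⟨_, rfl⟩
  have h1 : gg α K LinearMap.id ∈ S := by
    rw [hS]
    refine ⟨LinearMap.id, ?_, rfl⟩
    change LinearMap.det LinearMap.id ≠ 0
    rw [LinearMap.det_id]
    exact one_ne_zero
  have h2 : BddAbove S := by
    refine ⟨volume.real (Metric.closedBall (0 : Ec n) 1) ^ α * volume.real K ^ (1 - α), ?_⟩
    rw [hS]
    rintro _ ⟨B, hB, rfl⟩
    refine (gg_le hK ha hb B hB).trans ?_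
    have h3 : volume.real (K ∩ {x | ‖B x‖ ≤ 1}) ≤ volume.real K :=
      measureReal_mono inter_subset_left hK.measure_lt_top.ne
    have h4 : (0 : ℝ) ≤ 1 - α := by linarith
    gcongr
  have h3 : 0 < sSup S := (gg_one_pos hK h0).trans_le (le_csSup h2 h1)
  have h4 : sSup S / (1 + ε) < sSup S := by
    rw [div_lt_iff₀ (by linarith)]
    nlinarith
  obtain ⟨s, hs, hlt⟩ := exists_lt_of_lt_csSup ⟨_, h1⟩ h4
  rw [hS] at hs
  obtain ⟨A, hA, rfl⟩ := hs
  refine ⟨A, hA, fun B hB => ?_⟩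
  have h5 : gg α K B ≤ sSup S := le_csSup h2 (by rw [hS]; exact ⟨B, hB, rfl⟩)
  rw [div_lt_iff₀ (by linarith)] at hlt
  linarith

/-! ### change of variables -/

theorem int_image (A : Ec n →ₗ[ℝ] Ec n) (hA : LinearMap.det A ≠ 0) {K : Set (Ec n)}
    (hK : MeasurableSet K) (g : Ec n → ℝ) :
    ∫ y in A '' K, g y = |LinearMap.det A| * ∫ x in K, g (A x) := by
  obtain ⟨A', hA'⟩ : ∃ A' : Ec n →L[ℝ] Ec n, A' = LinearMap.toContinuousLinearMap A := ⟨_, rfl⟩
  have hd : A'.det = LinearMap.det A := by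
    rw [hA']
    rfl
  have hinj : Function.Injective A := (LinearMap.equivOfDetNeZero A hA).injective
  have h1 := integral_image_eq_integral_abs_det_fderiv_smul (volume : Measure (Ec n)) hK
    (f := A) (f' := fun _ => A') (fun x _ => by
      have := A'.hasFDerivWithinAt (s := K) (x := x)
      rw [hA'] at this ⊢
      exact this) hinj.injOn g
  rw [h1, hd]
  simp only [smul_eq_mul]
  rw [integral_const_mul]

/-- near-maximality in position -/
def Pos (α ε : ℝ) (L : Set (Ec n)) : Prop := ∀ B : Ec n →ₗ[ℝ] Ec n, LinearMap.det B ≠ 0 →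
  |LinearMap.det B| ^ α * ∫ y in L, ff B y ≤ (1 + ε) * ∫ y in L, max (1 - ‖y‖ ^ 2) 0

theorem pos_of {α ε : ℝ} {K : Set (Ec n)} (hK : IsCompact K) (A : Ec n →ₗ[ℝ] Ec n)
    (hA : LinearMap.det A ≠ 0)
    (h : ∀ B : Ec n →ₗ[ℝ] Ec n, LinearMap.det B ≠ 0 → gg α K B ≤ (1 + ε) * gg α K A) :
    Pos α ε (A '' K) := by
  intro B hB
  have hD : 0 < |LinearMap.det A| := abs_pos.2 hA
  have h1 := h (B ∘ₗ A) (by
    rw [LinearMap.det_comp]
    exact mul_ne_zero hB hA)
  unfold gg at h1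
  rw [LinearMap.det_comp, abs_mul, Real.mul_rpow (abs_nonneg _) (abs_nonneg _)] at h1
  rw [int_image A hA hK.measurableSet, int_image A hA hK.measurableSet]
  have e1 : ∫ x in K, ff (B ∘ₗ A) x = ∫ x in K, ff B (A x) := rfl
  have e2 : ∫ x in K, ff A x = ∫ x in K, max (1 - ‖A x‖ ^ 2) 0 := rfl
  rw [e1, e2] at h1
  have hDa : 0 < |LinearMap.det A| ^ α := Real.rpow_pos_of_pos hD _
  have h2 : |LinearMap.det A| ^ α * (|LinearMap.det B| ^ α * ∫ x in K, ff B (A x)) ≤
      |LinearMap.det A| ^ α * ((1 + ε) * ∫ x in K, max (1 - ‖A x‖ ^ 2) 0) := by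
    linarith
  have h3 := le_of_mul_le_mul_left h2 hDa
  have h4 := mul_le_mul_of_nonneg_left h3 hD.le
  linarith

end Pool.Agent.V7H69.IK
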