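import Pool.Agent.V7H69.IK.Opn

/-!
# Sublevel sets of uniformly convex functions: open form, linear images
-/

set_option autoImplicit false

namespace Pool.Agent.V7H69.IK

open MeasureTheory Set Filter Topology
open scoped ENNReal InnerProductSpace Pointwise
open Pool.Agent.Y506.RG (EW VW)
open Pool.Agent.Y506.PV (ind CcW)
open Pool.Agent.Results.MP_dc1397_gt.GibbsLevelSets (HyperplaneBound)

variable {n : ℕ}

/-- concentration for all linear images -/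
theorem cc_iso {w : Ec n → ℝ} {p a v : ℝ} (hp : 0 < p) (ha : 0 < a) (hv : 0 < v)
    (hP : ∀ l : ℝ, 0 ≤ l → ∀ f : Ec n → ℝ, ContDiff ℝ 1 f → (∀ x, ‖fderiv ℝ f x‖ ≤ l) →
      VW w f ≤ 66 * l ^ 2 / (p * a))
    (hlow : ∀ η : Ec n, ‖η‖ = 1 → v ≤ VW w fun x => ⟪η, x⟫_ℝ) :
    CcW (Real.sqrt (p * a * v / 1650)) (1 / 25) w := by
  intro k hk T s hs0 hT g hg hg1 hg2
  obtain ⟨κ, hκ⟩ : ∃ κ, κ = Real.sqrt (p * a * v / 1650) := ⟨_, rfl⟩
  rw [← hκ] at hg2
  have hκ0 : 0 ≤ κ := by rw [hκ]; exact Real.sqrt_nonneg _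
  have hκ2 : κ ^ 2 = p * a * v / 1650 := by
    rw [hκ]
    exact Real.sq_sqrt (by positivity)
  have hTn := Pool.Agent.Y506.RG.norm_T w v hv hlow T s hs0 hT
  obtain ⟨M, hM⟩ : ∃ M, M = Real.sqrt (s / v) := ⟨_, rfl⟩
  rw [← hM] at hTn
  have hM0 : 0 ≤ M := by rw [hM]; exact Real.sqrt_nonneg _
  have hM2 : M ^ 2 = s / v := by
    rw [hM]
    exact Real.sq_sqrt (by positivity)
  obtain ⟨T', hT'⟩ : ∃ T' : Ec n →L[ℝ] Ec k, T' = LinearMap.toContinuousLinearMap T := ⟨_, rfl⟩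
  have hTT : ∀ x, T' x = T x := fun x => by rw [hT']; rfl
  have hT'n : ‖T'‖ ≤ M := ContinuousLinearMap.opNorm_le_bound _ hM0 fun x => by
    rw [hTT]
    exact hTn x
  obtain ⟨f, hf⟩ : ∃ f : Ec n → ℝ, f = fun x => g (T' x) := ⟨_, rfl⟩
  have hfT : (fun x => g (T x)) = f := by
    rw [hf]
    funext x
    rw [hTT]
  have hfc : ContDiff ℝ 1 f := by
    rw [hf]
    exact hg.comp T'.contDiff
  have hfd : ∀ x, fderiv ℝ f x = (fderiv ℝ g (T' x)).comp T' := by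
    intro x
    have h1 : HasFDerivAt g (fderiv ℝ g (T' x)) (T' x) :=
      ((hg.differentiable one_ne_zero) _).hasFDerivAt
    rw [hf]
    exact (h1.comp x T'.hasFDerivAt).fderiv
  have hfl : ∀ x, ‖fderiv ℝ f x‖ ≤ κ / Real.sqrt s * M := by
    intro x
    rw [hfd]
    exact (ContinuousLinearMap.opNorm_comp_le _ _).trans
      (mul_le_mul (hg2 _) hT'n (norm_nonneg _) (by positivity))
  rw [hfT]
  refine (hP (κ / Real.sqrt s * M) (by positivity) f hfc hfl).trans ?_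
  rw [mul_pow, div_pow, Real.sq_sqrt hs0.le, hM2, hκ2]
  refine le_of_eq ?_
  field_simp
  norm_num

/-- from concentration to all linear images -/
theorem iso_fin : ∃ C : ℝ, 0 < C ∧ ∀ (κ : ℝ), 0 < κ → ∀ (n : ℕ) (P : Set (Ec n)), 1 ≤ n →
    IsCompact P → Convex ℝ P → (interior P).Nonempty → (∀ x ∈ P, -x ∈ P) →
    CcW κ (1 / 25) (ind P) → ∀ T : Ec n ≃ₗ[ℝ] Ec n, HyperplaneBound (C / κ) (interior (T '' P)) := by
  obtain ⟨C, hC, H⟩ := hyper_lin
  refine ⟨C * 2, by positivity, fun κ hκ n P hn h1 h2 h3 hs h4 T => ?_⟩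
  have h5 := star_img h1 h3 (stb_lin hκ h1 h2 h3 h4) T
  have hTc : Continuous T := T.toLinearMap.continuous_of_finiteDimensional
  have hTi : (interior (T '' P)).Nonempty := by
    obtain ⟨x, hx⟩ := h3
    have h6 : IsOpen (T '' interior P) :=
      T.toContinuousLinearEquiv.toHomeomorph.isOpenMap _ isOpen_interior
    exact ⟨T x, interior_maximal (image_mono interior_subset) h6 ⟨x, hx, rfl⟩⟩
  have h6 := H (2 / κ) (by positivity) n (T '' P) hn (h1.image hTc)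
    (h2.linear_image T.toLinearMap) hTi h5 (by
      rintro _ ⟨x, hx, rfl⟩
      exact ⟨-x, hs x hx, map_neg T x⟩)
  have e : C * 2 / κ = C * (2 / κ) := by ring
  rw [e]
  exact h6

/-- the tail of a sublevel set -/
theorem lev_tail {q σ a : ℝ} (hq : 0 < q) (hσ : 2 * q * σ ≤ 1) (ha : 0 < a)
    {L : Set (Ec n)} {Φ : Ec n → ℝ} (hn : 1 ≤ n) (hΦ : GP Φ) (hm : Mid a Φ)
    (hcx : ConvexOn ℝ univ Φ) (hL : IsCompact L) (hc : Convex ℝ L) (h0 : (0 : Ec n) ∈ interior L)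
    (hσ0 : 0 < σ)
    (h : volume.real (L ∩ {x | Φ x ≤ 1 - σ}) ≤ Real.exp (-(q * σ)) * vv Φ L) :
    ∫ y in om Φ L, Real.exp (2 * q / 4 * (1 - Φ y)) ≤ 33 * vv Φ L := by
  have hV : 0 ≤ vv Φ L := measureReal_nonneg
  refine exp_mom0 hΦ hL (by positivity) fun τ hτ0 => ?_
  have e1 : 2 * q * τ / 2 = q * τ := by ring
  rw [e1]
  have hsub : om Φ L ∩ {y | Φ y ≤ 1 - τ} ⊆ L ∩ {x | Φ x ≤ 1 - τ} :=
    fun y hy => ⟨hy.1.1, hy.2⟩
  have h2 : volume.real (om Φ L ∩ {y | Φ y ≤ 1 - τ}) ≤ volume.real (L ∩ {x | Φ x ≤ 1 - τ}) :=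
    measureReal_mono hsub ((measure_mono inter_subset_left).trans_lt hL.measure_lt_top).ne
  refine h2.trans ?_
  have hvv : vv Φ L = volume.real (L ∩ {x | Φ x ≤ 1}) := rfl
  by_cases hτσ : τ ≤ σ
  · have h3 : volume.real (L ∩ {x | Φ x ≤ 1 - τ}) ≤ vv Φ L := by
      rw [hvv]
      refine measureReal_mono (fun x hx => ⟨hx.1, ?_⟩)
        ((measure_mono inter_subset_left).trans_lt hL.measure_lt_top).ne
      have : Φ x ≤ 1 - τ := hx.2
      change Φ x ≤ 1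
      linarith
    have h4 : (1 / 2 : ℝ) ≤ Real.exp (-(q * τ)) := by
      have h5 := Real.add_one_le_exp (-(q * τ))
      have h6 : q * τ ≤ q * σ := mul_le_mul_of_nonneg_left hτσ hq.le
      linarith
    have h5 : (1 / 2 : ℝ) * vv Φ L ≤ Real.exp (-(q * τ)) * vv Φ L :=
      mul_le_mul_of_nonneg_right h4 hV
    linarith
  · push Not at hτσ
    by_cases hτ1 : τ < 1
    · have h3 := one_scale0 hcx hΦ.cont hΦ.zero hL hc h0 (r := 1 - τ) (s := 1 - σ) (v := 1)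
        (g := q * σ) (by linarith) (by linarith) (by linarith) h
      have e2 : q * σ * (1 - (1 - τ)) / (1 - (1 - σ)) = q * τ := by
        rw [sub_sub_cancel, sub_sub_cancel]
        field_simp
      rw [e2] at h3
      have h4 : 0 ≤ Real.exp (-(q * τ)) * vv Φ L := by positivity
      have h5 : volume.real (L ∩ {x | Φ x ≤ 1 - τ}) ≤ Real.exp (-(q * τ)) * vv Φ L := h3
      linarith
    · push Not at hτ1
      have h3 : L ∩ {x | Φ x ≤ 1 - τ} ⊆ {0} := by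
        intro x hx
        have h4 : Φ x ≤ 1 - τ := hx.2
        have h5 := phi_low hΦ hm x
        have h6 : ‖x‖ ^ 2 ≤ 0 := by
          by_contra hcon
          push Not at hcon
          have := mul_pos ha hcon
          linarith
        have h7 : ‖x‖ = 0 := pow_eq_zero_iff two_ne_zero |>.1 (le_antisymm h6 (sq_nonneg _))
        exact norm_eq_zero.1 h7
      have hne : Nontrivial (Ec n) := by
        have : Nonempty (Fin n) := ⟨⟨0, by omega⟩⟩
        infer_instance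
      have h4 : volume.real (L ∩ {x | Φ x ≤ 1 - τ}) ≤ volume.real ({0} : Set (Ec n)) :=
        measureReal_mono h3 (by simp)
      have h5 : volume.real ({0} : Set (Ec n)) = 0 := by
        unfold Measure.real
        rw [measure_singleton]
        rfl
      rw [h5] at h4
      exact h4.trans (by positivity)

/-- **linear images of sublevel sets of uniformly convex functions**, compact form -/
theorem level_iso : ∃ C : ℝ, 0 < C ∧ ∀ (q σ a v : ℝ), 0 < q → 0 < σ → 2 * q * σ ≤ 1 → 0 < a →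
    0 < v → ∀ (n : ℕ) (L : Set (Ec n)) (Φ : Ec n → ℝ), 1 ≤ n → GP Φ → Mid a Φ →
    ConvexOn ℝ univ Φ → IsCompact L → Convex ℝ L → (0 : Ec n) ∈ interior L → (∀ x ∈ L, -x ∈ L) →
    volume.real (L ∩ {x | Φ x ≤ 1 - σ}) ≤ Real.exp (-(q * σ)) * vv Φ L →
    (∀ θ : Ec n, ‖θ‖ = 1 → v * vv Φ L ≤ ∫ x in om Φ L, ⟪x, θ⟫_ℝ ^ 2) →
    ∀ T : Ec n ≃ₗ[ℝ] Ec n,
    HyperplaneBound (C / Real.sqrt (q * a * v)) (interior (T '' om Φ L)) := by
  obtain ⟨C, hC, H⟩ := iso_fin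
  refine ⟨C * 29, by positivity, fun q σ a v hq hσ0 hσ ha hv n L Φ hn hΦ hm hcx hL hc h0 hs h hθ
    T => ?_⟩
  have hΩ := om_comp hΦ hL
  have hcv : Convex ℝ {y | Φ y ≤ 1} := by
    have := hcx.convex_le 1
    have e : {y | Φ y ≤ 1} = {x ∈ univ | Φ x ≤ 1} := by
      ext x
      exact ⟨fun hx => ⟨mem_univ x, hx⟩, fun hx => hx.2⟩
    rw [e]
    exact this
  have hΩc : Convex ℝ (om Φ L) := hc.inter hcv
  have hVp := vv_pos hΦ hL h0
  have hM := lev_tail hq hσ ha hn hΦ hm hcx hL hc h0 hσ0 h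
  have h1 := cc_iso (w := ind (om Φ L)) (p := 2 * q) (a := a) (v := v) (by positivity) ha hv
    (fun l hl f hf hfl => pnc' (by positivity) hΦ ha hm hL hΩc h0 hM hl f hf hfl)
    (fun η hη => by
      have e : (fun x : Ec n => ⟪η, x⟫_ℝ) = fun x => ⟪x, η⟫_ℝ := by
        funext x
        rw [real_inner_comm]
      rw [e, VW_lin hΦ hL hs, le_div_iff₀ hVp]
      exact hθ η hη)
  have hp : 0 < 2 * q * a * v / 1650 := by positivity
  have h2 := H (Real.sqrt (2 * q * a * v / 1650)) (Real.sqrt_pos.2 hp) n (om Φ L) hn hΩ hΩc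
    ⟨0, int_om hΦ h0⟩ (om_symm hΦ hs) h1 T
  refine hb_mono ?_ h2
  have hqav : 0 < q * a * v := by positivity
  rw [div_le_div_iff₀ (Real.sqrt_pos.2 hp) (Real.sqrt_pos.2 hqav), mul_assoc C 29]
  refine mul_le_mul_of_nonneg_left ?_ hC.le
  have h3 : Real.sqrt (q * a * v) = Real.sqrt 825 * Real.sqrt (2 * q * a * v / 1650) := by
    rw [← Real.sqrt_mul (by norm_num)]
    congr 1
    ring
  rw [h3]
  refine mul_le_mul_of_nonneg_right ?_ (Real.sqrt_nonneg _)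
  rw [Real.sqrt_le_iff]
  norm_num

/-- uniformly convex even functions -/
structure UC (a : ℝ) (V : Ec n → ℝ) : Prop where
  even : ∀ x, V (-x) = V x
  cvx : ConvexOn ℝ univ fun x => V x - a * ‖x‖ ^ 2

theorem cvx_sq : ConvexOn ℝ univ fun x : Ec n => ‖x‖ ^ 2 := by
  have h := (convexOn_univ_norm (E := Ec n)).pow (fun x _ => norm_nonneg x) 2
  exact h

theorem UC.cvx0 {a : ℝ} (ha : 0 ≤ a) {V : Ec n → ℝ} (h : UC a V) : ConvexOn ℝ univ V := by
  have h1 := h.cvx.add (cvx_sq.smul ha)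
  refine h1.congr fun x _ => ?_
  simp only [Pi.add_apply, smul_eq_mul]
  ring

theorem UC.cont {a : ℝ} {V : Ec n → ℝ} (h : UC a V) : Continuous V := by
  have h1 : Continuous fun x => V x - a * ‖x‖ ^ 2 := h.cvx.locallyLipschitz.continuous
  have h2 : V = fun x => (V x - a * ‖x‖ ^ 2) + a * ‖x‖ ^ 2 := by
    funext x
    ring
  rw [h2]
  fun_prop

theorem UC.min {a : ℝ} (ha : 0 ≤ a) {V : Ec n → ℝ} (h : UC a V) (x : Ec n) : V 0 ≤ V x := by
  have h1 := (h.cvx0 ha).2 (mem_univ x) (mem_univ (-x)) (by norm_num : (0 : ℝ) ≤ 1 / 2)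
    (by norm_num : (0 : ℝ) ≤ 1 / 2) (by norm_num)
  rw [smul_neg, add_neg_cancel, h.even] at h1
  simp only [smul_eq_mul] at h1
  linarith

theorem UC.mid {a : ℝ} {V : Ec n → ℝ} (h : UC a V) (x y : Ec n) :
    V ((1 / 2 : ℝ) • (x + y)) ≤ (V x + V y) / 2 - a * ‖x - y‖ ^ 2 / 4 := by
  have h1 := h.cvx.2 (mem_univ x) (mem_univ y) (by norm_num : (0 : ℝ) ≤ 1 / 2)
    (by norm_num : (0 : ℝ) ≤ 1 / 2) (by norm_num)
  rw [← smul_add] at h1
  simp only [smul_eq_mul] at h1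
  have h2 := parallelogram_law_with_norm ℝ x y
  rw [norm_smul, Real.norm_eq_abs, abs_of_pos (by norm_num : (0 : ℝ) < 1 / 2), mul_pow] at h1
  have h3 : a * (‖x + y‖ ^ 2 + ‖x - y‖ ^ 2) = a * (2 * (‖x‖ ^ 2 + ‖y‖ ^ 2)) := by rw [h2]
  linarith

/-- **sublevel sets of uniformly convex functions** -/
theorem level_open : ∃ C : ℝ, 0 < C ∧ ∀ (q σ a v t : ℝ), 0 < q → 0 < σ → 2 * q * σ ≤ 1 → 0 < a →
    0 < v → ∀ (n : ℕ) (K : Set (Ec n)) (V : Ec n → ℝ), 1 ≤ n → IsOpen K → Convex ℝ K →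
    Bornology.IsBounded K → (∀ x ∈ K, -x ∈ K) → UC a V → (K ∩ {x | V x < t}).Nonempty →
    volume.real (K ∩ {x | V x ≤ t - σ}) ≤ Real.exp (-(q * σ)) * volume.real (K ∩ {x | V x < t}) →
    ((∃ θ : Ec n, ‖θ‖ = 1 ∧ v * volume.real (K ∩ {x | V x < t}) ≤
        ∫ x in K ∩ {x | V x < t}, ⟪x, θ⟫_ℝ ^ 2) →
      HyperplaneBound (C / Real.sqrt (q * a * v)) (K ∩ {x | V x < t})) ∧
    ((∀ θ : Ec n, ‖θ‖ = 1 → v * volume.real (K ∩ {x | V x < t}) ≤
        ∫ x in K ∩ {x | V x < t}, ⟪x, θ⟫_ℝ ^ 2) → ∀ T : Ec n ≃ₗ[ℝ] Ec n,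
      HyperplaneBound (C / Real.sqrt (q * a * v)) (T '' (K ∩ {x | V x < t}))) := by
  obtain ⟨C₁, hC₁, H₁⟩ := level
  obtain ⟨C₂, hC₂, H₂⟩ := level_iso
  refine ⟨max C₁ C₂, lt_max_of_lt_left hC₁, fun q σ a v t hq hσ0 hσ ha hv n K V hn ho hc hb hs hV
    hne h => ?_⟩
  have hVc := hV.cont
  have hVx := hV.cvx0 ha.le
  have h0 : (0 : Ec n) ∈ K := zero_mem hc (hne.mono inter_subset_left) hs
  have ht : V 0 < t := by
    obtain ⟨x, hx⟩ := hne
    exact (hV.min ha.le x).trans_lt hx.2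
  obtain ⟨τ, hτ⟩ : ∃ τ, τ = t - V 0 := ⟨_, rfl⟩
  have hτ0 : 0 < τ := by rw [hτ]; linarith
  obtain ⟨Φ, hΦ⟩ : ∃ Φ : Ec n → ℝ, Φ = fun x => (V x - V 0) / τ := ⟨_, rfl⟩
  have hΦx : ∀ x, Φ x = (V x - V 0) / τ := fun x => by rw [hΦ]
  have hlev : ∀ c : ℝ, {x | Φ x ≤ c} = {x | V x ≤ V 0 + c * τ} := by
    intro c
    ext x
    change Φ x ≤ c ↔ V x ≤ V 0 + c * τ
    rw [hΦx, div_le_iff₀ hτ0]
    constructor <;> intro h5 <;> linarith
  have hgp : GP Φ := {
    cont := by rw [hΦ]; fun_prop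
    nonneg := fun x => by
      rw [hΦx]
      exact div_nonneg (by have := hV.min ha.le x; linarith) hτ0.le
    zero := by rw [hΦx, sub_self, zero_div]
    even := fun x => by rw [hΦx, hΦx, hV.even] }
  have hmid : Mid (a / τ) Φ := by
    intro x y
    rw [hΦx, hΦx, hΦx]
    have h1 := hV.mid x y
    have e1 : ((V x - V 0) / τ + (V y - V 0) / τ) / 2 - a / τ * ‖x - y‖ ^ 2 / 4 =
        ((V x + V y) / 2 - a * ‖x - y‖ ^ 2 / 4 - V 0) / τ := by
      field_simp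
      ring
    rw [e1]
    exact div_le_div_of_nonneg_right (by linarith) hτ0.le
  have hcx : ConvexOn ℝ univ Φ := by
    have h1 := (hVx.add (convexOn_const (-V 0) convex_univ)).smul (inv_nonneg.2 hτ0.le)
    refine h1.congr fun x _ => ?_
    rw [hΦx]
    simp only [Pi.add_apply, smul_eq_mul]
    ring
  have e0 : V 0 + 1 * τ = t := by rw [hτ]; ring
  have eom : om Φ (closure K) = closure K ∩ {x | V x ≤ t} := by
    unfold om
    rw [hlev, e0]
  have evv : vv Φ (closure K) = volume.real (K ∩ {x | V x < t}) := by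
    unfold vv
    rw [eom, vol_cut ho hc h0 hVx hVc ht]
  have hσ' : 2 * (q * τ) * (σ / τ) ≤ 1 := by
    have : 2 * (q * τ) * (σ / τ) = 2 * q * σ := by field_simp
    rw [this]
    exact hσ
  have hh : volume.real (closure K ∩ {x | Φ x ≤ 1 - σ / τ}) ≤
      Real.exp (-(q * τ * (σ / τ))) * vv Φ (closure K) := by
    rw [evv, hlev, vol_cut' hc]
    have e1 : V 0 + (1 - σ / τ) * τ = t - σ := by
      rw [sub_mul, div_mul_cancel₀ _ hτ0.ne', hτ]
      ring
    have e2 : q * τ * (σ / τ) = q * σ := by field_simp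
    rw [e1, e2]
    exact h
  have hint : ∀ θ : Ec n, ∫ x in om Φ (closure K), ⟪x, θ⟫_ℝ ^ 2 =
      ∫ x in K ∩ {x | V x < t}, ⟪x, θ⟫_ℝ ^ 2 := by
    intro θ
    rw [eom, ← cl_cut ho hc h0 hVx hVc ht]
    exact setIntegral_congr_set (cl_ae (cv_cut hc hVx t))
  have hclc := hb.isCompact_closure
  have h0' : (0 : Ec n) ∈ interior (closure K) := by
    rw [int_cl ho hc ⟨0, h0⟩]
    exact h0
  have eq1 : q * τ * (a / τ) * v = q * a * v := by field_simp
  have hqav : 0 < q * a * v := by positivity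
  constructor
  · rintro ⟨θ, hθ1, hθ2⟩
    have h1 := H₁ (q * τ) (σ / τ) (a / τ) v (by positivity) (by positivity) hσ' (by positivity) hv
      n (closure K) Φ hn hgp hmid hcx hclc hc.closure h0' (cl_symm hs) hh ⟨θ, hθ1, by
        rw [EW_om hgp hclc, le_div_iff₀ (vv_pos hgp hclc h0'), evv, hint]
        exact hθ2⟩
    rw [eq1, eom, int_cut ho hc h0 hVx hVc ht] at h1
    exact hb_mono (div_le_div_of_nonneg_right (le_max_left _ _) (Real.sqrt_nonneg _)) h1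
  · intro hθ T
    have h1 := H₂ (q * τ) (σ / τ) (a / τ) v (by positivity) (by positivity) hσ' (by positivity) hv
      n (closure K) Φ hn hgp hmid hcx hclc hc.closure h0' (cl_symm hs) hh (fun θ hθ1 => by
        rw [evv, hint]
        exact hθ θ hθ1) T
    have e3 : interior (T '' om Φ (closure K)) = T '' (K ∩ {x | V x < t}) := by
      rw [eom, ← int_cut ho hc h0 hVx hVc ht]
      exact (T.toContinuousLinearEquiv.toHomeomorph.image_interior _).symm
    rw [eq1, e3] at h1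
    exact hb_mono (div_le_div_of_nonneg_right (le_max_right _ _) (Real.sqrt_nonneg _)) h1

end Pool.Agent.V7H69.IK
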