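import Pool.Agent.V7H69.IK.Trb

/-!
# From compact bodies to open ones
-/

set_option autoImplicit false

namespace Pool.Agent.V7H69.IK

open MeasureTheory Set Filter Topology
open scoped ENNReal InnerProductSpace Pointwise
open Pool.Agent.Y506.RG (EW VW)
open Pool.Agent.Y506.PV (ind CcW)
open Pool.Agent.Results.MP_dc1397_gt.GibbsLevelSets (HyperplaneBound)

variable {n : ℕ}

theorem zero_mem {K : Set (Ec n)} (hc : Convex ℝ K) (hne : K.Nonempty)
    (hs : ∀ x ∈ K, -x ∈ K) : (0 : Ec n) ∈ K := by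
  obtain ⟨x, hx⟩ := hne
  have h := hc hx (hs x hx) (by norm_num : (0 : ℝ) ≤ 1 / 2)
    (by norm_num : (0 : ℝ) ≤ 1 / 2) (by norm_num)
  rwa [smul_neg, add_neg_cancel] at h

theorem int_cl {K : Set (Ec n)} (ho : IsOpen K) (hc : Convex ℝ K) (hne : K.Nonempty) :
    interior (closure K) = K := by
  rw [hc.interior_closure_eq_interior_of_nonempty_interior (by rwa [ho.interior_eq]),
    ho.interior_eq]

theorem cl_symm {K : Set (Ec n)} (hs : ∀ x ∈ K, -x ∈ K) : ∀ x ∈ closure K, -x ∈ closure K := by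
  intro x hx
  exact map_mem_closure continuous_neg hx fun y hy => hs y hy

/-- closures of sublevel sets -/
theorem cl_cut {K : Set (Ec n)} (ho : IsOpen K) (hc : Convex ℝ K) (h0 : (0 : Ec n) ∈ K)
    {V : Ec n → ℝ} (hV : ConvexOn ℝ univ V) (hVc : Continuous V) {t : ℝ} (ht : V 0 < t) :
    closure (K ∩ {x | V x < t}) = closure K ∩ {x | V x ≤ t} := by
  apply Subset.antisymm
  · refine closure_minimal (fun x hx => ⟨subset_closure hx.1, (show V x < t from hx.2).le⟩) ?_
    exact isClosed_closure.inter (isClosed_le hVc continuous_const)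
  · intro x hx
    have hx2 : V x ≤ t := hx.2
    have h1 : ∀ s : ℝ, 0 < s → s ≤ 1 → (1 - s) • x ∈ K ∩ {x | V x < t} := by
      intro s hs hs1
      constructor
      · have h2 : (0 : Ec n) ∈ interior (closure K) := by
          rw [int_cl ho hc ⟨0, h0⟩]
          exact h0
        have h3 := hc.closure.combo_interior_closure_mem_interior h2
          (show x ∈ closure (closure K) from subset_closure hx.1) hs
          (by linarith : 0 ≤ 1 - s) (by ring)
        rw [smul_zero, zero_add, int_cl ho hc ⟨0, h0⟩] at h3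
        exact h3
      · have h2 := hV.2 (mem_univ (0 : Ec n)) (mem_univ x) hs.le (by linarith : 0 ≤ 1 - s)
          (by ring)
        rw [smul_zero, zero_add] at h2
        simp only [smul_eq_mul] at h2
        change V ((1 - s) • x) < t
        nlinarith
    have h2 : Tendsto (fun k : ℕ => (1 - 1 / ((k : ℝ) + 1)) • x) atTop (𝓝 ((1 - 0 : ℝ) • x)) :=
      (tendsto_const_nhds.sub tendsto_one_div_add_atTop_nhds_zero_nat).smul_const x
    rw [sub_zero, one_smul] at h2
    refine mem_closure_of_tendsto h2 (Eventually.of_forall fun k => h1 _ (by positivity) ?_)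
    rw [div_le_one (by positivity)]
    have : (0 : ℝ) ≤ k := Nat.cast_nonneg k
    linarith

theorem op_cut {K : Set (Ec n)} (ho : IsOpen K) {V : Ec n → ℝ} (hVc : Continuous V) (t : ℝ) :
    IsOpen (K ∩ {x | V x < t}) := ho.inter (isOpen_lt hVc continuous_const)

theorem cv_cut {K : Set (Ec n)} (hc : Convex ℝ K) {V : Ec n → ℝ} (hV : ConvexOn ℝ univ V) (t : ℝ) :
    Convex ℝ (K ∩ {x | V x < t}) := by
  refine hc.inter ?_
  have := hV.convex_lt t
  have e : {y | V y < t} = {x ∈ univ | V x < t} := by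
    ext x
    exact ⟨fun hx => ⟨mem_univ x, hx⟩, fun hx => hx.2⟩
  rw [e]
  exact this

theorem int_cut {K : Set (Ec n)} (ho : IsOpen K) (hc : Convex ℝ K) (h0 : (0 : Ec n) ∈ K)
    {V : Ec n → ℝ} (hV : ConvexOn ℝ univ V) (hVc : Continuous V) {t : ℝ} (ht : V 0 < t) :
    interior (closure K ∩ {x | V x ≤ t}) = K ∩ {x | V x < t} := by
  rw [← cl_cut ho hc h0 hV hVc ht]
  exact int_cl (op_cut ho hVc t) (cv_cut hc hV t) ⟨0, h0, ht⟩

/-- convex sets and their closures have the same volume -/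
theorem cl_ae {K : Set (Ec n)} (hc : Convex ℝ K) : (closure K : Set (Ec n)) =ᵐ[volume] K := by
  have h1 : volume (frontier K) = 0 := hc.addHaar_frontier volume
  exact closure_ae_eq_of_null_frontier h1

theorem vol_cut {K : Set (Ec n)} (ho : IsOpen K) (hc : Convex ℝ K) (h0 : (0 : Ec n) ∈ K)
    {V : Ec n → ℝ} (hV : ConvexOn ℝ univ V) (hVc : Continuous V) {t : ℝ} (ht : V 0 < t) :
    volume.real (closure K ∩ {x | V x ≤ t}) = volume.real (K ∩ {x | V x < t}) := by
  rw [← cl_cut ho hc h0 hV hVc ht]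
  exact measureReal_congr (cl_ae (cv_cut hc hV t))

theorem vol_cut' {K : Set (Ec n)} (hc : Convex ℝ K) (S : Set (Ec n)) :
    volume.real (closure K ∩ S) = volume.real (K ∩ S) :=
  measureReal_congr ((cl_ae hc).inter (ae_eq_refl S))

theorem vol_cl {K : Set (Ec n)} (hc : Convex ℝ K) :
    volume.real (closure K) = volume.real K := measureReal_congr (cl_ae hc)

/-! ### truncations -/

theorem ball_cut {K : Set (Ec n)} (R : ℝ) : K ∩ {x : Ec n | ‖x‖ < R} = K ∩ Metric.ball 0 R := by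
  congr 1
  ext x
  simp

/-- **Truncations** -/
theorem trunc_open : ∃ C : ℝ, 0 < C ∧ ∀ (ℓ m R : ℝ), 1 ≤ ℓ → 2 ≤ m → 0 < R →
    ∀ (n : ℕ) (K : Set (Ec n)), m ≤ n → IsOpen K → Convex ℝ K → Bornology.IsBounded K →
    K.Nonempty → (∀ x ∈ K, -x ∈ K) →
    ∫ x in K, ‖x‖ ^ 2 ≤ ℓ ^ 2 * n * volume.real K ^ (1 + 2 / (n : ℝ)) →
    volume.real (K ∩ Metric.ball 0 R) ≤ Real.exp (-m) * volume.real K →
    HyperplaneBound (C * ℓ * Real.sqrt (n / m)) (K ∩ Metric.ball 0 R) := by
  obtain ⟨C, hC, H⟩ := trunc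
  refine ⟨C, hC, fun ℓ m R hℓ hm hR n K hmn ho hc hb hne hs hS h => ?_⟩
  have h0 := zero_mem hc hne hs
  have hcx : ConvexOn ℝ univ fun x : Ec n => ‖x‖ := convexOn_univ_norm
  have hR0 : ‖(0 : Ec n)‖ < R := by rwa [norm_zero]
  have h1 := H ℓ m R hℓ hm hR n (closure K) hmn hb.isCompact_closure hc.closure
    (by rw [int_cl ho hc hne]; exact h0) (cl_symm hs)
    (by rw [vol_cl hc, setIntegral_congr_set (cl_ae hc)]; exact hS)
    (by
      unfold vb
      rw [vol_cut ho hc h0 hcx continuous_norm hR0, vol_cl hc, ball_cut]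
      exact h)
  rw [int_cut ho hc h0 hcx continuous_norm hR0, ball_cut] at h1
  exact h1

end Pool.Agent.V7H69.IK
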