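import Pool.Agent.V7H69.IK.Gf

/-!
# Radii which are nearly maximal: consequences
-/

set_option autoImplicit false

namespace Pool.Agent.V7H69.IK

open MeasureTheory Set Filter Topology
open scoped ENNReal InnerProductSpace Pointwise

variable {n : ℕ}

/-- nonnegative, continuous, even, vanishing at the origin -/
structure GP (Φ : Ec n → ℝ) : Prop where
  cont : Continuous Φ
  nonneg : ∀ x, 0 ≤ Φ x
  zero : Φ 0 = 0
  even : ∀ x, Φ (-x) = Φ x

/-- homogeneous of degree 2 -/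
structure GH (Φ : Ec n → ℝ) : Prop extends GP Φ where
  hom : ∀ (c : ℝ) (x : Ec n), Φ (c • x) = c ^ 2 * Φ x

theorem gh_of {Φ : Ec n → ℝ} (h1 : Continuous Φ) (h2 : ∀ x, 0 ≤ Φ x)
    (h3 : ∀ (c : ℝ) (x : Ec n), Φ (c • x) = c ^ 2 * Φ x) : GH Φ where
  cont := h1
  nonneg := h2
  zero := by
    have := h3 0 0
    simpa using this
  even x := by
    have := h3 (-1) x
    rw [neg_one_smul] at this
    rw [this]
    ring
  hom := h3

/-- the cut body -/
def om (Φ : Ec n → ℝ) (L : Set (Ec n)) : Set (Ec n) := L ∩ {y | Φ y ≤ 1}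

theorem om_comp {Φ : Ec n → ℝ} (h : GP Φ) {L : Set (Ec n)} (hL : IsCompact L) :
    IsCompact (om Φ L) :=
  hL.inter_right (isClosed_le h.cont continuous_const)

theorem cint {Ω : Set (Ec n)} (hΩ : IsCompact Ω) {f : Ec n → ℝ} (hf : Continuous f) :
    IntegrableOn f Ω := hf.continuousOn.integrableOn_compact hΩ

/-- the integral of `1 - Φ` -/
noncomputable def jj (Φ : Ec n → ℝ) (L : Set (Ec n)) : ℝ := ∫ y in om Φ L, (1 - Φ y)

/-- the volume of the cut body -/
noncomputable def vv (Φ : Ec n → ℝ) (L : Set (Ec n)) : ℝ := volume.real (om Φ L)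

theorem jj_eq {Φ : Ec n → ℝ} (hΦ : GP Φ) {L : Set (Ec n)} (hL : IsCompact L) :
    ∫ y in L, max (1 - Φ y) 0 = jj Φ L := by
  unfold jj
  rw [setIntegral_eq_of_subset_of_forall_sdiff_eq_zero hL.measurableSet
      (inter_subset_left : om Φ L ⊆ L) (fun x hx => ?_)]
  · refine setIntegral_congr_fun (om_comp hΦ hL).measurableSet fun x hx => ?_
    have h1 : Φ x ≤ 1 := hx.2
    exact max_eq_left (by linarith)
  · have h2 : ¬ Φ x ≤ 1 := fun h => hx.2 ⟨hx.1, h⟩
    push Not at h2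
    exact max_eq_right (by linarith)

theorem jj_nonneg {Φ : Ec n → ℝ} (hΦ : GP Φ) {L : Set (Ec n)} (hL : IsCompact L) :
    0 ≤ jj Φ L := by
  unfold jj
  refine setIntegral_nonneg (om_comp hΦ hL).measurableSet fun x hx => ?_
  have h1 : Φ x ≤ 1 := hx.2
  linarith

/-- near-maximality among the multiples of `{Φ ≤ 1}` -/
def PosS (α ε : ℝ) (Φ : Ec n → ℝ) (L : Set (Ec n)) : Prop := ∀ t : ℝ,
  Real.exp (α * n * t) * ∫ y in L, max (1 - Real.exp (2 * t) * Φ y) 0 ≤ (1 + ε) * jj Φ L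

/-! ### tails -/

theorem tail {α ε : ℝ} (ha : 0 < α) {Φ : Ec n → ℝ} (hΦ : GP Φ) {L : Set (Ec n)}
    (hL : IsCompact L) (hε : 0 ≤ ε)
    (h : PosS α ε Φ L) (τ : ℝ) (h0 : 0 ≤ τ) :
    ∫ y in om Φ L, max (1 - Φ y - τ) 0 ≤ (1 + ε) * (Real.exp (-(α * n * τ / 2)) * jj Φ L) := by
  have hcΦ := hΦ.cont
  have hJ := jj_nonneg hΦ hL
  by_cases h1 : 1 ≤ τ
  · have h2 : ∫ y in om Φ L, max (1 - Φ y - τ) 0 = 0 := by
      rw [setIntegral_congr_fun (om_comp hΦ hL).measurableSet (g := fun _ => (0 : ℝ)) fun y _ => ?_]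
      · simp
      · exact max_eq_right (by have := hΦ.nonneg y; linarith)
    rw [h2]
    positivity
  · push Not at h1
    have hp : 0 < 1 - τ := by linarith
    obtain ⟨t, ht⟩ : ∃ t, t = -(Real.log (1 - τ)) / 2 := ⟨_, rfl⟩
    have ht1 : τ / 2 ≤ t := by
      have := Real.log_le_sub_one_of_pos hp
      rw [ht]
      linarith
    have ht2 : Real.exp (2 * t) = (1 - τ)⁻¹ := by
      rw [ht, mul_div_cancel₀ _ (two_ne_zero), Real.exp_neg, Real.exp_log hp]
    have h2 := h t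
    rw [ht2] at h2
    have hc : Continuous fun y : Ec n => max (1 - (1 - τ)⁻¹ * Φ y) 0 := by fun_prop
    have hc' : Continuous fun y : Ec n => max (1 - Φ y - τ) 0 := by fun_prop
    have h3 : ∫ y in om Φ L, max (1 - Φ y - τ) 0 ≤
        ∫ y in L, max (1 - (1 - τ)⁻¹ * Φ y) 0 := by
      have h4 : ∫ y in om Φ L, max (1 - Φ y - τ) 0 ≤
          ∫ y in om Φ L, max (1 - (1 - τ)⁻¹ * Φ y) 0 := by
        refine setIntegral_mono (cint (om_comp hΦ hL) hc') (cint (om_comp hΦ hL) hc) fun y => ?_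
        refine max_le ?_ (le_max_right _ _)
        by_cases hy : 1 - Φ y - τ ≤ 0
        · exact hy.trans (le_max_right _ _)
        · push Not at hy
          refine le_trans ?_ (le_max_left _ _)
          have e1 : 1 - (1 - τ)⁻¹ * Φ y = (1 - τ)⁻¹ * (1 - Φ y - τ) := by
            field_simp
            ring
          rw [e1]
          have h5 : 1 ≤ (1 - τ)⁻¹ := by
            rw [one_le_inv₀ hp]
            linarith
          nlinarith
      exact h4.trans (setIntegral_mono_set (cint hL hc)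
        (Eventually.of_forall fun x => le_max_right _ _) (LE.le.eventuallyLE inter_subset_left))
    have h4 : Real.exp (α * n * τ / 2) ≤ Real.exp (α * n * t) := by
      refine Real.exp_le_exp.2 ?_
      have : 0 ≤ α * n := by positivity
      nlinarith
    have h5 : 0 ≤ ∫ y in om Φ L, max (1 - Φ y - τ) 0 :=
      setIntegral_nonneg (om_comp hΦ hL).measurableSet fun _ _ => le_max_right _ _
    have h6 : Real.exp (α * n * τ / 2) * ∫ y in om Φ L, max (1 - Φ y - τ) 0 ≤
        (1 + ε) * jj Φ L :=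
      (mul_le_mul h4 h3 h5 (Real.exp_pos _).le).trans h2
    rw [Real.exp_neg]
    have h7 := Real.exp_pos (α * n * τ / 2)
    rw [show (1 + ε) * ((Real.exp (α * n * τ / 2))⁻¹ * jj Φ L) =
      (Real.exp (α * n * τ / 2))⁻¹ * ((1 + ε) * jj Φ L) by ring]
    rw [le_inv_mul_iff₀ h7]
    exact h6

theorem up_key {α ε : ℝ} {Φ : Ec n → ℝ} (hΦ : GP Φ) {L : Set (Ec n)} (hL : IsCompact L)
    (h : PosS α ε Φ L) (t : ℝ) :
    Real.exp (α * n * t) * (Real.exp (2 * t) * jj Φ L - (Real.exp (2 * t) - 1) * vv Φ L) ≤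
      (1 + ε) * jj Φ L := by
  have hcΦ := hΦ.cont
  have hΩ := om_comp hΦ hL
  have h1 := h t
  have hc : Continuous fun y : Ec n => max (1 - Real.exp (2 * t) * Φ y) 0 := by fun_prop
  have h2 : ∫ y in om Φ L, (1 - Real.exp (2 * t) * Φ y) ≤
      ∫ y in L, max (1 - Real.exp (2 * t) * Φ y) 0 := by
    have h3 : ∫ y in om Φ L, (1 - Real.exp (2 * t) * Φ y) ≤
        ∫ y in om Φ L, max (1 - Real.exp (2 * t) * Φ y) 0 :=
      setIntegral_mono (cint hΩ (by fun_prop)) (cint hΩ hc) fun x => le_max_left _ _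
    exact h3.trans (setIntegral_mono_set (cint hL hc)
      (Eventually.of_forall fun x => le_max_right _ _) (LE.le.eventuallyLE inter_subset_left))
  have e1 : ∫ y in om Φ L, (1 - Real.exp (2 * t) * Φ y) =
      Real.exp (2 * t) * jj Φ L - (Real.exp (2 * t) - 1) * vv Φ L := by
    have e2 : (Real.exp (2 * t) - 1) * vv Φ L = ∫ y in om Φ L, (Real.exp (2 * t) - 1) := by
      rw [setIntegral_const, smul_eq_mul, mul_comm]
      rfl
    unfold jj
    rw [e2, ← integral_const_mul,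
      ← integral_sub (cint hΩ (by fun_prop)) (cint hΩ continuous_const)]
    refine setIntegral_congr_fun hΩ.measurableSet fun y _ => ?_
    ring
  rw [e1] at h2
  exact (mul_le_mul_of_nonneg_left h2 (Real.exp_pos _).le).trans h1

theorem jj_up {α : ℝ} (ha : 0 < α) (hb : α < 1) {Φ : Ec n → ℝ} (hΦ : GP Φ) {L : Set (Ec n)}
    (hL : IsCompact L) (h : PosS α (α / 8) Φ L) : (2 + α * n) * jj Φ L ≤ 4 * vv Φ L := by
  have hcΦ := hΦ.cont
  have hJ := jj_nonneg hΦ hL
  have hV : 0 ≤ vv Φ L := measureReal_nonneg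
  obtain ⟨p, hp⟩ : ∃ p, p = α * n := ⟨_, rfl⟩
  have hp0 : 0 ≤ p := by rw [hp]; positivity
  obtain ⟨t, ht⟩ : ∃ t, t = (2 + p)⁻¹ := ⟨_, rfl⟩
  have ht0 : 0 < t := by rw [ht]; positivity
  have htp : (2 + p) * t = 1 := by rw [ht]; exact mul_inv_cancel₀ (by positivity)
  have h3 := up_key hΦ hL h t
  rw [← hp] at h3 ⊢
  have e3 : Real.exp (p * t) * Real.exp (2 * t) = Real.exp 1 := by
    rw [← Real.exp_add, ← htp]
    congr 1
    ring
  have h4 : Real.exp 1 * (1 - 2 * t) ≤ Real.exp (p * t) := by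
    have h5 := Real.add_one_le_exp (-(2 * t))
    have e4 : Real.exp (p * t) = Real.exp 1 * Real.exp (-(2 * t)) := by
      rw [← Real.exp_add, ← htp]
      congr 1
      ring
    rw [e4]
    have := Real.exp_pos 1
    nlinarith
  have h5 := Real.exp_one_gt_d9
  have h6 := Real.exp_one_lt_d9
  -- e J - (e - exp (p t)) V ≤ (1 + α / 8) J
  have h7 : Real.exp 1 * jj Φ L - (Real.exp 1 - Real.exp (p * t)) * vv Φ L ≤ (1 + α / 8) * jj Φ L := by
    have e5 : Real.exp (p * t) * (Real.exp (2 * t) * jj Φ L - (Real.exp (2 * t) - 1) * vv Φ L) =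
        Real.exp 1 * jj Φ L - (Real.exp 1 - Real.exp (p * t)) * vv Φ L := by
      rw [← e3]
      ring
    rw [← e5]
    exact h3
  have h8 : (Real.exp 1 - Real.exp (p * t)) * vv Φ L ≤ (Real.exp 1 * (2 * t)) * vv Φ L :=
    mul_le_mul_of_nonneg_right (by linarith) hV
  have h9 : (Real.exp 1 - 1 - α / 8) * jj Φ L ≤ Real.exp 1 * (2 * t) * vv Φ L := by nlinarith
  have h10 : (3 / 2 : ℝ) * jj Φ L ≤ 6 * t * vv Φ L := by
    have h11 : (3 / 2 : ℝ) * jj Φ L ≤ (Real.exp 1 - 1 - α / 8) * jj Φ L :=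
      mul_le_mul_of_nonneg_right (by linarith) hJ
    have h12 : Real.exp 1 * (2 * t) * vv Φ L ≤ 6 * t * vv Φ L := by
      refine mul_le_mul_of_nonneg_right ?_ hV
      nlinarith
    linarith
  have h11 : jj Φ L ≤ 4 * t * vv Φ L := by linarith
  calc (2 + p) * jj Φ L ≤ (2 + p) * (4 * t * vv Φ L) := mul_le_mul_of_nonneg_left h11 (by positivity)
    _ = 4 * ((2 + p) * t) * vv Φ L := by ring
    _ = 4 * vv Φ L := by rw [htp, mul_one]

theorem jj_gap {α : ℝ} (ha : 0 < α) (hb : α < 1) {Φ : Ec n → ℝ} (hΦ : GP Φ) {L : Set (Ec n)}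
    (hL : IsCompact L) (hn : 1 ≤ n) (h : PosS α (α / 8) Φ L) :
    α * n / (3 * (2 + α * n)) * vv Φ L ≤ vv Φ L - jj Φ L := by
  have hcΦ := hΦ.cont
  have hJ := jj_nonneg hΦ hL
  have hV : 0 ≤ vv Φ L := measureReal_nonneg
  have hn1 : (1 : ℝ) ≤ n := by exact_mod_cast hn
  obtain ⟨p, hp⟩ : ∃ p, p = α * n := ⟨_, rfl⟩
  have hpa : α ≤ p := by rw [hp]; nlinarith
  have hp0 : 0 < p := by linarith
  obtain ⟨t, ht⟩ : ∃ t, t = (2 + p)⁻¹ := ⟨_, rfl⟩
  have ht0 : 0 < t := by rw [ht]; positivity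
  have htp : (2 + p) * t = 1 := by rw [ht]; exact mul_inv_cancel₀ (by positivity)
  have h3 := up_key hΦ hL h t
  rw [← hp] at h3 ⊢
  have e3 : Real.exp (p * t) * Real.exp (2 * t) = Real.exp 1 := by
    rw [← Real.exp_add, ← htp]
    congr 1
    ring
  have h4 := Real.add_one_le_exp (p * t)
  have h6 := Real.exp_one_lt_d9
  have h7 : Real.exp 1 * jj Φ L - (Real.exp 1 - Real.exp (p * t)) * vv Φ L ≤
      (1 + α / 8) * jj Φ L := by
    have e5 : Real.exp (p * t) * (Real.exp (2 * t) * jj Φ L - (Real.exp (2 * t) - 1) * vv Φ L) =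
        Real.exp 1 * jj Φ L - (Real.exp 1 - Real.exp (p * t)) * vv Φ L := by
      rw [← e3]
      ring
    rw [← e5]
    exact h3
  have h8 : α / 8 ≤ 3 / 8 * (p * t) := by
    have h9 : α ≤ 3 * (p * t) := by
      have e6 : 3 * (p * t) = 3 * p / (2 + p) := by
        rw [ht]
        ring
      rw [e6, le_div_iff₀ (by positivity)]
      nlinarith
    linarith
  have h10 : (5 / 8) * (p * t) * vv Φ L ≤
      (Real.exp 1 - 1 - α / 8) * (vv Φ L - jj Φ L) := by
    have h11 : (5 / 8) * (p * t) * vv Φ L ≤ (Real.exp (p * t) - 1 - α / 8) * vv Φ L :=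
      mul_le_mul_of_nonneg_right (by linarith) hV
    nlinarith
  have h12 : (0 : ℝ) ≤ (5 / 8) * (p * t) * vv Φ L := by positivity
  have h13 := Real.exp_one_gt_d9
  have h14 : 0 ≤ vv Φ L - jj Φ L := by
    by_contra hcon
    push Not at hcon
    have : (Real.exp 1 - 1 - α / 8) * (vv Φ L - jj Φ L) < 0 :=
      mul_neg_of_pos_of_neg (by linarith) hcon
    linarith
  have h15 : (Real.exp 1 - 1 - α / 8) * (vv Φ L - jj Φ L) ≤ 15 / 8 * (vv Φ L - jj Φ L) :=
    mul_le_mul_of_nonneg_right (by linarith) h14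
  have e7 : p / (3 * (2 + p)) = 1 / 3 * (p * t) := by
    rw [ht]
    field_simp
  rw [e7]
  linarith

/-- enlarging the radius -/
theorem jj_low2 {α : ℝ} (ha : 0 < α) (hb : α < 1) {Φ : Ec n → ℝ} (hΦ : GP Φ) {L : Set (Ec n)}
    (hL : IsCompact L) (h : PosS α (α / 8) Φ L) : vv Φ L ≤ 4 * (2 + α * n) * jj Φ L := by
  have hJ := jj_nonneg hΦ hL
  have hV : 0 ≤ vv Φ L := measureReal_nonneg
  obtain ⟨p, hp⟩ : ∃ p, p = α * n := ⟨_, rfl⟩
  have hp0 : 0 ≤ p := by rw [hp]; positivity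
  obtain ⟨s, hs⟩ : ∃ s, s = (2 + p)⁻¹ := ⟨_, rfl⟩
  have hs0 : 0 < s := by rw [hs]; positivity
  have hsp : (2 + p) * s = 1 := by rw [hs]; exact mul_inv_cancel₀ (by positivity)
  have hs1 : s ≤ 1 / 2 := by
    rw [hs, one_div]
    exact inv_anti₀ two_pos (by linarith)
  have h3 := up_key hΦ hL h (-s)
  rw [← hp] at h3 ⊢
  have he1 : Real.exp (p * s) ≤ Real.exp 1 := Real.exp_le_exp.2 (by nlinarith)
  have he2 := Real.exp_one_lt_d9
  have e1 : Real.exp (p * s) * Real.exp (p * -s) = 1 := by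
    rw [← Real.exp_add, mul_neg, add_neg_cancel, Real.exp_zero]
  have h4 := mul_le_mul_of_nonneg_left h3 (Real.exp_pos (p * s)).le
  rw [← mul_assoc, e1, one_mul] at h4
  have h5 : Real.exp (2 * -s) ≤ 1 - s := by
    have h6 := Real.add_one_le_exp (2 * s)
    rw [mul_neg, Real.exp_neg]
    have h7 : (Real.exp (2 * s))⁻¹ ≤ (2 * s + 1)⁻¹ := inv_anti₀ (by positivity) h6
    refine h7.trans ?_
    rw [inv_le_iff_one_le_mul₀ (by positivity)]
    nlinarith
  have h6 : s * vv Φ L ≤ (1 - Real.exp (2 * -s)) * vv Φ L :=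
    mul_le_mul_of_nonneg_right (by linarith) hV
  have h7 : Real.exp (p * s) * ((1 + α / 8) * jj Φ L) ≤ 4 * jj Φ L := by
    rw [← mul_assoc]
    refine mul_le_mul_of_nonneg_right ?_ hJ
    have := Real.exp_pos (p * s)
    nlinarith
  have h8 : 0 ≤ Real.exp (2 * -s) * jj Φ L := by positivity
  have h9 : s * vv Φ L ≤ 4 * jj Φ L := by linarith
  calc vv Φ L = (2 + p) * s * vv Φ L := by rw [hsp, one_mul]
    _ = (2 + p) * (s * vv Φ L) := by ring
    _ ≤ (2 + p) * (4 * jj Φ L) := mul_le_mul_of_nonneg_left h9 (by positivity)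
    _ = _ := by ring

theorem exp_le_sum (N : ℕ) (x : ℝ) (h0 : 0 ≤ x) (h1 : x ≤ N) :
    Real.exp x ≤ 1 + 8 * ∑ j ∈ Finset.range N, Real.exp j * max (x - j) 0 := by
  have hnn : ∀ j ∈ Finset.range N, 0 ≤ Real.exp j * max (x - j) 0 := fun j _ =>
    mul_nonneg (Real.exp_pos _).le (le_max_right _ _)
  have he := Real.exp_one_lt_d9
  rcases h0.eq_or_lt with h | h
  · rw [← h, Real.exp_zero]
    have := Finset.sum_nonneg hnn
    rw [← h] at this
    linarith
  · by_cases hx : x < 1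
    · have hN : 0 < N := by
        rcases Nat.eq_zero_or_pos N with h2 | h2
        · rw [h2] at h1
          simp at h1
          linarith
        · exact h2
      have h2 := Finset.single_le_sum hnn (Finset.mem_range.2 hN)
      simp only [Nat.cast_zero, Real.exp_zero, one_mul, sub_zero] at h2
      have h3 : x ≤ max x 0 := le_max_left _ _
      have h4 := Real.add_one_le_exp (-x)
      have h5 : Real.exp x ≤ Real.exp 1 := Real.exp_le_exp.2 hx.le
      have h6 : Real.exp x * Real.exp (-x) = 1 := by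
        rw [← Real.exp_add, add_neg_cancel, Real.exp_zero]
      have h7 := Real.exp_pos x
      nlinarith
    · push Not at hx
      obtain ⟨m, hm⟩ : ∃ m, m = ⌊x⌋₊ := ⟨_, rfl⟩
      have hm1 : 1 ≤ m := by
        rw [hm]
        exact Nat.le_floor (by exact_mod_cast hx)
      have hm2 : (m : ℝ) ≤ x := by rw [hm]; exact Nat.floor_le h0
      have hm3 : x < m + 1 := by rw [hm]; exact Nat.lt_floor_add_one x
      have hm4 : m ≤ N := by exact_mod_cast hm2.trans h1
      obtain ⟨k, hk⟩ : ∃ k, m = k + 1 := ⟨m - 1, by omega⟩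
      have h2 := Finset.single_le_sum hnn (Finset.mem_range.2 (by omega : k < N))
      have h3 : (1 : ℝ) ≤ max (x - k) 0 := by
        refine le_trans ?_ (le_max_left _ _)
        rw [hk] at hm2
        push_cast at hm2
        linarith
      have h4 : Real.exp k ≤ Real.exp k * max (x - k) 0 :=
        le_mul_of_one_le_right (Real.exp_pos _).le h3
      have h5 : Real.exp x ≤ Real.exp k * Real.exp 1 * Real.exp 1 := by
        rw [← Real.exp_add, ← Real.exp_add]
        refine Real.exp_le_exp.2 ?_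
        rw [hk] at hm3
        push_cast at hm3
        linarith
      have h6 := Real.exp_pos (k : ℝ)
      have h7 : Real.exp 1 * Real.exp 1 ≤ 8 := by
        have := Real.exp_pos 1
        nlinarith
      have h8 : Real.exp k * Real.exp 1 * Real.exp 1 ≤ 8 * Real.exp k := by
        rw [mul_assoc]
        nlinarith
      linarith

theorem exp_int {α : ℝ} (ha : 0 < α) (hb : α < 1) {Φ : Ec n → ℝ} (hΦ : GP Φ) {L : Set (Ec n)}
    (hL : IsCompact L)
    (hn : 1 ≤ n) (h : PosS α (α / 8) Φ L) :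
    ∫ y in om Φ L, Real.exp (α * n / 4 * (1 - Φ y)) ≤ 33 * vv Φ L := by
  have hcΦ := hΦ.cont
  have hJ := jj_nonneg hΦ hL
  have hV : 0 ≤ vv Φ L := measureReal_nonneg
  have hΩ := om_comp hΦ hL
  have hn0 : (0 : ℝ) < n := by exact_mod_cast hn
  obtain ⟨b, hb'⟩ : ∃ b, b = α * n / 4 := ⟨_, rfl⟩
  have hb0 : 0 < b := by rw [hb']; positivity
  rw [← hb']
  have h1 : ∫ y in om Φ L, Real.exp (b * (1 - Φ y)) ≤
      ∫ y in om Φ L, (1 + 8 * ∑ j ∈ Finset.range ⌈b⌉₊,
        Real.exp j * max (b * (1 - Φ y) - j) 0) := by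
    refine setIntegral_mono_on (cint hΩ (by fun_prop)) (cint hΩ (by fun_prop))
      hΩ.measurableSet fun y hy => ?_
    have h2 : Φ y ≤ 1 := hy.2
    have h3 : 0 ≤ 1 - Φ y := by linarith
    refine exp_le_sum _ _ (by positivity) ?_
    have h4 : b * (1 - Φ y) ≤ b := by
      have := hΦ.nonneg y
      nlinarith
    exact h4.trans (Nat.le_ceil b)
  have e1 : ∫ y in om Φ L, (1 + 8 * ∑ j ∈ Finset.range ⌈b⌉₊,
        Real.exp j * max (b * (1 - Φ y) - j) 0) =
      vv Φ L + 8 * ∑ j ∈ Finset.range ⌈b⌉₊,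
        Real.exp j * ∫ y in om Φ L, max (b * (1 - Φ y) - j) 0 := by
    rw [integral_add (cint hΩ continuous_const) (cint hΩ (by fun_prop)), integral_const_mul,
      integral_finsetSum _ (fun j _ => cint hΩ (by fun_prop)), setIntegral_const, smul_eq_mul,
      mul_one]
    congr 2
    refine Finset.sum_congr rfl fun j _ => ?_
    rw [integral_const_mul]
  have h2 : ∀ j : ℕ, ∫ y in om Φ L, max (b * (1 - Φ y) - j) 0 ≤
      2 * b * jj Φ L * Real.exp (-(2 * j)) := by
    intro j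
    have e2 : ∫ y in om Φ L, max (b * (1 - Φ y) - j) 0 =
        b * ∫ y in om Φ L, max (1 - Φ y - j / b) 0 := by
      rw [← integral_const_mul]
      refine setIntegral_congr_fun hΩ.measurableSet fun y _ => ?_
      change max (b * (1 - Φ y) - j) 0 = b * max (1 - Φ y - j / b) 0
      rw [mul_max_of_nonneg _ _ hb0.le, mul_zero]
      congr 1
      field_simp
    have h3 := tail ha hΦ hL (by positivity : (0 : ℝ) ≤ α / 8) h (j / b) (by positivity)
    have e3 : α * n * ((j : ℝ) / b) / 2 = 2 * j := by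
      rw [hb']
      field_simp
      ring
    rw [e3] at h3
    rw [e2]
    have h4 : (1 + α / 8) * (Real.exp (-(2 * (j : ℝ))) * jj Φ L) ≤
        2 * (Real.exp (-(2 * (j : ℝ))) * jj Φ L) :=
      mul_le_mul_of_nonneg_right (by linarith) (by positivity)
    calc b * ∫ y in om Φ L, max (1 - Φ y - j / b) 0 ≤
        b * (2 * (Real.exp (-(2 * (j : ℝ))) * jj Φ L)) :=
          mul_le_mul_of_nonneg_left (h3.trans h4) hb0.le
      _ = _ := by ring
  have h3 : ∑ j ∈ Finset.range ⌈b⌉₊,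
        Real.exp j * ∫ y in om Φ L, max (b * (1 - Φ y) - j) 0 ≤ 4 * b * jj Φ L := by
    have h4 : ∀ j ∈ Finset.range ⌈b⌉₊,
        Real.exp j * ∫ y in om Φ L, max (b * (1 - Φ y) - j) 0 ≤
        2 * b * jj Φ L * (1 / 2) ^ j := by
      intro j _
      have h5 := mul_le_mul_of_nonneg_left (h2 j) (Real.exp_pos (j : ℝ)).le
      refine h5.trans ?_
      have e4 : Real.exp j * (2 * b * jj Φ L * Real.exp (-(2 * j))) =
          2 * b * jj Φ L * Real.exp (-(j : ℝ)) := by
        rw [mul_left_comm, ← Real.exp_add]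
        congr 2
        ring
      rw [e4]
      refine mul_le_mul_of_nonneg_left ?_ (by positivity)
      have e5 : Real.exp (-(j : ℝ)) = Real.exp (-1) ^ j := by
        rw [← Real.exp_nat_mul]
        congr 1
        ring
      rw [e5]
      refine pow_le_pow_left₀ (Real.exp_pos _).le ?_ j
      have h6 := Real.exp_one_gt_d9
      rw [Real.exp_neg, one_div]
      exact inv_anti₀ two_pos (by linarith)
    refine (Finset.sum_le_sum h4).trans ?_
    rw [← Finset.mul_sum]
    have h5 := sum_geometric_two_le ⌈b⌉₊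
    have h6 : 2 * b * jj Φ L * ∑ i ∈ Finset.range ⌈b⌉₊, (1 / 2 : ℝ) ^ i ≤ 2 * b * jj Φ L * 2 :=
      mul_le_mul_of_nonneg_left h5 (by positivity)
    linarith
  have h4 := jj_up ha hb hΦ hL h
  have h5 : 4 * b * jj Φ L ≤ 4 * vv Φ L := by
    rw [hb']
    have e6 : 4 * (α * n / 4) * jj Φ L = α * n * jj Φ L := by ring
    rw [e6]
    linarith
  rw [e1] at h1
  linarith

end Pool.Agent.V7H69.IK
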