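import Pool.Agent.V7H69.IK.Phi

/-!
# Ellipsoids which are nearly maximal: consequences
-/

set_option autoImplicit false

namespace Pool.Agent.V7H69.IK

open MeasureTheory Set Filter Topology
open scoped ENNReal InnerProductSpace Pointwise

variable {n : ℕ}

/-- the square of the norm -/
noncomputable def nq (x : Ec n) : ℝ := ‖x‖ ^ 2

@[fun_prop]
theorem nq_cont : Continuous (nq (n := n)) := by
  unfold nq
  fun_prop

theorem gh_nq : GH (nq (n := n)) := gh_of nq_cont (fun x => sq_nonneg _) fun c x => by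
  unfold nq
  rw [norm_smul, mul_pow, Real.norm_eq_abs, sq_abs]

theorem gp_nq : GP (nq (n := n)) := gh_nq.toGP

theorem low {L : Set (Ec n)} (hL : IsCompact L) (B : Ec n →ₗ[ℝ] Ec n) :
    ∫ y in om nq L, (1 - ‖B y‖ ^ 2) ≤ ∫ y in L, ff B y := by
  have hB : Continuous B := B.continuous_of_finiteDimensional
  have h1 : ∫ y in om nq L, (1 - ‖B y‖ ^ 2) ≤ ∫ y in om nq L, ff B y :=
    setIntegral_mono (cint (om_comp gp_nq hL) (by fun_prop)) (ff_int (om_comp gp_nq hL) B)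
      fun x => le_max_left _ _
  exact h1.trans (setIntegral_mono_set (ff_int hL _) (Eventually.of_forall fun x => ff_nonneg _ x)
      (LE.le.eventuallyLE inter_subset_left))

theorem pos_le {α ε : ℝ} {L : Set (Ec n)} (hL : IsCompact L) (h : Pos α ε L)
    (B : Ec n →ₗ[ℝ] Ec n) (hB : LinearMap.det B ≠ 0) :
    |LinearMap.det B| ^ α * ∫ y in om nq L, (1 - ‖B y‖ ^ 2) ≤ (1 + ε) * jj nq L := by
  have h1 := h B hB
  rw [show (∫ y in L, max (1 - ‖y‖ ^ 2) 0) = jj nq L from jj_eq gp_nq hL] at h1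
  refine le_trans ?_ h1
  exact mul_le_mul_of_nonneg_left (low hL B) (Real.rpow_nonneg (abs_nonneg _) _)

theorem two_rpow {α : ℝ} : 1 + α / 2 ≤ (2 : ℝ) ^ α ∨ α < 0 := by
  by_cases h : α < 0
  · exact Or.inr h
  · left
    push Not at h
    rw [Real.rpow_def_of_pos two_pos]
    have h1 := Real.add_one_le_exp (Real.log 2 * α)
    have h2 := Real.log_two_gt_d9
    nlinarith

theorem cov {α : ℝ} (ha : 0 < α) (hb : α < 1) {L : Set (Ec n)} (hL : IsCompact L)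
    (h : Pos α (α / 8) L) (θ : Ec n) (hθ : ‖θ‖ = 1) :
    α / 12 * jj nq L ≤ ∫ y in om nq L, ⟪y, θ⟫_ℝ ^ 2 := by
  obtain ⟨B, hB⟩ : ∃ B : Ec n →ₗ[ℝ] Ec n,
    B = LinearMap.transvection (innerSL ℝ θ : Ec n →L[ℝ] ℝ).toLinearMap θ := ⟨_, rfl⟩
  have hd : LinearMap.det B = 2 := by
    rw [hB, LinearMap.transvection.det]
    change 1 + ⟪θ, θ⟫_ℝ = 2
    rw [real_inner_self_eq_norm_sq, hθ]
    norm_num
  have hBy : ∀ y, ‖B y‖ ^ 2 = ‖y‖ ^ 2 + 3 * ⟪y, θ⟫_ℝ ^ 2 := by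
    intro y
    have e1 : B y = y + ⟪θ, y⟫_ℝ • θ := by
      rw [hB, LinearMap.transvection.apply]
      rfl
    rw [e1, norm_add_sq_real, norm_smul, real_inner_smul_right, hθ, mul_one, Real.norm_eq_abs,
      sq_abs, real_inner_comm θ y]
    ring
  have h1 := pos_le hL h B (by rw [hd]; norm_num)
  rw [hd, abs_of_pos (two_pos : (0 : ℝ) < 2)] at h1
  have hΩ := om_comp gp_nq hL
  have e2 : ∫ y in om nq L, (1 - ‖B y‖ ^ 2) = jj nq L - 3 * ∫ y in om nq L, ⟪y, θ⟫_ℝ ^ 2 := by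
    unfold jj
    rw [← integral_const_mul, ← integral_sub (cint hΩ (by fun_prop)) (cint hΩ (by fun_prop))]
    refine setIntegral_congr_fun hΩ.measurableSet fun y _ => ?_
    change 1 - ‖B y‖ ^ 2 = 1 - ‖y‖ ^ 2 - 3 * ⟪y, θ⟫_ℝ ^ 2
    rw [hBy]
    ring
  rw [e2] at h1
  have hJ := jj_nonneg gp_nq hL
  rcases two_rpow (α := α) with h2 | h2
  · by_contra hcon
    push Not at hcon
    have h3 : 0 < jj nq L - 3 * ∫ y in om nq L, ⟪y, θ⟫_ℝ ^ 2 := by nlinarith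
    have h4 : (1 + α / 2) * (jj nq L - 3 * ∫ y in om nq L, ⟪y, θ⟫_ℝ ^ 2) ≤ (1 + α / 8) * jj nq L :=
      (mul_le_mul_of_nonneg_right h2 h3.le).trans h1
    have h5 : (1 - α / 4) * jj nq L < jj nq L - 3 * ∫ y in om nq L, ⟪y, θ⟫_ℝ ^ 2 := by linarith
    have h6 : (1 + α / 2) * ((1 - α / 4) * jj nq L) <
        (1 + α / 2) * (jj nq L - 3 * ∫ y in om nq L, ⟪y, θ⟫_ℝ ^ 2) :=
      mul_lt_mul_of_pos_left h5 (by positivity)
    have h7 : (1 + α / 8) * jj nq L ≤ (1 + α / 2) * ((1 - α / 4) * jj nq L) := by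
      rw [← mul_assoc]
      refine mul_le_mul_of_nonneg_right ?_ hJ
      nlinarith
    linarith
  · linarith

theorem scal {α ε : ℝ} {L : Set (Ec n)} (hL : IsCompact L) (h : Pos α ε L) :
    PosS α ε nq L := by
  intro t
  change Real.exp (α * n * t) * ∫ y in L, max (1 - Real.exp (2 * t) * ‖y‖ ^ 2) 0 ≤
      (1 + ε) * jj nq L
  obtain ⟨B, hB⟩ : ∃ B : Ec n →ₗ[ℝ] Ec n, B = Real.exp t • LinearMap.id := ⟨_, rfl⟩
  have hd : LinearMap.det B = Real.exp t ^ n := by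
    rw [hB, LinearMap.det_smul, LinearMap.det_id, finrank_euclideanSpace_fin, mul_one]
  have hBy : ∀ y, ‖B y‖ ^ 2 = Real.exp (2 * t) * ‖y‖ ^ 2 := by
    intro y
    rw [hB, LinearMap.smul_apply, LinearMap.id_apply, norm_smul, Real.norm_eq_abs,
      abs_of_pos (Real.exp_pos _), mul_pow, two_mul, Real.exp_add, sq (Real.exp t)]
  have h1 := h B (by rw [hd]; positivity)
  rw [hd, abs_of_pos (by positivity), ← Real.exp_nat_mul, ← Real.exp_mul, show (∫ y in L, max (1 - ‖y‖ ^ 2) 0) = jj nq L from jj_eq gp_nq hL] at h1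
  have e1 : ((n : ℝ) * t) * α = α * n * t := by ring
  rw [e1] at h1
  have e2 : ∫ y in L, ff B y = ∫ y in L, max (1 - Real.exp (2 * t) * ‖y‖ ^ 2) 0 := by
    unfold ff
    simp only [hBy]
  rw [e2] at h1
  exact h1

end Pool.Agent.V7H69.IK
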