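import Pool.Agent.V7H69.IK.Vol

/-!
# Bodies with volume near the boundary of a uniformly convex body
-/

set_option autoImplicit false

namespace Pool.Agent.V7H69.IK

open MeasureTheory Set Filter Topology
open scoped ENNReal InnerProductSpace Pointwise
open Pool.Agent.Y506.RG (EW)
open Pool.Agent.Y506.PV (ind)
open Pool.Agent.Results.MP_dc1397_gt.GibbsLevelSets (HyperplaneBound)

variable {n : ℕ}

theorem om_eq {Φ : Ec n → ℝ} (L : Set (Ec n)) :
    om Φ L = L ∩ {x | Real.sqrt (Φ x) ≤ 1} := by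
  unfold om
  congr 1
  ext x
  change Φ x ≤ 1 ↔ Real.sqrt (Φ x) ≤ 1
  rw [Real.sqrt_le_one]

theorem vv_nn (Φ : Ec n → ℝ) (L : Set (Ec n)) : vv Φ L = nn Φ L 1 := by
  unfold vv nn
  rw [om_eq]

/-- the tail -/
theorem tails {Φ : Ec n → ℝ} (hΦ : GH Φ) {a : ℝ} (ha : 0 < a) (hm : Mid a Φ)
    (hcv : Convex ℝ {y | Φ y ≤ 1}) {L : Set (Ec n)} (hL : IsCompact L) (hc : Convex ℝ L)
    (h0 : (0 : Ec n) ∈ interior L) {p δ : ℝ} (hp : 0 < p) (hδ0 : 0 < δ)
    (hδ : 2 * p * δ ≤ 1) (h : nn Φ L (1 - δ) ≤ Real.exp (-(p * δ)) * nn Φ L 1) (r : ℝ) (hr : 0 < r) (hr1 : r ≤ 1) :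
    nn Φ L r ≤ 2 * (Real.exp (-(p * (1 - r))) * vv Φ L) := by
  have hV : 0 ≤ vv Φ L := measureReal_nonneg
  rw [vv_nn] at hV ⊢
  by_cases hrs : r < 1 - δ
  · have h1 := one_scale hΦ ha hm hcv hL hc h0 hr hrs (by linarith : 1 - δ < 1) h
    have e1 : p * δ * (1 - r) / (1 - (1 - δ)) = p * (1 - r) := by
      rw [sub_sub_cancel]
      field_simp
    rw [e1] at h1
    have h2 : 0 ≤ Real.exp (-(p * (1 - r))) * nn Φ L 1 := by positivity
    linarith
  · push Not at hrs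
    have h1 := nn_mono (Φ := Φ) hL hr1
    have h2 : p * (1 - r) ≤ 1 / 2 := by
      have h3 : p * (1 - r) ≤ p * δ := mul_le_mul_of_nonneg_left (by linarith) hp.le
      linarith
    have h3 : (1 / 2 : ℝ) ≤ Real.exp (-(p * (1 - r))) := by
      have := Real.add_one_le_exp (-(p * (1 - r)))
      linarith
    have h4 : (1 / 2 : ℝ) * nn Φ L 1 ≤ Real.exp (-(p * (1 - r))) * nn Φ L 1 :=
      mul_le_mul_of_nonneg_right h3 hV
    linarith

theorem exp_le_ind (N : ℕ) (x : ℝ) (h0 : 0 ≤ x) (h1 : x ≤ N) :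
    Real.exp x ≤ 3 + 3 * ∑ j ∈ Finset.range N, Real.exp (j + 1) *
      ({y : ℝ | (j : ℝ) + 1 ≤ y}.indicator (fun _ => (1 : ℝ)) x) := by
  have hnn : ∀ j ∈ Finset.range N, 0 ≤ Real.exp (j + 1) *
      ({y : ℝ | (j : ℝ) + 1 ≤ y}.indicator (fun _ => (1 : ℝ)) x) := fun j _ =>
    mul_nonneg (Real.exp_pos _).le (indicator_nonneg (fun _ _ => zero_le_one) _)
  have he := Real.exp_one_lt_d9
  have hs := Finset.sum_nonneg hnn
  by_cases hx : x < 1
  · have h2 : Real.exp x ≤ Real.exp 1 := Real.exp_le_exp.2 hx.le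
    linarith
  · push Not at hx
    obtain ⟨m, hm⟩ : ∃ m, m = ⌊x⌋₊ := ⟨_, rfl⟩
    have hm1 : 1 ≤ m := by
      rw [hm]
      exact Nat.le_floor (by exact_mod_cast hx)
    have hm2 : (m : ℝ) ≤ x := by rw [hm]; exact Nat.floor_le h0
    have hm3 : x < m + 1 := by rw [hm]; exact Nat.lt_floor_add_one x
    have hm4 : m ≤ N := by exact_mod_cast hm2.trans h1
    obtain ⟨k, hk⟩ : ∃ k, m = k + 1 := ⟨m - 1, by omega⟩
    have h2 := Finset.single_le_sum hnn (Finset.mem_range.2 (by omega : k < N))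
    have h3 : x ∈ {y : ℝ | (k : ℝ) + 1 ≤ y} := by
      change (k : ℝ) + 1 ≤ x
      rw [hk] at hm2
      push_cast at hm2
      exact hm2
    rw [indicator_of_mem h3, mul_one] at h2
    have h5 : Real.exp x ≤ Real.exp (k + 1) * Real.exp 1 := by
      rw [← Real.exp_add]
      refine Real.exp_le_exp.2 ?_
      rw [hk] at hm3
      push_cast at hm3
      linarith
    have h6 := Real.exp_pos ((k : ℝ) + 1)
    nlinarith

/-- the exponential moment -/
theorem exp_mom0 {Φ : Ec n → ℝ} (hΦ : GP Φ) {L : Set (Ec n)} (hL : IsCompact L)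
    {p : ℝ} (hp : 0 < p)
    (ht : ∀ τ : ℝ, 0 < τ → volume.real (om Φ L ∩ {y | Φ y ≤ 1 - τ}) ≤
      2 * (Real.exp (-(p * τ / 2)) * vv Φ L)) :
    ∫ y in om Φ L, Real.exp (p / 4 * (1 - Φ y)) ≤ 33 * vv Φ L := by
  have hcΦ := hΦ.cont
  have hV : 0 ≤ vv Φ L := measureReal_nonneg
  have hΩ := om_comp hΦ hL
  obtain ⟨b, hb'⟩ : ∃ b, b = p / 4 := ⟨_, rfl⟩
  have hb0 : 0 < b := by rw [hb']; positivity
  rw [← hb']
  have hcb : Continuous fun y : Ec n => b * (1 - Φ y) := by fun_prop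
  have hms : ∀ j : ℕ, MeasurableSet {y : Ec n | (j : ℝ) + 1 ≤ b * (1 - Φ y)} := fun j =>
    (isClosed_le continuous_const hcb).measurableSet
  have hind : ∀ (j : ℕ) (y : Ec n),
      ({z : ℝ | (j : ℝ) + 1 ≤ z}.indicator (fun _ => (1 : ℝ)) (b * (1 - Φ y))) =
      {y : Ec n | (j : ℝ) + 1 ≤ b * (1 - Φ y)}.indicator (fun _ => (1 : ℝ)) y := fun j y => rfl
  have hii : ∀ j : ℕ, IntegrableOn
      ({y : Ec n | (j : ℝ) + 1 ≤ b * (1 - Φ y)}.indicator (fun _ => (1 : ℝ))) (om Φ L) :=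
    fun j => (integrableOn_const hΩ.measure_lt_top.ne).indicator (hms j)
  have h1 : ∫ y in om Φ L, Real.exp (b * (1 - Φ y)) ≤
      ∫ y in om Φ L, (3 + 3 * ∑ j ∈ Finset.range ⌈b⌉₊, Real.exp (j + 1) *
        {y : Ec n | (j : ℝ) + 1 ≤ b * (1 - Φ y)}.indicator (fun _ => (1 : ℝ)) y) := by
    refine setIntegral_mono_on (cint hΩ (by fun_prop)) ?_ hΩ.measurableSet fun y hy => ?_
    · refine (cint hΩ continuous_const).add (Integrable.const_mul ?_ _)
      exact integrable_finsetSum _ fun j _ => (hii j).const_mul _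
    · have h2 : Φ y ≤ 1 := hy.2
      have h3 : 0 ≤ 1 - Φ y := by linarith
      have h4 : b * (1 - Φ y) ≤ b := by
        have := hΦ.nonneg y
        nlinarith
      have h5 := exp_le_ind ⌈b⌉₊ (b * (1 - Φ y)) (by positivity) (h4.trans (Nat.le_ceil b))
      simp only [hind] at h5
      exact h5
  have e1 : ∫ y in om Φ L, (3 + 3 * ∑ j ∈ Finset.range ⌈b⌉₊, Real.exp (j + 1) *
        {y : Ec n | (j : ℝ) + 1 ≤ b * (1 - Φ y)}.indicator (fun _ => (1 : ℝ)) y) =
      3 * vv Φ L + 3 * ∑ j ∈ Finset.range ⌈b⌉₊, Real.exp (j + 1) *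
        volume.real (om Φ L ∩ {y : Ec n | (j : ℝ) + 1 ≤ b * (1 - Φ y)}) := by
    rw [integral_add (cint hΩ continuous_const) (Integrable.const_mul
      (integrable_finsetSum _ fun j _ => (hii j).const_mul _) _), integral_const_mul,
      integral_finsetSum _ (fun j _ => (hii j).const_mul _), setIntegral_const, smul_eq_mul]
    congr 1
    · rw [mul_comm]
      rfl
    · congr 1
      refine Finset.sum_congr rfl fun j _ => ?_
      rw [integral_const_mul, setIntegral_indicator (hms j), setIntegral_const, smul_eq_mul,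
        mul_one]
  have h2 : ∀ j : ℕ, volume.real (om Φ L ∩ {y : Ec n | (j : ℝ) + 1 ≤ b * (1 - Φ y)}) ≤
      2 * (Real.exp (-(2 * ((j : ℝ) + 1))) * vv Φ L) := by
    intro j
    obtain ⟨τ, hτ⟩ : ∃ τ, τ = ((j : ℝ) + 1) / b := ⟨_, rfl⟩
    have hτ0 : 0 < τ := by rw [hτ]; positivity
    have hset : om Φ L ∩ {y : Ec n | (j : ℝ) + 1 ≤ b * (1 - Φ y)} ⊆
        om Φ L ∩ {y | Φ y ≤ 1 - τ} := by
      intro y hy
      refine ⟨hy.1, ?_⟩
      have h3 : (j : ℝ) + 1 ≤ b * (1 - Φ y) := hy.2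
      have h4 : τ ≤ 1 - Φ y := by
        rw [hτ, div_le_iff₀ hb0]
        linarith
      change Φ y ≤ 1 - τ
      linarith
    have h3 := ht τ hτ0
    have e2 : p * τ / 2 = 2 * ((j : ℝ) + 1) := by
      rw [hτ, hb']
      field_simp
      norm_num
    rw [e2] at h3
    exact (measureReal_mono hset ((measure_mono inter_subset_left).trans_lt
      hΩ.measure_lt_top).ne).trans h3
  have h3 : ∑ j ∈ Finset.range ⌈b⌉₊, Real.exp (j + 1) *
        volume.real (om Φ L ∩ {y : Ec n | (j : ℝ) + 1 ≤ b * (1 - Φ y)}) ≤ 2 * vv Φ L := by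
    have h4 : ∀ j ∈ Finset.range ⌈b⌉₊, Real.exp (j + 1) *
        volume.real (om Φ L ∩ {y : Ec n | (j : ℝ) + 1 ≤ b * (1 - Φ y)}) ≤
        vv Φ L * (1 / 2) ^ j := by
      intro j _
      have h5 := mul_le_mul_of_nonneg_left (h2 j) (Real.exp_pos ((j : ℝ) + 1)).le
      refine h5.trans ?_
      have e4 : Real.exp (j + 1) * (2 * (Real.exp (-(2 * ((j : ℝ) + 1))) * vv Φ L)) =
          vv Φ L * (2 * Real.exp (-((j : ℝ) + 1))) := by
        have e5 : Real.exp (j + 1) * Real.exp (-((j : ℝ) + 1)) = 1 := by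
          rw [← Real.exp_add, add_neg_cancel, Real.exp_zero]
        have e6 : Real.exp (-(2 * ((j : ℝ) + 1))) =
            Real.exp (-((j : ℝ) + 1)) * Real.exp (-((j : ℝ) + 1)) := by
          rw [← Real.exp_add]
          congr 1
          ring
        rw [e6]
        calc Real.exp (j + 1) * (2 * (Real.exp (-((j : ℝ) + 1)) * Real.exp (-((j : ℝ) + 1)) *
              vv Φ L)) = (Real.exp (j + 1) * Real.exp (-((j : ℝ) + 1))) *
              (vv Φ L * (2 * Real.exp (-((j : ℝ) + 1)))) := by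
              generalize Real.exp (-((j : ℝ) + 1)) = w
              generalize Real.exp ((j : ℝ) + 1) = u
              ring
          _ = _ := by rw [e5, one_mul]
      rw [e4]
      refine mul_le_mul_of_nonneg_left ?_ hV
      have e5 : Real.exp (-((j : ℝ) + 1)) = Real.exp (-1) ^ (j + 1) := by
        rw [← Real.exp_nat_mul]
        congr 1
        push_cast
        ring
      rw [e5]
      have h6 : Real.exp (-1) ≤ 1 / 2 := by
        have h7 := Real.exp_one_gt_d9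
        rw [Real.exp_neg, one_div]
        exact inv_anti₀ two_pos (by linarith)
      have h7 : Real.exp (-1) ^ (j + 1) ≤ (1 / 2) ^ (j + 1) :=
        pow_le_pow_left₀ (Real.exp_pos _).le h6 _
      rw [pow_succ] at h7 ⊢
      rw [pow_succ] at h7
      linarith
    refine (Finset.sum_le_sum h4).trans ?_
    rw [← Finset.mul_sum, mul_comm]
    exact mul_le_mul_of_nonneg_right (sum_geometric_two_le _) hV
  rw [e1] at h1
  linarith

/-- the exponential moment for gauges -/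
theorem exp_mom {Φ : Ec n → ℝ} (hΦ : GH Φ) {a : ℝ} (ha : 0 < a) (hm : Mid a Φ)
    (hcv : Convex ℝ {y | Φ y ≤ 1}) {L : Set (Ec n)} (hL : IsCompact L) (hc : Convex ℝ L)
    (h0 : (0 : Ec n) ∈ interior L) {p δ : ℝ} (hp : 0 < p) (hδ0 : 0 < δ)
    (hδ : 2 * p * δ ≤ 1) (h : nn Φ L (1 - δ) ≤ Real.exp (-(p * δ)) * nn Φ L 1) :
    ∫ y in om Φ L, Real.exp (p / 4 * (1 - Φ y)) ≤ 33 * vv Φ L := by
  have hV : 0 ≤ vv Φ L := measureReal_nonneg
  refine exp_mom0 hΦ.toGP hL hp fun τ hτ0 => ?_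
  by_cases hτ2 : 2 ≤ τ
  · have h3 : om Φ L ∩ {y : Ec n | Φ y ≤ 1 - τ} = ∅ := by
      refine eq_empty_of_forall_notMem fun y hy => ?_
      have h4 : Φ y ≤ 1 - τ := hy.2
      have := hΦ.nonneg y
      linarith
    rw [h3, measureReal_empty]
    positivity
  · push Not at hτ2
    have h3 := tails hΦ ha hm hcv hL hc h0 hp hδ0 hδ h (1 - τ / 2) (by linarith) (by linarith)
    have e2 : p * (1 - (1 - τ / 2)) = p * τ / 2 := by ring
    rw [e2] at h3
    refine le_trans ?_ h3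
    unfold nn
    refine measureReal_mono (fun y hy => ⟨hy.1.1, ?_⟩)
      ((measure_mono inter_subset_left).trans_lt hL.measure_lt_top).ne
    have h4 : Φ y ≤ 1 - τ := hy.2
    change Real.sqrt (Φ y) ≤ 1 - τ / 2
    refine Real.sqrt_le_iff.2 ⟨by linarith, ?_⟩
    nlinarith [sq_nonneg τ]

theorem gap {Φ : Ec n → ℝ} (hΦ : GH Φ) {a : ℝ} (ha : 0 < a) (hm : Mid a Φ)
    (hcv : Convex ℝ {y | Φ y ≤ 1}) {L : Set (Ec n)} (hL : IsCompact L) (hc : Convex ℝ L)
    (h0 : (0 : Ec n) ∈ interior L) {p δ : ℝ} (hp0 : 0 < p) (hδ0 : 0 < δ) (hδ2 : δ ≤ 1 / 2)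
    (h : nn Φ L (1 - δ) ≤ Real.exp (-(p * δ)) * nn Φ L 1) :
    p / (4 * (2 + p)) * vv Φ L ≤ vv Φ L - jj Φ L := by
  have hcΦ := hΦ.cont
  have hV : 0 ≤ vv Φ L := measureReal_nonneg
  have hΩ := om_comp hΦ.toGP hL
  have h1 : nn Φ L (1 / 2) ≤ Real.exp (-(p / 2)) * nn Φ L 1 := by
    rcases (show 1 / 2 ≤ 1 - δ by linarith).eq_or_lt with h2 | h2
    · have e1 : δ = 1 / 2 := by linarith
      rw [e1] at h
      have e2 : p * (1 / 2) = p / 2 := by ring
      rw [e2] at h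
      norm_num at h ⊢
      exact h
    · have h3 := one_scale hΦ ha hm hcv hL hc h0 (by norm_num : (0 : ℝ) < 1 / 2) h2
        (by linarith : 1 - δ < 1) h
      have e1 : p * δ * (1 - 1 / 2) / (1 - (1 - δ)) = p / 2 := by
        rw [sub_sub_cancel]
        field_simp
        norm_num
      rwa [e1] at h3
  rw [← vv_nn] at h1
  have hc2 : MeasurableSet {x : Ec n | Real.sqrt (Φ x) ≤ 1 / 2} :=
    (isClosed_le (Real.continuous_sqrt.comp hcΦ) continuous_const).measurableSet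
  have e1 : vv Φ L - jj Φ L = ∫ y in om Φ L, Φ y := by
    have e2 : vv Φ L = ∫ y in om Φ L, (1 : ℝ) := by
      rw [setIntegral_const, smul_eq_mul, mul_one]
      rfl
    unfold jj
    rw [e2, ← integral_sub (cint hΩ continuous_const) (cint hΩ (by fun_prop))]
    refine setIntegral_congr_fun hΩ.measurableSet fun y _ => ?_
    ring
  have h2 : ∫ y in om Φ L, (1 / 4 : ℝ) * (1 -
      {x : Ec n | Real.sqrt (Φ x) ≤ 1 / 2}.indicator (fun _ => (1 : ℝ)) y) ≤
      ∫ y in om Φ L, Φ y := by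
    have hi : IntegrableOn ({x : Ec n | Real.sqrt (Φ x) ≤ 1 / 2}.indicator
        (fun _ => (1 : ℝ))) (om Φ L) :=
      (integrableOn_const hΩ.measure_lt_top.ne).indicator hc2
    refine setIntegral_mono_on (((cint hΩ continuous_const).sub hi).const_mul _)
      (cint hΩ hcΦ) hΩ.measurableSet fun y _ => ?_
    by_cases hy : y ∈ {x : Ec n | Real.sqrt (Φ x) ≤ 1 / 2}
    · rw [indicator_of_mem hy]
      have := hΦ.nonneg y
      linarith
    · rw [indicator_of_notMem hy, sub_zero, mul_one]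
      have h3 : 1 / 2 < Real.sqrt (Φ y) := by
        by_contra hcon
        push Not at hcon
        exact hy hcon
      have h4 : Real.sqrt (Φ y) ^ 2 = Φ y := Real.sq_sqrt (hΦ.nonneg y)
      nlinarith
  have e3 : ∫ y in om Φ L, (1 / 4 : ℝ) * (1 -
      {x : Ec n | Real.sqrt (Φ x) ≤ 1 / 2}.indicator (fun _ => (1 : ℝ)) y) =
      1 / 4 * (vv Φ L - nn Φ L (1 / 2)) := by
    have hi : IntegrableOn ({x : Ec n | Real.sqrt (Φ x) ≤ 1 / 2}.indicator
        (fun _ => (1 : ℝ))) (om Φ L) :=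
      (integrableOn_const hΩ.measure_lt_top.ne).indicator hc2
    rw [integral_const_mul, integral_sub (cint hΩ continuous_const) hi,
      setIntegral_indicator hc2, setIntegral_const, setIntegral_const, smul_eq_mul, mul_one,
      smul_eq_mul, mul_one]
    congr 2
    unfold nn
    rw [om_eq]
    congr 1
    ext x
    constructor
    · exact fun hx => ⟨hx.1.1, hx.2⟩
    · intro hx
      have h5 : Real.sqrt (Φ x) ≤ 1 / 2 := hx.2
      exact ⟨⟨hx.1, show Real.sqrt (Φ x) ≤ 1 by linarith⟩, hx.2⟩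
  rw [e1]
  refine le_trans ?_ h2
  rw [e3]
  have h3 : Real.exp (-(p / 2)) ≤ 2 / (2 + p) := by
    have h4 := Real.add_one_le_exp (p / 2)
    rw [Real.exp_neg, inv_le_comm₀ (Real.exp_pos _) (by positivity), inv_div]
    linarith
  have h4 : Real.exp (-(p / 2)) * vv Φ L ≤ 2 / (2 + p) * vv Φ L :=
    mul_le_mul_of_nonneg_right h3 hV
  have e4 : p / (4 * (2 + p)) * vv Φ L = 1 / 4 * (vv Φ L - 2 / (2 + p) * vv Φ L) := by
    field_simp
    ring
  rw [e4]
  linarith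

/-- **sublevel sets of uniformly convex functions**, compact form -/
theorem level : ∃ C : ℝ, 0 < C ∧ ∀ (q σ a v : ℝ), 0 < q → 0 < σ → 2 * q * σ ≤ 1 → 0 < a → 0 < v →
    ∀ (n : ℕ) (L : Set (Ec n)) (Φ : Ec n → ℝ), 1 ≤ n → GP Φ → Mid a Φ → ConvexOn ℝ univ Φ →
    IsCompact L → Convex ℝ L → (0 : Ec n) ∈ interior L → (∀ x ∈ L, -x ∈ L) →
    volume.real (L ∩ {x | Φ x ≤ 1 - σ}) ≤ Real.exp (-(q * σ)) * vv Φ L →
    (∃ θ : Ec n, ‖θ‖ = 1 ∧ v ≤ EW (ind (om Φ L)) fun x => ⟪x, θ⟫_ℝ ^ 2) →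
    HyperplaneBound (C / Real.sqrt (q * a * v)) (interior (om Φ L)) := by
  obtain ⟨C, hC, H⟩ := thmA
  refine ⟨C, hC, fun q σ a v hq hσ0 hσ ha hv n L Φ hn hΦ hm hcx hL hc h0 hs h hθ => ?_⟩
  have hcv : Convex ℝ {y | Φ y ≤ 1} := by
    have := hcx.convex_le 1
    have e : {y | Φ y ≤ 1} = {x ∈ univ | Φ x ≤ 1} := by
      ext x
      constructor
      · exact fun hx => ⟨mem_univ x, hx⟩
      · exact fun hx => hx.2
    rw [e]
    exact this
  have hV : 0 ≤ vv Φ L := measureReal_nonneg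
  have h1 := H (2 * q) a v (by positivity) ha hv n L Φ hn hΦ hm hcv hL hc h0 hs
    (exp_mom0 hΦ hL (by positivity) fun τ hτ0 => ?_) hθ
  · refine hb_mono ?_ h1
    refine div_le_div_of_nonneg_left hC.le (Real.sqrt_pos.2 (by positivity))
      (Real.sqrt_le_sqrt ?_)
    have : 0 < q * a * v := by positivity
    linarith
  · have e1 : 2 * q * τ / 2 = q * τ := by ring
    rw [e1]
    have hsub : om Φ L ∩ {y | Φ y ≤ 1 - τ} ⊆ L ∩ {x | Φ x ≤ 1 - τ} :=
      fun y hy => ⟨hy.1.1, hy.2⟩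
    have h2 : volume.real (om Φ L ∩ {y | Φ y ≤ 1 - τ}) ≤ volume.real (L ∩ {x | Φ x ≤ 1 - τ}) :=
      measureReal_mono hsub ((measure_mono inter_subset_left).trans_lt hL.measure_lt_top).ne
    refine h2.trans ?_
    have hvv : vv Φ L = volume.real (L ∩ {x | Φ x ≤ 1}) := rfl
    by_cases hτσ : τ ≤ σ
    · have h3 : volume.real (L ∩ {x | Φ x ≤ 1 - τ}) ≤ vv Φ L := by
        rw [hvv]
        refine measureReal_mono (fun x hx => ⟨hx.1, ?_⟩)
          ((measure_mono inter_subset_left).trans_lt hL.measure_lt_top).ne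
        have : Φ x ≤ 1 - τ := hx.2
        change Φ x ≤ 1
        linarith
      have h4 : (1 / 2 : ℝ) ≤ Real.exp (-(q * τ)) := by
        have h5 := Real.add_one_le_exp (-(q * τ))
        have h6 : q * τ ≤ q * σ := mul_le_mul_of_nonneg_left hτσ hq.le
        linarith
      have h5 : (1 / 2 : ℝ) * vv Φ L ≤ Real.exp (-(q * τ)) * vv Φ L :=
        mul_le_mul_of_nonneg_right h4 hV
      linarith
    · push Not at hτσ
      by_cases hτ1 : τ < 1
      · have h3 := one_scale0 hcx hΦ.cont hΦ.zero hL hc h0 (r := 1 - τ) (s := 1 - σ) (v := 1)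
          (g := q * σ) (by linarith) (by linarith) (by linarith) h
        have e2 : q * σ * (1 - (1 - τ)) / (1 - (1 - σ)) = q * τ := by
          rw [sub_sub_cancel, sub_sub_cancel]
          field_simp
        rw [e2] at h3
        have h4 : 0 ≤ Real.exp (-(q * τ)) * vv Φ L := by positivity
        have h5 : volume.real (L ∩ {x | Φ x ≤ 1 - τ}) ≤ Real.exp (-(q * τ)) * vv Φ L := h3
        linarith
      · push Not at hτ1
        have h3 : L ∩ {x | Φ x ≤ 1 - τ} ⊆ {0} := by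
          intro x hx
          have h4 : Φ x ≤ 1 - τ := hx.2
          have h5 := phi_low hΦ hm x
          have h6 : ‖x‖ ^ 2 ≤ 0 := by
            by_contra hcon
            push Not at hcon
            have := mul_pos ha hcon
            linarith
          have h7 : ‖x‖ = 0 := pow_eq_zero_iff two_ne_zero |>.1 (le_antisymm h6 (sq_nonneg _))
          exact norm_eq_zero.1 h7
        have hne : Nontrivial (Ec n) := by
          have : Nonempty (Fin n) := ⟨⟨0, by omega⟩⟩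
          infer_instance
        have h4 : volume.real (L ∩ {x | Φ x ≤ 1 - τ}) ≤ volume.real ({0} : Set (Ec n)) :=
          measureReal_mono h3 (by simp)
        have h5 : volume.real ({0} : Set (Ec n)) = 0 := by
          unfold Measure.real
          rw [measure_singleton]
          rfl
        rw [h5] at h4
        exact h4.trans (by positivity)

/-- **shells**, compact form -/
theorem shell : ∃ C : ℝ, 0 < C ∧ ∀ (p δ a v : ℝ), 0 < p → 0 < δ → 2 * p * δ ≤ 1 → 0 < a → 0 < v →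
    ∀ (n : ℕ) (L : Set (Ec n)) (Φ : Ec n → ℝ), 1 ≤ n → GH Φ → Mid a Φ →
    Convex ℝ {y | Φ y ≤ 1} →
    IsCompact L → Convex ℝ L → (0 : Ec n) ∈ interior L → (∀ x ∈ L, -x ∈ L) →
    nn Φ L (1 - δ) ≤ Real.exp (-(p * δ)) * nn Φ L 1 →
    (∃ θ : Ec n, ‖θ‖ = 1 ∧ v ≤ EW (ind (om Φ L)) fun x => ⟪x, θ⟫_ℝ ^ 2) →
    HyperplaneBound (C / Real.sqrt (p * a * v)) (interior (om Φ L)) := by
  obtain ⟨C, hC, H⟩ := thmA
  refine ⟨C, hC, fun p δ a v hp hδ0 hδ ha hv n L Φ hn hΦ hm hcv hL hc h0 hs h hθ => ?_⟩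
  exact H p a v hp ha hv n L Φ hn hΦ.toGP hm hcv hL hc h0 hs
    (exp_mom hΦ ha hm hcv hL hc h0 hp hδ0 hδ h) hθ

/-- **shells** of bodies which are equivalent to the ball, compact form -/
theorem shell_tr : ∃ C : ℝ, 0 < C ∧ ∀ (p δ a b : ℝ), 0 < p → 0 < δ → δ ≤ 1 / 2 →
    2 * p * δ ≤ 1 → 0 < a → 0 < b →
    ∀ (n : ℕ) (L : Set (Ec n)) (Φ : Ec n → ℝ), 1 ≤ n → GH Φ → Mid a Φ →
    (∀ x, Φ x ≤ b * ‖x‖ ^ 2) → Convex ℝ {y | Φ y ≤ 1} →
    IsCompact L → Convex ℝ L → (0 : Ec n) ∈ interior L → (∀ x ∈ L, -x ∈ L) →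
    nn Φ L (1 - δ) ≤ Real.exp (-(p * δ)) * nn Φ L 1 →
    HyperplaneBound (C * Real.sqrt (b / a * (n * (2 + p) / p ^ 2))) (interior (om Φ L)) := by
  obtain ⟨C, hC, H⟩ := shell
  refine ⟨C * 2, by positivity, fun p δ a b hp0 hδ0 hδ2 hδ ha hb n L Φ hn hΦ hm hup hcv hL hc h0
    hs h => ?_⟩
  have hn0 : (0 : ℝ) < n := by exact_mod_cast hn
  have h1 := mom_low hΦ.toGP hb hup hL h0 hn (gap hΦ ha hm hcv hL hc h0 hp0 hδ0 hδ2 h)
  have h2 := H p δ a (p / (4 * (2 + p)) / (b * n)) hp0 hδ0 hδ ha (by positivity) n L Φ hn hΦ hm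
    hcv hL hc h0 hs h h1
  refine hb_mono ?_ h2
  have h3 : (2 * Real.sqrt (b / a * (n * (2 + p) / p ^ 2)) *
      Real.sqrt (p * a * (p / (4 * (2 + p)) / (b * n)))) ^ 2 = 1 := by
    rw [mul_pow, mul_pow, Real.sq_sqrt (by positivity), Real.sq_sqrt (by positivity)]
    field_simp
    norm_num
  have h4 : 2 * Real.sqrt (b / a * (n * (2 + p) / p ^ 2)) *
      Real.sqrt (p * a * (p / (4 * (2 + p)) / (b * n))) = 1 := by
    rw [← Real.sqrt_sq (show 0 ≤ 2 * Real.sqrt (b / a * (n * (2 + p) / p ^ 2)) *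
      Real.sqrt (p * a * (p / (4 * (2 + p)) / (b * n))) by positivity), h3, Real.sqrt_one]
  rw [div_le_iff₀ (Real.sqrt_pos.2 (by positivity))]
  refine le_of_eq ?_
  calc C = C * (2 * Real.sqrt (b / a * (n * (2 + p) / p ^ 2)) *
      Real.sqrt (p * a * (p / (4 * (2 + p)) / (b * n)))) := by rw [h4, mul_one]
    _ = _ := by ring

end Pool.Agent.V7H69.IK
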