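import Pool.Agent.V7H69.IK.Shell

/-!
# Truncations by balls
-/

set_option autoImplicit false

namespace Pool.Agent.V7H69.IK

open MeasureTheory Set Filter Topology
open scoped ENNReal InnerProductSpace Pointwise
open Pool.Agent.Results.MP_dc1397_gt.GibbsLevelSets (HyperplaneBound)

variable {n : ℕ}

/-- the volume of the unit ball -/
noncomputable def bv (n : ℕ) : ℝ := volume.real (Metric.closedBall (0 : Ec n) 1)

theorem bv_pos (n : ℕ) : 0 < bv n := by
  unfold bv
  exact ENNReal.toReal_pos (Metric.measure_closedBall_pos volume _ one_pos).ne'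
    (isCompact_closedBall _ _).measure_lt_top.ne

theorem ball_r {r : ℝ} (hr : 0 ≤ r) :
    volume.real (Metric.closedBall (0 : Ec n) r) = r ^ n * bv n := by
  unfold bv Measure.real
  rw [Measure.addHaar_closedBall' volume 0 hr, finrank_euclideanSpace_fin, ENNReal.toReal_mul,
    ENNReal.toReal_ofReal (by positivity)]

/-- the volume of the ball of radius `√n` -/
theorem bv_le (n : ℕ) : Real.sqrt n ^ n * bv n ≤ 5 ^ n := by
  have h1 := GaussianFourier.integral_rexp_neg_mul_sq_norm (V := Ec n)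
    (by norm_num : (0 : ℝ) < 1 / 2)
  rw [finrank_euclideanSpace_fin] at h1
  have hi : Integrable fun x : Ec n => Real.exp (-(1 / 2) * ‖x‖ ^ 2) := by
    have := GaussianFourier.integrable_cexp_neg_mul_sq_norm_add (V := Ec n) (b := 1 / 2)
      (by norm_num) 0 0
    have h2 := this.norm
    refine h2.congr (Eventually.of_forall fun x => ?_)
    simp only
    rw [Complex.norm_exp]
    congr 1
    simp
    norm_cast
  have h2 : ∫ x in Metric.closedBall (0 : Ec n) (Real.sqrt n), Real.exp (-(n / 2 : ℝ)) ≤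
      ∫ x in Metric.closedBall (0 : Ec n) (Real.sqrt n), Real.exp (-(1 / 2) * ‖x‖ ^ 2) := by
    refine setIntegral_mono_on (integrableOn_const (isCompact_closedBall _ _).measure_lt_top.ne)
      hi.integrableOn Metric.isClosed_closedBall.measurableSet fun x hx => ?_
    refine Real.exp_le_exp.2 ?_
    have h3 : ‖x‖ ≤ Real.sqrt n := by simpa using hx
    have h4 : ‖x‖ ^ 2 ≤ n := by
      have := pow_le_pow_left₀ (norm_nonneg x) h3 2
      rwa [Real.sq_sqrt (Nat.cast_nonneg n)] at this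
    linarith
  have h3 : ∫ x in Metric.closedBall (0 : Ec n) (Real.sqrt n), Real.exp (-(1 / 2) * ‖x‖ ^ 2) ≤
      ∫ x : Ec n, Real.exp (-(1 / 2) * ‖x‖ ^ 2) :=
    setIntegral_le_integral hi (Eventually.of_forall fun x => (Real.exp_pos _).le)
  rw [setIntegral_const, smul_eq_mul, ball_r (Real.sqrt_nonneg _)] at h2
  have h4 := h2.trans (h3.trans_eq h1)
  have e1 : (Real.pi / (1 / 2)) ^ ((n : ℝ) / 2) = Real.sqrt (2 * Real.pi) ^ n := by
    rw [Real.sqrt_eq_rpow, ← Real.rpow_natCast, ← Real.rpow_mul (by positivity)]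
    congr 1
    · ring
    · ring
  rw [e1] at h4
  have e2 : Real.exp (-(n / 2 : ℝ)) = Real.exp (-(1 / 2)) ^ n := by
    rw [← Real.exp_nat_mul]
    congr 1
    ring
  rw [e2] at h4
  have h5 : Real.sqrt (2 * Real.pi) * Real.exp (1 / 2) ≤ 5 := by
    have h6 : (Real.sqrt (2 * Real.pi) * Real.exp (1 / 2)) ^ 2 ≤ 5 ^ 2 := by
      rw [mul_pow, Real.sq_sqrt (by positivity), ← Real.exp_nat_mul]
      norm_num
      have h7 := Real.pi_lt_d2
      have h8 := Real.exp_one_lt_d9
      have h9 := Real.pi_pos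
      nlinarith
    exact abs_le_of_sq_le_sq' h6 (by norm_num) |>.2
  have h6 : Real.exp (1 / 2) ^ n * Real.exp (-(1 / 2)) ^ n = 1 := by
    rw [← mul_pow, ← Real.exp_add, add_neg_cancel, Real.exp_zero, one_pow]
  calc Real.sqrt n ^ n * bv n =
        Real.exp (1 / 2) ^ n * (Real.sqrt n ^ n * bv n * Real.exp (-(1 / 2)) ^ n) := by
          rw [mul_comm (Real.sqrt n ^ n * bv n), ← mul_assoc, h6, one_mul]
    _ ≤ Real.exp (1 / 2) ^ n * Real.sqrt (2 * Real.pi) ^ n := by gcongr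
    _ = (Real.sqrt (2 * Real.pi) * Real.exp (1 / 2)) ^ n := by rw [mul_pow, mul_comm]
    _ ≤ 5 ^ n := pow_le_pow_left₀ (by positivity) h5 n

/-- the function `‖x‖² / R²` -/
noncomputable def nr (R : ℝ) (x : Ec n) : ℝ := (R⁻¹ * ‖x‖) ^ 2

theorem gh_nr (R : ℝ) : GH (nr (n := n) R) := gh_of (by unfold nr; fun_prop)
  (fun x => sq_nonneg _) fun c x => by
    unfold nr
    rw [norm_smul, mul_pow, mul_pow, mul_pow, Real.norm_eq_abs, sq_abs]
    ring

theorem gp_nr (R : ℝ) : GP (nr (n := n) R) := (gh_nr R).toGP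

theorem mid_nr (R : ℝ) : Mid (R⁻¹ ^ 2) (nr (n := n) R) := by
  intro x y
  have h1 := mid_nq x y
  unfold nq at h1
  unfold nr
  have h2 := mul_le_mul_of_nonneg_left h1 (sq_nonneg R⁻¹)
  rw [mul_pow, mul_pow, mul_pow]
  linarith

theorem sqrt_nr {R : ℝ} (hR : 0 < R) (x : Ec n) : Real.sqrt (nr R x) = R⁻¹ * ‖x‖ := by
  unfold nr
  exact Real.sqrt_sq (by positivity)

theorem nr_set {R : ℝ} (hR : 0 < R) (r : ℝ) :
    {x : Ec n | Real.sqrt (nr R x) ≤ r} = {x | ‖x‖ ≤ r * R} := by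
  ext x
  change Real.sqrt (nr R x) ≤ r ↔ ‖x‖ ≤ r * R
  rw [sqrt_nr hR, inv_mul_le_iff₀ hR, mul_comm R r]

theorem cvx_nr {R : ℝ} (hR : 0 < R) : Convex ℝ {y : Ec n | nr R y ≤ 1} := by
  have e1 : {y : Ec n | nr R y ≤ 1} = Metric.closedBall 0 R := by
    have h1 := nr_set (n := n) hR 1
    rw [one_mul] at h1
    ext y
    have h2 : Real.sqrt (nr R y) ≤ 1 ↔ ‖y‖ ≤ R := by
      have : y ∈ {x : Ec n | Real.sqrt (nr R x) ≤ 1} ↔ y ∈ {x : Ec n | ‖x‖ ≤ R} := by rw [h1]
      exact this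
    rw [Real.sqrt_le_one] at h2
    rw [mem_closedBall_zero_iff]
    exact h2
  rw [e1]
  exact convex_closedBall _ _

/-- volume inside the ball of radius `r` -/
noncomputable def vb (K : Set (Ec n)) (r : ℝ) : ℝ := volume.real (K ∩ {x | ‖x‖ ≤ r})

theorem nn_nr {R : ℝ} (hR : 0 < R) (K : Set (Ec n)) (r : ℝ) : nn (nr R) K r = vb K (r * R) := by
  unfold nn vb
  rw [nr_set hR]

theorem vb_pos {K : Set (Ec n)} (hK : IsCompact K) (h0 : (0 : Ec n) ∈ interior K) {r : ℝ}
    (hr : 0 < r) : 0 < vb K r := by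
  have h1 := nn_pos (gp_nr 1) hK h0 hr
  rwa [nn_nr one_pos, mul_one] at h1

theorem vb_mono {K : Set (Ec n)} (hK : IsCompact K) {r s : ℝ} (h : r ≤ s) : vb K r ≤ vb K s := by
  have h1 := nn_mono (Φ := nr 1) hK h
  rwa [nn_nr one_pos, nn_nr one_pos, mul_one, mul_one] at h1

theorem vb_le {K : Set (Ec n)} {r : ℝ} (hr : 0 ≤ r) : vb K r ≤ r ^ n * bv n := by
  rw [← ball_r hr]
  refine measureReal_mono (fun x hx => ?_) (isCompact_closedBall _ _).measure_lt_top.ne
  rw [mem_closedBall_zero_iff]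
  exact hx.2

theorem two_scale {K : Set (Ec n)} (hK : IsCompact K) (hc : Convex ℝ K)
    (h0 : (0 : Ec n) ∈ interior K) {r s w g : ℝ} (hr : 0 < r) (hrs : r < s) (hsw : s < w)
    (h : vb K s ≤ Real.exp (-g) * vb K w) :
    vb K r ≤ Real.exp (-(g * ((s - r) / (w - s)))) * vb K s := by
  have hwr : 0 < w - r := by linarith
  have hws : 0 < w - s := by linarith
  obtain ⟨t, ht⟩ : ∃ t, t = (s - r) / (w - r) := ⟨_, rfl⟩
  have ht0 : 0 < t := by rw [ht]; exact div_pos (by linarith) hwr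
  have ht1 : t < 1 := by rw [ht, div_lt_one hwr]; linarith
  have e1 : 1 - t = (w - s) / (w - r) := by
    rw [ht]
    field_simp
    ring
  have e2 : (1 - t) * r + t * w = s := by
    rw [e1, ht]
    field_simp
    ring
  have hcx : ConvexOn ℝ univ fun x : Ec n => ‖x‖ := convexOn_univ_norm
  have h1 := lc_vol hK hc ⟨0, h0⟩ hcx continuous_norm r w ht0 ht1
  rw [e2] at h1
  have hr0 : 0 < vb K r := vb_pos hK h0 hr
  have hs0 : 0 < vb K s := vb_pos hK h0 (by linarith)
  have hw0 : 0 < vb K w := vb_pos hK h0 (by linarith)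
  have h2 : vb K r ^ (1 - t) * vb K w ^ t ≤ vb K s := h1
  have h3 : Real.exp g * vb K s ≤ vb K w := by
    have h4 := mul_le_mul_of_nonneg_left h (Real.exp_pos g).le
    rwa [← mul_assoc, ← Real.exp_add, add_neg_cancel, Real.exp_zero, one_mul] at h4
  have h4 : (Real.exp g * vb K s) ^ t ≤ vb K w ^ t :=
    Real.rpow_le_rpow (by positivity) h3 ht0.le
  have h5 : vb K r ^ (1 - t) * (Real.exp g * vb K s) ^ t ≤ vb K s :=
    (mul_le_mul_of_nonneg_left h4 (by positivity)).trans h2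
  rw [Real.mul_rpow (Real.exp_pos _).le hs0.le, ← Real.exp_mul] at h5
  have e3 : vb K s = vb K s ^ (1 - t) * vb K s ^ t := by
    rw [← Real.rpow_add hs0, sub_add_cancel, Real.rpow_one]
  have h6 : vb K r ^ (1 - t) ≤ Real.exp (-(g * t)) * vb K s ^ (1 - t) := by
    have hst : 0 < vb K s ^ t := Real.rpow_pos_of_pos hs0 _
    have h7 : (vb K r ^ (1 - t) * Real.exp (g * t)) * vb K s ^ t ≤
        vb K s ^ (1 - t) * vb K s ^ t := by
      rw [← e3]
      linarith
    have h8 := le_of_mul_le_mul_right h7 hst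
    have h9 := mul_le_mul_of_nonneg_left h8 (Real.exp_pos (-(g * t))).le
    have e4 : Real.exp (-(g * t)) * (vb K r ^ (1 - t) * Real.exp (g * t)) = vb K r ^ (1 - t) := by
      rw [mul_left_comm, ← Real.exp_add, neg_add_cancel, Real.exp_zero, mul_one]
    rwa [e4] at h9
  have h1t : 0 < 1 - t := by linarith
  have h7 := Real.rpow_le_rpow (by positivity) h6 (inv_nonneg.2 h1t.le)
  rw [← Real.rpow_mul hr0.le, mul_inv_cancel₀ h1t.ne', Real.rpow_one,
    Real.mul_rpow (Real.exp_pos _).le (by positivity), ← Real.rpow_mul hs0.le,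
    mul_inv_cancel₀ h1t.ne', Real.rpow_one, ← Real.exp_mul] at h7
  have e4 : -(g * t) * (1 - t)⁻¹ = -(g * ((s - r) / (w - s))) := by
    rw [e1, ht]
    field_simp
  rw [e4] at h7
  exact h7

/-- Markov -/
theorem vb_markov {K : Set (Ec n)} (hK : IsCompact K) {r S : ℝ} (hr : 0 < r)
    (h : ∫ x in K, ‖x‖ ^ 2 ≤ S) (hS : 2 * S ≤ r ^ 2 * volume.real K) :
    volume.real K / 2 ≤ vb K r := by
  have hm : MeasurableSet {x : Ec n | ‖x‖ ≤ r} :=
    (isClosed_le continuous_norm continuous_const).measurableSet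
  have hi : IntegrableOn ({x : Ec n | ‖x‖ ≤ r}.indicator (fun _ => (1 : ℝ))) K :=
    (integrableOn_const hK.measure_lt_top.ne).indicator hm
  have h1 : ∫ x in K, r ^ 2 * (1 - {x : Ec n | ‖x‖ ≤ r}.indicator (fun _ => (1 : ℝ)) x) ≤
      ∫ x in K, ‖x‖ ^ 2 := by
    refine setIntegral_mono_on (((cint hK continuous_const).sub hi).const_mul _)
      (cint hK (by fun_prop)) hK.measurableSet fun x _ => ?_
    by_cases hx : x ∈ {x : Ec n | ‖x‖ ≤ r}
    · rw [indicator_of_mem hx]
      have := sq_nonneg ‖x‖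
      linarith
    · rw [indicator_of_notMem hx, sub_zero, mul_one]
      have h2 : r < ‖x‖ := by
        by_contra hcon
        push Not at hcon
        exact hx hcon
      exact pow_le_pow_left₀ hr.le h2.le 2
  have e1 : ∫ x in K, r ^ 2 * (1 - {x : Ec n | ‖x‖ ≤ r}.indicator (fun _ => (1 : ℝ)) x) =
      r ^ 2 * (volume.real K - vb K r) := by
    rw [integral_const_mul, integral_sub (cint hK continuous_const) hi,
      setIntegral_indicator hm, setIntegral_const, setIntegral_const, smul_eq_mul, mul_one,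
      smul_eq_mul, mul_one]
    rfl
  rw [e1] at h1
  have h2 : 2 * (r ^ 2 * (volume.real K - vb K r)) ≤ r ^ 2 * volume.real K := by linarith
  have h3 : r ^ 2 * (2 * (volume.real K - vb K r)) ≤ r ^ 2 * volume.real K := by linarith
  have h4 := le_of_mul_le_mul_left h3 (by positivity)
  linarith

/-- homothety -/
theorem vb_scale {K : Set (Ec n)} (hK : IsCompact K) (hc : Convex ℝ K) (h0 : (0 : Ec n) ∈ K)
    {r s : ℝ} (hr : 0 < r) (hrs : r ≤ s) : (r / s) ^ n * vb K s ≤ vb K r := by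
  have hs : 0 < s := by linarith
  have hd0 : 0 < r / s := by positivity
  have hd1 : r / s ≤ 1 := (div_le_one hs).2 hrs
  have hsub : (r / s) • (K ∩ {x : Ec n | ‖x‖ ≤ s}) ⊆ K ∩ {x : Ec n | ‖x‖ ≤ r} := by
    rintro _ ⟨y, hy, rfl⟩
    constructor
    · have := hc h0 hy.1 (by linarith : (0 : ℝ) ≤ 1 - r / s) hd0.le (by ring)
      simpa using this
    · have h1 : ‖y‖ ≤ s := hy.2
      change ‖(r / s) • y‖ ≤ r
      rw [norm_smul, Real.norm_eq_abs, abs_of_pos hd0]
      calc r / s * ‖y‖ ≤ r / s * s := mul_le_mul_of_nonneg_left h1 hd0.le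
        _ = r := by field_simp
  have h1 := measureReal_mono hsub (((measure_mono inter_subset_left).trans_lt
    hK.measure_lt_top).ne : volume (K ∩ {x : Ec n | ‖x‖ ≤ r}) ≠ ⊤)
  refine le_trans (le_of_eq ?_) h1
  unfold vb Measure.real
  rw [Measure.addHaar_smul, finrank_euclideanSpace_fin, ENNReal.toReal_mul,
    ENNReal.toReal_ofReal (abs_nonneg _), abs_of_pos (by positivity)]

end Pool.Agent.V7H69.IK
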