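import Pool.Agent.V7H69.IK.Tr

/-!
# Truncations by balls: all small radii
-/

set_option autoImplicit false

namespace Pool.Agent.V7H69.IK

open MeasureTheory Set Filter Topology
open scoped ENNReal InnerProductSpace Pointwise
open Pool.Agent.Results.MP_dc1397_gt.GibbsLevelSets (HyperplaneBound)

variable {n : ℕ}

/-- growth of the volume -/
theorem growth {K : Set (Ec n)} (hK : IsCompact K) (hc : Convex ℝ K)
    (h0 : (0 : Ec n) ∈ interior K) (hn : 1 ≤ n) {ℓ m R δ : ℝ} (hℓ : 1 ≤ ℓ) (hm : 2 ≤ m)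
    (hmn : m ≤ n) (hR : 0 < R) (hδ0 : 0 < δ) (hδ1 : δ < 1)
    (hS : ∫ x in K, ‖x‖ ^ 2 ≤ ℓ ^ 2 * n * volume.real K ^ (1 + 2 / (n : ℝ)))
    (h : vb K R ≤ Real.exp (-m) * volume.real K) :
    vb K ((1 - δ) * R) ≤ Real.exp (-(m / (78 * ℓ) * δ)) * vb K R := by
  have hn0 : (0 : ℝ) < n := by exact_mod_cast hn
  have hv0 : 0 < volume.real K := by
    refine ENNReal.toReal_pos ?_ hK.measure_lt_top.ne
    exact (lt_of_lt_of_le (isOpen_interior.measure_pos volume ⟨0, h0⟩)
      (measure_mono interior_subset)).ne'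
  obtain ⟨v, hv⟩ : ∃ v, v = volume.real K := ⟨_, rfl⟩
  rw [← hv] at hS h hv0
  obtain ⟨q, hq⟩ : ∃ q, q = v ^ (1 / (n : ℝ)) := ⟨_, rfl⟩
  have hq0 : 0 < q := by rw [hq]; exact Real.rpow_pos_of_pos hv0 _
  have hqn : q ^ n = v := by
    rw [hq, ← Real.rpow_natCast, ← Real.rpow_mul hv0.le, one_div_mul_cancel hn0.ne', Real.rpow_one]
  have e0 : v ^ (1 + 2 / (n : ℝ)) = v * q ^ 2 := by
    rw [Real.rpow_add hv0, Real.rpow_one, hq, ← Real.rpow_natCast (v ^ (1 / (n : ℝ))),
      ← Real.rpow_mul hv0.le]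
    congr 2
    push_cast
    ring
  rw [e0] at hS
  obtain ⟨R₁, hR₁⟩ : ∃ R₁, R₁ = Real.sqrt 2 * ℓ * Real.sqrt n * q := ⟨_, rfl⟩
  have hs2 : 0 < Real.sqrt 2 := Real.sqrt_pos.2 two_pos
  have hsn : 0 < Real.sqrt n := Real.sqrt_pos.2 hn0
  have hR₁0 : 0 < R₁ := by rw [hR₁]; positivity
  have hR₁2 : R₁ ^ 2 = 2 * ℓ ^ 2 * n * q ^ 2 := by
    rw [hR₁, mul_pow, mul_pow, mul_pow, Real.sq_sqrt two_pos.le, Real.sq_sqrt hn0.le]
  have hM : v / 2 ≤ vb K R₁ := by
    rw [hv]
    refine vb_markov hK hR₁0 hS ?_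
    rw [← hv, hR₁2]
    refine le_of_eq ?_
    ring
  have he2 : Real.exp (-(m / 2)) ≤ 1 / 2 := by
    have h1 : Real.exp (-(m / 2)) ≤ Real.exp (-1) := Real.exp_le_exp.2 (by linarith)
    refine h1.trans ?_
    have h2 := Real.exp_one_gt_d9
    rw [Real.exp_neg, one_div]
    exact inv_anti₀ two_pos (by linarith)
  have e1 : Real.exp (-m) = Real.exp (-(m / 2)) * Real.exp (-(m / 2)) := by
    rw [← Real.exp_add]
    congr 1
    ring
  have hexp0 := Real.exp_pos (-(m / 2))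
  have h1 : vb K R ≤ Real.exp (-(m / 2)) * (v / 2) := by
    refine h.trans ?_
    rw [e1, mul_assoc]
    refine mul_le_mul_of_nonneg_left ?_ hexp0.le
    nlinarith
  have hRR : R < R₁ := by
    by_contra hcon
    push Not at hcon
    have h2 := vb_mono hK hcon
    have h3 : Real.exp (-(m / 2)) * (v / 2) ≤ 1 / 2 * (v / 2) :=
      mul_le_mul_of_nonneg_right he2 (by positivity)
    linarith
  have hr0 : 0 < (1 - δ) * R := mul_pos (by linarith) hR
  have hr1 : (1 - δ) * R < R := by nlinarith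
  have hvR : 0 < vb K R := vb_pos hK h0 hR
  by_cases hcase : R₁ ≤ 39 * ℓ * R
  · have h2 : vb K R ≤ Real.exp (-(m / 2)) * vb K R₁ :=
      h1.trans (mul_le_mul_of_nonneg_left hM hexp0.le)
    have h3 := two_scale hK hc h0 hr0 hr1 hRR h2
    refine h3.trans (mul_le_mul_of_nonneg_right (Real.exp_le_exp.2 ?_) hvR.le)
    have h4 : δ / (39 * ℓ) ≤ (R - (1 - δ) * R) / (R₁ - R) := by
      have e2 : R - (1 - δ) * R = δ * R := by ring
      rw [e2, div_le_div_iff₀ (by positivity) (by linarith)]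
      nlinarith
    have h5 := mul_le_mul_of_nonneg_left h4 (by linarith : 0 ≤ m / 2)
    have e3 : m / (78 * ℓ) * δ = m / 2 * (δ / (39 * ℓ)) := by
      field_simp
      norm_num
    linarith
  · push Not at hcase
    have hw : R < 39 * ℓ * R := by nlinarith
    have h2 : vb K R ≤ Real.exp (-(n : ℝ)) * vb K (39 * ℓ * R) := by
      have h3 := vb_scale hK hc (interior_subset h0) (by positivity : 0 < 39 * ℓ * R) hcase.le
      have h4 : (39 * ℓ * R / R₁) ^ n * (v / 2) ≤ vb K (39 * ℓ * R) :=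
        (mul_le_mul_of_nonneg_left hM (by positivity)).trans h3
      have e2 : (39 * ℓ * R / R₁) ^ n * (v / 2) = 1 / 2 * (39 * R / (Real.sqrt 2 * Real.sqrt n)) ^ n := by
        rw [← hqn, hR₁]
        have : 39 * ℓ * R / (Real.sqrt 2 * ℓ * Real.sqrt n * q) =
            39 * R / (Real.sqrt 2 * Real.sqrt n) * q⁻¹ := by
          field_simp
        rw [this, mul_pow, inv_pow]
        field_simp
      rw [e2] at h4
      have h5 : vb K R ≤ (5 * R / Real.sqrt n) ^ n := by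
        refine (vb_le hR.le).trans ?_
        have h6 := bv_le n
        rw [div_pow, mul_pow, le_div_iff₀ (by positivity)]
        calc R ^ n * bv n * Real.sqrt n ^ n = R ^ n * (Real.sqrt n ^ n * bv n) := by ring
          _ ≤ R ^ n * 5 ^ n := mul_le_mul_of_nonneg_left h6 (by positivity)
          _ = _ := by ring
      have h6 : (5 * R / Real.sqrt n) ^ n ≤
          Real.exp (-(n : ℝ)) * (1 / 2 * (39 * R / (Real.sqrt 2 * Real.sqrt n)) ^ n) := by
        have e3 : Real.exp (-(n : ℝ)) = Real.exp (-1) ^ n := by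
          rw [← Real.exp_nat_mul]
          congr 1
          ring
        have h7 : (2 : ℝ) ≤ 2 ^ n := by
          calc (2 : ℝ) = 2 ^ 1 := (pow_one 2).symm
            _ ≤ 2 ^ n := pow_le_pow_right₀ one_le_two hn
        have h8 : 2 * (5 * R / Real.sqrt n) ≤
            Real.exp (-1) * (39 * R / (Real.sqrt 2 * Real.sqrt n)) := by
          have h9 : 10 ≤ Real.exp (-1) * (39 / Real.sqrt 2) := by
            have h10 : Real.sqrt 2 ≤ 1.4143 := by
              rw [Real.sqrt_le_iff]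
              norm_num
            have h11 := Real.exp_one_lt_d9
            have h12 := Real.exp_pos 1
            rw [Real.exp_neg, inv_mul_eq_div, div_div, le_div_iff₀ (by positivity)]
            have h13 : Real.sqrt 2 * Real.exp 1 ≤ 1.4143 * 2.7182818286 :=
              mul_le_mul h10 h11.le h12.le (by norm_num)
            linarith
          have e4 : 2 * (5 * R / Real.sqrt n) = 10 * (R / Real.sqrt n) := by ring
          have e5 : Real.exp (-1) * (39 * R / (Real.sqrt 2 * Real.sqrt n)) =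
              Real.exp (-1) * (39 / Real.sqrt 2) * (R / Real.sqrt n) := by
            field_simp
          rw [e4, e5]
          exact mul_le_mul_of_nonneg_right h9 (by positivity)
        have h9 : 2 * (5 * R / Real.sqrt n) ^ n ≤
            (Real.exp (-1) * (39 * R / (Real.sqrt 2 * Real.sqrt n))) ^ n := by
          calc 2 * (5 * R / Real.sqrt n) ^ n ≤ 2 ^ n * (5 * R / Real.sqrt n) ^ n :=
                mul_le_mul_of_nonneg_right h7 (by positivity)
            _ = (2 * (5 * R / Real.sqrt n)) ^ n := by rw [mul_pow]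
            _ ≤ _ := pow_le_pow_left₀ (by positivity) h8 n
        rw [e3]
        rw [mul_pow] at h9
        linarith
      refine h5.trans (h6.trans ?_)
      exact mul_le_mul_of_nonneg_left h4 (Real.exp_pos _).le
    have h3 := two_scale hK hc h0 hr0 hr1 hw h2
    refine h3.trans (mul_le_mul_of_nonneg_right (Real.exp_le_exp.2 ?_) hvR.le)
    have h4 : δ / (39 * ℓ) ≤ (R - (1 - δ) * R) / (39 * ℓ * R - R) := by
      have e2 : R - (1 - δ) * R = δ * R := by ring
      rw [e2, div_le_div_iff₀ (by positivity) (by linarith)]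
      have : 0 < δ * R := by positivity
      nlinarith
    have h5 := mul_le_mul_of_nonneg_left h4 hn0.le
    have h6 : m / (78 * ℓ) * δ ≤ n * (δ / (39 * ℓ)) := by
      have e3 : m / (78 * ℓ) * δ = m / 2 * (δ / (39 * ℓ)) := by
        field_simp
        norm_num
      rw [e3]
      exact mul_le_mul_of_nonneg_right (by linarith) (by positivity)
    linarith

/-- **Truncations**, compact form -/
theorem trunc : ∃ C : ℝ, 0 < C ∧ ∀ (ℓ m R : ℝ), 1 ≤ ℓ → 2 ≤ m → 0 < R →
    ∀ (n : ℕ) (K : Set (Ec n)), m ≤ n → IsCompact K → Convex ℝ K → (0 : Ec n) ∈ interior K →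
    (∀ x ∈ K, -x ∈ K) →
    ∫ x in K, ‖x‖ ^ 2 ≤ ℓ ^ 2 * n * volume.real K ^ (1 + 2 / (n : ℝ)) →
    vb K R ≤ Real.exp (-m) * volume.real K →
    HyperplaneBound (C * ℓ * Real.sqrt (n / m)) (interior (K ∩ {x | ‖x‖ ≤ R})) := by
  obtain ⟨C, hC, H⟩ := shell_tr
  refine ⟨C * 80, by positivity, fun ℓ m R hℓ hm hR n K hmn hK hc h0 hs hS h => ?_⟩
  have hn2 : (2 : ℝ) ≤ n := hm.trans hmn
  have hn0 : (0 : ℝ) < n := by linarith
  have hn : 1 ≤ n := by
    have : (1 : ℝ) ≤ n := by linarith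
    exact_mod_cast this
  have hm0 : 0 < m := by linarith
  obtain ⟨p, hp⟩ : ∃ p, p = m / (78 * ℓ) := ⟨_, rfl⟩
  obtain ⟨δ, hδ⟩ : ∃ δ : ℝ, δ = 1 / (2 * n) := ⟨_, rfl⟩
  have hp0 : 0 < p := by rw [hp]; positivity
  have hδ0 : 0 < δ := by rw [hδ]; positivity
  have hδ2 : δ ≤ 1 / 2 := by
    rw [hδ]
    exact one_div_le_one_div_of_le two_pos (by linarith)
  have hpn : p ≤ n := by
    rw [hp, div_le_iff₀ (by positivity)]
    nlinarith
  have hpd : 2 * p * δ ≤ 1 := by
    rw [hδ, mul_one_div, div_le_one (by positivity)]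
    linarith
  have h1 := growth hK hc h0 hn hℓ hm hmn hR hδ0 (by linarith) hS h
  have ha : 0 < R⁻¹ ^ 2 := by positivity
  have h2 := H p δ (R⁻¹ ^ 2) (R⁻¹ ^ 2) hp0 hδ0 hδ2 hpd ha ha n K (nr R) hn (gh_nr R) (mid_nr R)
    (fun x => by unfold nr; rw [mul_pow]) (cvx_nr hR) hK hc h0 hs (by
      rw [nn_nr hR, nn_nr hR, one_mul, hp]
      exact h1)
  have e1 : om (nr R) K = K ∩ {x | ‖x‖ ≤ R} := by
    rw [om_eq, nr_set hR, one_mul]
  rw [e1] at h2
  refine hb_mono ?_ h2
  rw [div_self ha.ne', one_mul]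
  have h3 : Real.sqrt (n * (2 + p) / p ^ 2) ≤ 80 * ℓ * Real.sqrt (n / m) := by
    rw [← Real.sqrt_sq (show 0 ≤ 80 * ℓ * Real.sqrt (n / m) by positivity)]
    refine Real.sqrt_le_sqrt ?_
    rw [mul_pow, mul_pow, Real.sq_sqrt (by positivity)]
    have e2 : n * (2 + p) / p ^ 2 = n * (12168 * ℓ ^ 2 / m ^ 2 + 78 * ℓ / m) := by
      rw [hp]
      field_simp
      ring
    rw [e2]
    have h4 : 12168 * ℓ ^ 2 / m ^ 2 + 78 * ℓ / m ≤ 6400 * ℓ ^ 2 / m := by
      rw [div_add_div _ _ (by positivity) (by positivity), div_le_div_iff₀ (by positivity)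
        (by positivity)]
      have h5 : ℓ ≤ ℓ ^ 2 := by nlinarith
      have h6 : 0 < ℓ ^ 2 * m ^ 2 := by positivity
      have h7 : ℓ * (m ^ 2 * m) ≤ ℓ ^ 2 * (m ^ 2 * m) :=
        mul_le_mul_of_nonneg_right h5 (by positivity)
      have h8 : 2 * (ℓ ^ 2 * m ^ 2) ≤ ℓ ^ 2 * (m ^ 2 * m) := by nlinarith
      nlinarith
    calc n * (12168 * ℓ ^ 2 / m ^ 2 + 78 * ℓ / m) ≤ n * (6400 * ℓ ^ 2 / m) :=
          mul_le_mul_of_nonneg_left h4 hn0.le
      _ = 80 ^ 2 * ℓ ^ 2 * (n / m) := by ring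
  calc C * Real.sqrt (n * (2 + p) / p ^ 2) ≤ C * (80 * ℓ * Real.sqrt (n / m)) :=
        mul_le_mul_of_nonneg_left h3 hC.le
    _ = C * 80 * ℓ * Real.sqrt (n / m) := by ring

end Pool.Agent.V7H69.IK
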