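import Pool.Agent.V7H69.IK.Fin

/-!
# The two theorems for compact bodies
-/

set_option autoImplicit false

namespace Pool.Agent.V7H69.IK

open MeasureTheory Set Filter Topology
open scoped ENNReal InnerProductSpace Pointwise
open Pool.Agent.W695.KH (Eu EU EV VV Sm Pot Uu sec PerLe sec_bound perim)
open Pool.Agent.Y506.RG (EW VW Adm Star EW_aff star_aff star_of)
open Pool.Agent.Y506.PV (CcW ind adm_ind VV_VW EV_EW)
open Pool.Agent.Results.MP_dc1397_gt.GibbsLevelSets (HyperplaneBound perimeter sectionArea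
  perimeter_eq)

variable {n : ℕ}

theorem hyperW : ∃ C : ℝ, 0 < C ∧ ∀ (n : ℕ) (P : Set (Ec n)), 1 ≤ n →
    IsCompact P → Convex ℝ P → (interior P).Nonempty → (∀ x ∈ P, -x ∈ P) →
    ∀ K s0 : ℝ, 0 < K → 0 < s0 →
    (∃ θ : Ec n, ‖θ‖ = 1 ∧ s0 ≤ EW (ind P) fun x => ⟪x, θ⟫_ℝ ^ 2) →
    (∀ (g : Ec n → ℝ) (L' M' : ℝ), Sm g L' M' → (∀ x, |g x| ≤ 1 / 2) → 1 / 5 < VW (ind P) g →
      VW (ind P) g ≤ K * EW (ind P) fun x => ‖fderiv ℝ g x‖) →
    HyperplaneBound (C * (K / Real.sqrt s0)) (interior P) := by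
  obtain ⟨C, hC, H'⟩ := hypw
  refine ⟨C, hC, fun n P hn h1 h2 h3 hs K s0 hK hs0 hθ hmil => ?_⟩
  have hcl : closure (interior P) = P := by
    rw [h2.closure_interior_eq_closure_of_nonempty_interior h3, h1.isClosed.closure_eq]
  have hEV : ∀ v : Ec n → ℝ, EV (interior P) v = EW (ind P) v := by
    intro v
    rw [← Pool.Agent.Y151.PV.EV_closure isOpen_interior h2.interior v, hcl,
      EV_EW P h1.measurableSet]
  obtain ⟨a, ha, h⟩ := H' n hn (interior P) isOpen_interior h2.interior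
    (h1.isBounded.subset interior_subset) (zero_int h2 h3 hs) (symm_int hs) K s0 hK hs0
    (by
      obtain ⟨θ, hθ1, hθ2⟩ := hθ
      refine ⟨θ, hθ1, ?_⟩
      rw [hEV]
      have e1 : (fun x : Ec n => ⟪θ, x⟫_ℝ ^ 2) = fun x => ⟪x, θ⟫_ℝ ^ 2 := by
        funext x
        rw [real_inner_comm]
      rwa [e1])
    (by
      intro g L' M' hg hb hV
      have e1 : ∀ v : Ec n → ℝ, VV (interior P) v = VW (ind P) v := by
        intro v
        unfold VV VW
        rw [hEV, hEV]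
      rw [e1] at hV ⊢
      rw [hEV]
      exact hmil g L' M' hg hb hV)
  refine ⟨a, ha, fun E hE hEΩ hvol => ?_⟩
  rw [← perimeter_eq]
  have hp0 : 0 < K / Real.sqrt s0 := div_pos hK (Real.sqrt_pos.2 hs0)
  by_cases hp : Pool.Agent.W695.KH.per E (interior P) = ⊤
  · rw [hp, ENNReal.mul_top (ENNReal.ofReal_pos.2 (by positivity)).ne']
    exact le_top
  · refine (h E hE hEΩ hvol _ (Pool.Agent.W695.KH.perLe_toReal E _ hp)).trans (le_of_eq ?_)
    rw [ENNReal.ofReal_mul (by positivity), ENNReal.ofReal_toReal hp]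

/-- **Theorem B**, compact form -/
theorem thmB : ∃ C : ℝ, 0 < C ∧ ∀ (α : ℝ), 0 < α → α < 1 → ∀ (n : ℕ) (L : Set (Ec n)), 1 ≤ n →
    IsCompact L → Convex ℝ L → (0 : Ec n) ∈ interior L → (∀ x ∈ L, -x ∈ L) →
    Pos α (α / 8) L → ∀ T : Ec n ≃ₗ[ℝ] Ec n,
    HyperplaneBound (C * Real.sqrt (n * (2 + α * n) / (α * n) ^ 2))
      (interior (T '' om nq L)) := by
  obtain ⟨C, hC, H⟩ := hyper_lin
  refine ⟨C * 600, by positivity, fun α ha hb n L hn hL hc h0 hs hp T => ?_⟩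
  have hn0 : (0 : ℝ) < n := by exact_mod_cast hn
  have hΩ := om_comp gp_nq hL
  have hΩc := cvx_nq L hc
  have hΩi : (interior (om nq L)).Nonempty := ⟨0, int_om gp_nq h0⟩
  obtain ⟨κ, hκ⟩ : ∃ κ, κ = Real.sqrt ((α * n) ^ 2 / (79200 * n * (2 + α * n))) := ⟨_, rfl⟩
  have hκ0 : 0 < κ := by rw [hκ]; exact Real.sqrt_pos.2 (by positivity)
  have h1 := cc_om ha hb hL hc hs h0 hn hp
  rw [← hκ] at h1
  have h2 := stb_lin hκ0 hΩ hΩc hΩi h1
  have h3 := star_img hΩ hΩi h2 T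
  have hTc : Continuous T := T.toLinearMap.continuous_of_finiteDimensional
  have hTi : (interior (T '' om nq L)).Nonempty := by
    obtain ⟨x, hx⟩ := hΩi
    have h4 : IsOpen (T '' interior (om nq L)) :=
      T.toContinuousLinearEquiv.toHomeomorph.isOpenMap _ isOpen_interior
    exact ⟨T x, interior_maximal (image_mono interior_subset) h4 ⟨x, hx, rfl⟩⟩
  have h5 := H (2 / κ) (by positivity) n (T '' om nq L) hn (hΩ.image hTc)
    (hΩc.linear_image T.toLinearMap) hTi h3 (by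
      rintro _ ⟨x, hx, rfl⟩
      exact ⟨-x, om_symm gp_nq hs x hx, map_neg T x⟩)
  refine hb_mono ?_ h5
  have h6 : 2 / κ ≤ 600 * Real.sqrt (n * (2 + α * n) / (α * n) ^ 2) := by
    rw [div_le_iff₀ hκ0]
    have h7 : (600 * Real.sqrt (n * (2 + α * n) / (α * n) ^ 2) * κ) ^ 2 ≥ 2 ^ 2 := by
      rw [mul_pow, mul_pow, Real.sq_sqrt (by positivity), hκ, Real.sq_sqrt (by positivity)]
      have e1 : 600 ^ 2 * (n * (2 + α * n) / (α * n) ^ 2) *
          ((α * n) ^ 2 / (79200 * n * (2 + α * n))) = 600 ^ 2 / 79200 := by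
        field_simp
      rw [e1]
      norm_num
    have h8 : 0 ≤ 600 * Real.sqrt (n * (2 + α * n) / (α * n) ^ 2) * κ := by positivity
    nlinarith
  calc C * (2 / κ) ≤ C * (600 * Real.sqrt (n * (2 + α * n) / (α * n) ^ 2)) :=
        mul_le_mul_of_nonneg_left h6 hC.le
    _ = _ := by ring

/-- the largest second moment -/
theorem mom_low {c : ℝ} {Φ : Ec n → ℝ} (hΦ : GP Φ) {b : ℝ}
    (hb0 : 0 < b) (hup : ∀ x, Φ x ≤ b * ‖x‖ ^ 2) {L : Set (Ec n)} (hL : IsCompact L)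
    (h0 : (0 : Ec n) ∈ interior L) (hn : 1 ≤ n) (h1 : c * vv Φ L ≤ vv Φ L - jj Φ L) :
    ∃ θ : Ec n, ‖θ‖ = 1 ∧ c / (b * n) ≤ EW (ind (om Φ L)) fun x => ⟪x, θ⟫_ℝ ^ 2 := by
  have hcΦ := hΦ.cont
  have hΩ := om_comp hΦ hL
  have hV := vv_pos hΦ hL h0
  have hn0 : (0 : ℝ) < n := by exact_mod_cast hn
  have e1 : vv Φ L - jj Φ L = ∫ y in om Φ L, Φ y := by
    have e2 : vv Φ L = ∫ y in om Φ L, (1 : ℝ) := by
      rw [setIntegral_const, smul_eq_mul, mul_one]
      rfl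
    unfold jj
    rw [e2, ← integral_sub (cint hΩ continuous_const) (cint hΩ (by fun_prop))]
    refine setIntegral_congr_fun hΩ.measurableSet fun y _ => ?_
    ring
  have h2 : ∫ y in om Φ L, Φ y ≤ b * ∫ y in om Φ L, ‖y‖ ^ 2 := by
    rw [← integral_const_mul]
    exact setIntegral_mono (cint hΩ hcΦ) (cint hΩ (by fun_prop)) fun y => hup y
  have e3 : ∫ y in om Φ L, ‖y‖ ^ 2 = ∑ i : Fin n, ∫ y in om Φ L,
      ⟪y, EuclideanSpace.single i (1 : ℝ)⟫_ℝ ^ 2 := by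
    rw [← integral_finsetSum _ (fun i _ => cint hΩ (by fun_prop))]
    refine setIntegral_congr_fun hΩ.measurableSet fun y _ => ?_
    rw [EuclideanSpace.real_norm_sq_eq]
    refine Finset.sum_congr rfl fun i _ => ?_
    rw [EuclideanSpace.inner_single_right]
    simp
  by_contra hcon
  push Not at hcon
  have hlt : ∀ i : Fin n, ∫ y in om Φ L, ⟪y, EuclideanSpace.single i (1 : ℝ)⟫_ℝ ^ 2 <
      c / (b * n) * vv Φ L := by
    intro i
    have h3 := hcon (EuclideanSpace.single i (1 : ℝ)) (by simp)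
    rw [EW_om hΦ hL, div_lt_iff₀ hV] at h3
    exact h3
  have h4 : ∫ y in om Φ L, ‖y‖ ^ 2 < n * (c / (b * n) * vv Φ L) := by
    rw [e3]
    have h5 := Finset.sum_lt_sum_of_nonempty (s := (Finset.univ : Finset (Fin n)))
      (by
        have : Nonempty (Fin n) := ⟨⟨0, by omega⟩⟩
        exact Finset.univ_nonempty) fun i _ => hlt i
    rw [Finset.sum_const, Finset.card_univ, Fintype.card_fin, nsmul_eq_mul] at h5
    exact h5
  have h5 : b * ∫ y in om Φ L, ‖y‖ ^ 2 < c * vv Φ L := by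
    have h6 := mul_lt_mul_of_pos_left h4 hb0
    refine h6.trans_le (le_of_eq ?_)
    field_simp
  rw [e1] at h1
  linarith

/-- **Theorem A**, compact form -/
theorem thmA : ∃ C : ℝ, 0 < C ∧ ∀ (p a v : ℝ), 0 < p → 0 < a → 0 < v →
    ∀ (n : ℕ) (L : Set (Ec n)) (Φ : Ec n → ℝ), 1 ≤ n → GP Φ → Mid a Φ →
    Convex ℝ {y | Φ y ≤ 1} →
    IsCompact L → Convex ℝ L → (0 : Ec n) ∈ interior L → (∀ x ∈ L, -x ∈ L) →
    ∫ y in om Φ L, Real.exp (p / 4 * (1 - Φ y)) ≤ 33 * vv Φ L →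
    (∃ θ : Ec n, ‖θ‖ = 1 ∧ v ≤ EW (ind (om Φ L)) fun x => ⟪x, θ⟫_ℝ ^ 2) →
    HyperplaneBound (C / Real.sqrt (p * a * v)) (interior (om Φ L)) := by
  obtain ⟨C, hC, H⟩ := hyperW
  refine ⟨C * 100, by positivity, fun p a v hp ha0 hv n L Φ hn hΦ hm hcv hL hc h0 hs
    hM hθ => ?_⟩
  have hΩ := om_comp hΦ hL
  have hΩc : Convex ℝ (om Φ L) := hc.inter hcv
  have hΩi : (interior (om Φ L)).Nonempty := ⟨0, int_om hΦ h0⟩
  have hvol : 0 < volume (om Φ L) :=
    lt_of_lt_of_le (isOpen_interior.measure_pos volume hΩi) (measure_mono interior_subset)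
  obtain ⟨l, hl⟩ : ∃ l, l = Real.sqrt (p * a / 1650) := ⟨_, rfl⟩
  have hl0 : 0 < l := by rw [hl]; exact Real.sqrt_pos.2 (by positivity)
  have hl2 : l ^ 2 = p * a / 1650 := by rw [hl]; exact Real.sq_sqrt (by positivity)
  have hlc : Pool.Agent.Y506.FF.LCon (om Φ L) l (1 / 25) := by
    intro v hv _ hvl
    rw [VV_VW _ hΩ.measurableSet]
    refine (pnc' hp hΦ ha0 hm hL hΩc h0 hM hl0.le v hv hvl).trans (le_of_eq ?_)
    rw [hl2]
    field_simp
    norm_num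
  have h1 := H n (om Φ L) hn hΩ hΩc hΩi (om_symm hΦ hs) (2 / l) v (by positivity) hv hθ
    (by
      intro g L' M' hg hgb hV
      have key := Pool.Agent.Y665.FF.milb Pool.Agent.Y445.FF.mila' (Fin n) (om Φ L) hΩ hΩc hvol
        (1 / 25) l (by norm_num) hl0 hlc g L' M' hg hgb (by
          rw [VV_VW _ hΩ.measurableSet]
          linarith)
      rw [VV_VW _ hΩ.measurableSet, EV_EW _ hΩ.measurableSet] at key
      exact key)
  refine hb_mono ?_ h1
  have hss : 0 < Real.sqrt v := Real.sqrt_pos.2 hv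
  have hpa : 0 < p * a * v := by positivity
  have hsp : 0 < Real.sqrt (p * a * v) := Real.sqrt_pos.2 hpa
  have h2 : 2 / l / Real.sqrt v ≤ 100 / Real.sqrt (p * a * v) := by
    have h3 : (2 / l / Real.sqrt v) ^ 2 ≤ (100 / Real.sqrt (p * a * v)) ^ 2 := by
      rw [div_pow, div_pow, div_pow, Real.sq_sqrt hv.le, Real.sq_sqrt hpa.le, hl2]
      have e1 : 2 ^ 2 / (p * a / 1650) / v = 6600 / (p * a * v) := by
        field_simp
        norm_num
      rw [e1]
      exact div_le_div_of_nonneg_right (by norm_num) hpa.le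
    exact abs_le_of_sq_le_sq' h3 (by positivity) |>.2
  calc C * (2 / l / Real.sqrt v) ≤ C * (100 / Real.sqrt (p * a * v)) :=
        mul_le_mul_of_nonneg_left h2 hC.le
    _ = C * 100 / Real.sqrt (p * a * v) := by ring

end Pool.Agent.V7H69.IK
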