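import Pool.Agent.V7H69.IK.Pos
import Pool.Agent.Y506.PV.Stb
import Pool.Agent.Y211.PV.Iso
import Pool.Agent.H888R2.KT.N1

/-!
# Concentration for the cut bodies
-/

set_option autoImplicit false

namespace Pool.Agent.V7H69.IK

open MeasureTheory Set Filter Topology
open scoped ENNReal InnerProductSpace
open Pool.Agent.Y506.RG (EW VW Adm)
open Pool.Agent.Y506.PV (CcW ind)

variable {n : ℕ}

/-- uniform convexity at midpoints -/
def Mid (a : ℝ) (Φ : Ec n → ℝ) : Prop := ∀ x y, Φ ((1 / 2 : ℝ) • (x + y)) ≤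
  (Φ x + Φ y) / 2 - a * ‖x - y‖ ^ 2 / 4

theorem mid_nq : Mid 1 (nq (n := n)) := by
  intro x y
  have h1 := parallelogram_law_with_norm ℝ x y
  unfold nq
  rw [norm_smul, Real.norm_eq_abs, abs_of_pos (by norm_num : (0 : ℝ) < 1 / 2), mul_pow]
  refine le_of_eq ?_
  linear_combination (1 / 4) * h1

theorem int_om {Φ : Ec n → ℝ} (hΦ : GP Φ) {L : Set (Ec n)} (h0 : (0 : Ec n) ∈ interior L) :
    (0 : Ec n) ∈ interior (om Φ L) := by
  unfold om
  rw [interior_inter]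
  refine ⟨h0, ?_⟩
  refine mem_interior.2 ⟨{y | Φ y < 1}, fun y hy => (show Φ y < 1 from hy).le,
    isOpen_lt hΦ.cont continuous_const, ?_⟩
  change Φ 0 < 1
  rw [hΦ.zero]
  exact one_pos

theorem vv_pos {Φ : Ec n → ℝ} (hΦ : GP Φ) {L : Set (Ec n)} (hL : IsCompact L)
    (h0 : (0 : Ec n) ∈ interior L) : 0 < vv Φ L := by
  unfold vv
  refine ENNReal.toReal_pos ?_ (om_comp hΦ hL).measure_lt_top.ne
  exact (lt_of_lt_of_le (isOpen_interior.measure_pos volume ⟨0, int_om hΦ h0⟩)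
    (measure_mono interior_subset)).ne'

theorem EW_om {Φ : Ec n → ℝ} (hΦ : GP Φ) {L : Set (Ec n)} (hL : IsCompact L) (f : Ec n → ℝ) :
    EW (ind (om Φ L)) f = (∫ y in om Φ L, f y) / vv Φ L := by
  unfold EW vv
  rw [Pool.Agent.Y506.PV.int_ind _ (om_comp hΦ hL).measurableSet,
    Pool.Agent.Y506.PV.int_ind1 _ (om_comp hΦ hL).measurableSet]
  rfl

theorem odd_int {Ω : Set (Ec n)} (hs : ∀ x ∈ Ω, -x ∈ Ω) (hm : MeasurableSet Ω) (f : Ec n → ℝ)
    (hf : ∀ x, f (-x) = -f x) : ∫ y in Ω, f y = 0 := by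
  have h1 : ∫ y in Ω, f y = ∫ y in Ω, f (-y) := by
    rw [← integral_indicator hm, ← integral_indicator hm,
      ← integral_neg_eq_self (Ω.indicator f)]
    refine integral_congr_ae (Eventually.of_forall fun y => ?_)
    change Ω.indicator f (-y) = Ω.indicator (fun y => f (-y)) y
    by_cases hy : y ∈ Ω
    · rw [indicator_of_mem hy, indicator_of_mem (hs y hy)]
    · have h2 : -y ∉ Ω := fun h => hy (by simpa using hs _ h)
      rw [indicator_of_notMem hy, indicator_of_notMem h2]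
  have h2 : ∫ y in Ω, f (-y) = -∫ y in Ω, f y := by
    rw [← integral_neg]
    refine setIntegral_congr_fun hm fun y _ => hf y
  linarith

theorem om_symm {Φ : Ec n → ℝ} (hΦ : GP Φ) {L : Set (Ec n)} (hs : ∀ x ∈ L, -x ∈ L) :
    ∀ x ∈ om Φ L, -x ∈ om Φ L := by
  intro x hx
  refine ⟨hs x hx.1, ?_⟩
  change Φ (-x) ≤ 1
  rw [hΦ.even]
  exact hx.2

/-- the variance of linear functionals -/
theorem VW_lin {Φ : Ec n → ℝ} (hΦ : GP Φ) {L : Set (Ec n)} (hL : IsCompact L)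
    (hs : ∀ x ∈ L, -x ∈ L) (η : Ec n) :
    VW (ind (om Φ L)) (fun x => ⟪x, η⟫_ℝ) = (∫ y in om Φ L, ⟪y, η⟫_ℝ ^ 2) / vv Φ L := by
  have e1 : EW (ind (om Φ L)) (fun x => ⟪x, η⟫_ℝ) = 0 := by
    rw [EW_om hΦ hL, odd_int (om_symm hΦ hs) (om_comp hΦ hL).measurableSet _
      (fun x => by rw [inner_neg_left]), zero_div]
  unfold VW
  rw [e1, EW_om hΦ hL]
  ring

/-- the weight -/
noncomputable def ww (b : ℝ) (Φ : Ec n → ℝ) (L : Set (Ec n)) : Ec n → ℝ :=
  (om Φ L).indicator fun y => Real.exp (b * (1 - Φ y))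

theorem ww_nonneg (b : ℝ) (Φ : Ec n → ℝ) (L : Set (Ec n)) (x : Ec n) : 0 ≤ ww b Φ L x :=
  indicator_nonneg (fun _ _ => (Real.exp_pos _).le) x

theorem ww_mid {a b : ℝ} (hb : 0 ≤ b) {Φ : Ec n → ℝ} (hm : Mid a Φ) {L : Set (Ec n)}
    (hc : Convex ℝ (om Φ L)) (x y : Ec n) :
    ww b Φ L x * ww b Φ L y ≤ ww b Φ L ((1 / 2 : ℝ) • (x + y)) ^ 2 *
      Real.exp (-(2 * a * b * ‖x - y‖ ^ 2 / 4)) := by
  unfold ww
  by_cases hx : x ∈ om Φ L
  swap
  · rw [indicator_of_notMem hx, zero_mul]; positivity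
  by_cases hy : y ∈ om Φ L
  swap
  · rw [indicator_of_notMem hy, mul_zero]; positivity
  have hmid : (1 / 2 : ℝ) • (x + y) ∈ om Φ L := by
    rw [smul_add]
    exact hc hx hy (by norm_num) (by norm_num) (by norm_num)
  rw [indicator_of_mem hx, indicator_of_mem hy, indicator_of_mem hmid, ← Real.exp_add,
    ← Real.exp_nat_mul, ← Real.exp_add]
  refine Real.exp_le_exp.2 ?_
  have h1 := mul_le_mul_of_nonneg_left (hm x y) hb
  push_cast
  linarith

/-- the Poincaré inequality for the cut body -/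
theorem pnc' {p : ℝ} (hp : 0 < p) {Φ : Ec n → ℝ} (hΦ : GP Φ) {a : ℝ} (ha0 : 0 < a)
    (hm : Mid a Φ) {L : Set (Ec n)} (hL : IsCompact L) (hc : Convex ℝ (om Φ L))
    (h0 : (0 : Ec n) ∈ interior L)
    (hM : ∫ y in om Φ L, Real.exp (p / 4 * (1 - Φ y)) ≤ 33 * vv Φ L) {l : ℝ} (hl : 0 ≤ l)
    (f : Ec n → ℝ) (hfc : ContDiff ℝ 1 f) (hfl : ∀ x, ‖fderiv ℝ f x‖ ≤ l) :
    VW (ind (om Φ L)) f ≤ 66 * l ^ 2 / (p * a) := by
  have hcΦ := hΦ.cont
  have hΩ := om_comp hΦ hL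
  have hV := vv_pos hΦ hL h0
  obtain ⟨b, hbe⟩ : ∃ b, b = p / 4 := ⟨_, rfl⟩
  have hb0 : 0 < b := by rw [hbe]; positivity
  obtain ⟨q, hq⟩ : ∃ q, q = Real.sqrt (2 * a * b) := ⟨_, rfl⟩
  have hq0 : 0 < q := by rw [hq]; exact Real.sqrt_pos.2 (by positivity)
  have hq2 : q ^ 2 = 2 * a * b := by rw [hq]; exact Real.sq_sqrt (by positivity)
  obtain ⟨S, hS⟩ : ∃ S : Ec n ≃L[ℝ] Ec n, S = ContinuousLinearEquiv.smulLeft
    (Units.mk0 q⁻¹ (inv_ne_zero hq0.ne')) := ⟨_, rfl⟩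
  have hSx : ∀ x, S x = q⁻¹ • x := fun x => by rw [hS]; rfl
  have hSs : ∀ x, S.symm x = q • x := by
    intro x
    rw [ContinuousLinearEquiv.symm_apply_eq, hSx, smul_smul, inv_mul_cancel₀ hq0.ne', one_smul]
  obtain ⟨R, hR⟩ := hΩ.isBounded.exists_norm_le
  obtain ⟨c, hcc⟩ := Pool.Agent.H888R2.KT.bl_lin (ww b Φ L) (ww_nonneg b Φ L) (by
      unfold ww
      exact Measurable.indicator (by fun_prop) hΩ.measurableSet)
    (by
      refine ⟨Real.exp b, fun x => ?_⟩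
      unfold ww
      by_cases hx : x ∈ om Φ L
      · rw [indicator_of_mem hx]
        refine Real.exp_le_exp.2 ?_
        have := hΦ.nonneg x
        nlinarith
      · rw [indicator_of_notMem hx]
        exact (Real.exp_pos _).le)
    (by
      refine ⟨R, fun x hx => indicator_of_notMem (fun hxC => ?_) _⟩
      have h1 := hR x hxC
      linarith)
    S (by
      intro x y
      have h1 := ww_mid hb0.le hm hc x y
      rw [hSs, norm_smul, Real.norm_eq_abs, abs_of_pos hq0, mul_pow, hq2]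
      exact h1) f hfc
  -- bounds for both sides
  have hg : ∀ x, ‖(fderiv ℝ f x).comp (S : Ec n →L[ℝ] Ec n)‖ ^ 2 ≤ 2 * l ^ 2 / (p * a) := by
    intro x
    have h1 : ‖(fderiv ℝ f x).comp (S : Ec n →L[ℝ] Ec n)‖ ≤ l * q⁻¹ := by
      refine ContinuousLinearMap.opNorm_le_bound _ (by positivity) fun z => ?_
      rw [ContinuousLinearMap.comp_apply]
      have h2 : ‖fderiv ℝ f x (S z)‖ ≤ ‖fderiv ℝ f x‖ * ‖S z‖ :=
        ContinuousLinearMap.le_opNorm _ _
      have h3 : ‖S z‖ = q⁻¹ * ‖z‖ := by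
        rw [hSx, norm_smul, Real.norm_eq_abs, abs_of_pos (by positivity)]
      rw [h3] at h2
      refine h2.trans ?_
      rw [mul_assoc]
      exact mul_le_mul_of_nonneg_right (hfl x) (by positivity)
    have h2 := pow_le_pow_left₀ (norm_nonneg _) h1 2
    refine h2.trans (le_of_eq ?_)
    rw [mul_pow, inv_pow, hq2, hbe]
    field_simp
    ring
  have hwint : Integrable (ww b Φ L) := by
    unfold ww
    rw [integrable_indicator_iff hΩ.measurableSet]
    exact cint hΩ (by fun_prop)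
  have h1 : ∫ x, ‖(fderiv ℝ f x).comp (S : Ec n →L[ℝ] Ec n)‖ ^ 2 * ww b Φ L x ≤
      2 * l ^ 2 / (p * a) * ∫ x, ww b Φ L x := by
    rw [← integral_const_mul]
    refine integral_mono_of_nonneg (Eventually.of_forall fun x =>
      mul_nonneg (sq_nonneg _) (ww_nonneg b Φ L x)) (hwint.const_mul _)
      (Eventually.of_forall fun x => mul_le_mul_of_nonneg_right (hg x) (ww_nonneg b Φ L x))
  have h2 : ∫ x, ww b Φ L x ≤ 33 * vv Φ L := by
    unfold ww
    rw [integral_indicator hΩ.measurableSet, hbe]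
    exact hM
  have h3 : ∫ x in om Φ L, (f x - c) ^ 2 ≤ ∫ x, (f x - c) ^ 2 * ww b Φ L x := by
    have e1 : ∫ x, (f x - c) ^ 2 * ww b Φ L x =
        ∫ x in om Φ L, (f x - c) ^ 2 * Real.exp (b * (1 - Φ x)) := by
      rw [← integral_indicator hΩ.measurableSet]
      refine integral_congr_ae (Eventually.of_forall fun x => ?_)
      change (f x - c) ^ 2 * ww b Φ L x = _
      unfold ww
      by_cases hx : x ∈ om Φ L
      · rw [indicator_of_mem hx, indicator_of_mem hx]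
      · rw [indicator_of_notMem hx, indicator_of_notMem hx, mul_zero]
    rw [e1]
    have hfc' := hfc.continuous
    refine setIntegral_mono_on (cint hΩ (by fun_prop)) (cint hΩ (by fun_prop))
      hΩ.measurableSet fun x hx => ?_
    refine le_mul_of_one_le_right (sq_nonneg _) (Real.one_le_exp ?_)
    have h4 : Φ x ≤ 1 := hx.2
    have h5 : 0 ≤ 1 - Φ x := by linarith
    positivity
  have h4 : ∫ x in om Φ L, (f x - c) ^ 2 ≤ 66 * l ^ 2 / (p * a) * vv Φ L := by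
    refine (h3.trans (hcc.trans h1)).trans ?_
    have h5 : 2 * l ^ 2 / (p * a) * ∫ x, ww b Φ L x ≤
        2 * l ^ 2 / (p * a) * (33 * vv Φ L) :=
      mul_le_mul_of_nonneg_left h2 (by positivity)
    refine h5.trans (le_of_eq ?_)
    ring
  -- the variance
  have hvol : 0 < volume (om Φ L) := by
    by_contra hcon
    push Not at hcon
    have h5 : vv Φ L = 0 := by
      unfold vv Measure.real
      rw [le_antisymm hcon bot_le, ENNReal.toReal_zero]
    linarith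
  have hadm : Adm (ind (om Φ L)) :=
    Pool.Agent.Y506.PV.adm_ind _ hΩ.measurableSet hΩ.isBounded hvol
  have i1 : Integrable fun x => f x * ind (om Φ L) x := by
    have e1 : (fun x => f x * ind (om Φ L) x) = (om Φ L).indicator f := by
      funext x
      unfold ind
      by_cases hx : x ∈ om Φ L
      · rw [indicator_of_mem hx, indicator_of_mem hx, mul_one]
      · rw [indicator_of_notMem hx, indicator_of_notMem hx, mul_zero]
    rw [e1, integrable_indicator_iff hΩ.measurableSet]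
    exact cint hΩ hfc.continuous
  have i2 : Integrable fun x => f x ^ 2 * ind (om Φ L) x := by
    have e1 : (fun x => f x ^ 2 * ind (om Φ L) x) = (om Φ L).indicator fun x => f x ^ 2 := by
      funext x
      unfold ind
      by_cases hx : x ∈ om Φ L
      · rw [indicator_of_mem hx, indicator_of_mem hx, mul_one]
      · rw [indicator_of_notMem hx, indicator_of_notMem hx, mul_zero]
    rw [e1, integrable_indicator_iff hΩ.measurableSet]
    exact cint hΩ (hfc.continuous.pow 2)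
  have h5 := Pool.Agent.Y506.RG.VW_shift hadm f i1 i2 c
  rw [EW_om hΦ hL] at h5
  have h6 : (∫ y in om Φ L, (f y - c) ^ 2) / vv Φ L ≤ 66 * l ^ 2 / (p * a) := by
    rw [div_le_iff₀ hV]
    exact h4
  have h7 := sq_nonneg (EW (ind (om Φ L)) f - c)
  linarith

theorem pnc {α : ℝ} (ha : 0 < α) (hb : α < 1) {Φ : Ec n → ℝ} (hΦ : GP Φ) {a : ℝ} (ha0 : 0 < a)
    (hm : Mid a Φ) {L : Set (Ec n)} (hL : IsCompact L) (hc : Convex ℝ (om Φ L))
    (h0 : (0 : Ec n) ∈ interior L) (hn : 1 ≤ n) (h : PosS α (α / 8) Φ L) {l : ℝ} (hl : 0 ≤ l)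
    (f : Ec n → ℝ) (hfc : ContDiff ℝ 1 f) (hfl : ∀ x, ‖fderiv ℝ f x‖ ≤ l) :
    VW (ind (om Φ L)) f ≤ 66 * l ^ 2 / (α * n * a) :=
  pnc' (by have : (0 : ℝ) < n := by exact_mod_cast hn
           positivity) hΦ ha0 hm hL hc h0 (exp_int ha hb hΦ hL hn h) hl f hfc hfl

theorem cvx_b : Convex ℝ {y : Ec n | nq y ≤ 1} := by
  have e1 : {y : Ec n | nq y ≤ 1} = Metric.closedBall 0 1 := by
    ext y
    rw [mem_closedBall_zero_iff]
    change nq y ≤ 1 ↔ _
    unfold nq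
    constructor
    · intro h
      nlinarith [norm_nonneg y]
    · intro h
      nlinarith [norm_nonneg y]
  rw [e1]
  exact convex_closedBall _ _

theorem cvx_nq (L : Set (Ec n)) (hc : Convex ℝ L) : Convex ℝ (om nq L) := hc.inter cvx_b

theorem var_low {α : ℝ} (ha : 0 < α) (hb : α < 1) {L : Set (Ec n)} (hL : IsCompact L)
    (hs : ∀ x ∈ L, -x ∈ L) (h0 : (0 : Ec n) ∈ interior L)
    (h : Pos α (α / 8) L) (η : Ec n) :
    ‖η‖ ^ 2 * (α / (48 * (2 + α * n))) ≤ VW (ind (om nq L)) fun x => ⟪x, η⟫_ℝ := by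
  have hΩ := om_comp gp_nq hL
  have hV := vv_pos gp_nq hL h0
  rw [VW_lin gp_nq hL hs, le_div_iff₀ hV]
  by_cases hη : η = 0
  · rw [hη]
    simp
  · have hη' : 0 < ‖η‖ := norm_pos_iff.2 hη
    have h1 := cov ha hb hL h (‖η‖⁻¹ • η) (by
      rw [norm_smul, norm_inv, norm_norm, inv_mul_cancel₀ hη'.ne'])
    have e3 : ∫ y in om nq L, ⟪y, ‖η‖⁻¹ • η⟫_ℝ ^ 2 =
        (‖η‖ ^ 2)⁻¹ * ∫ y in om nq L, ⟪y, η⟫_ℝ ^ 2 := by
      rw [← integral_const_mul]
      refine setIntegral_congr_fun hΩ.measurableSet fun y _ => ?_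
      rw [real_inner_smul_right, mul_pow, inv_pow]
    rw [e3] at h1
    have h2 := jj_low2 ha hb gp_nq hL (scal hL h)
    have h3 : ‖η‖ ^ 2 * (α / 12 * jj nq L) ≤ ∫ y in om nq L, ⟪y, η⟫_ℝ ^ 2 := by
      have h4 := mul_le_mul_of_nonneg_left h1 (sq_nonneg ‖η‖)
      rwa [← mul_assoc (‖η‖ ^ 2) (‖η‖ ^ 2)⁻¹, mul_inv_cancel₀ (by positivity), one_mul] at h4
    refine le_trans ?_ h3
    have e4 : ‖η‖ ^ 2 * (α / (48 * (2 + α * n))) * vv nq L =
        ‖η‖ ^ 2 * (α / (48 * (2 + α * n)) * vv nq L) := by ring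
    rw [e4]
    refine mul_le_mul_of_nonneg_left ?_ (sq_nonneg _)
    have e5 : α / 12 * jj nq L = α / (48 * (2 + α * n)) * (4 * (2 + α * n) * jj nq L) := by
      field_simp
      ring
    rw [e5]
    exact mul_le_mul_of_nonneg_left h2 (by positivity)

theorem cc_om {α : ℝ} (ha : 0 < α) (hb : α < 1) {L : Set (Ec n)} (hL : IsCompact L)
    (hc : Convex ℝ L) (hs : ∀ x ∈ L, -x ∈ L) (h0 : (0 : Ec n) ∈ interior L) (hn : 1 ≤ n)
    (h : Pos α (α / 8) L) :
    CcW (Real.sqrt ((α * n) ^ 2 / (79200 * n * (2 + α * n)))) (1 / 25) (ind (om nq L)) := by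
  intro k hk T s hs0 hT v hv hv1 hv2
  have hn0 : (0 : ℝ) < n := by exact_mod_cast hn
  obtain ⟨κ, hκ⟩ : ∃ κ, κ = Real.sqrt ((α * n) ^ 2 / (79200 * n * (2 + α * n))) := ⟨_, rfl⟩
  rw [← hκ] at hv2
  have hκ0 : 0 ≤ κ := by rw [hκ]; exact Real.sqrt_nonneg _
  have hκ2 : κ ^ 2 = (α * n) ^ 2 / (79200 * n * (2 + α * n)) := by
    rw [hκ]
    exact Real.sq_sqrt (by positivity)
  -- the norm of `T`
  obtain ⟨M, hM⟩ : ∃ M, M = Real.sqrt (48 * (2 + α * n) * s / α) := ⟨_, rfl⟩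
  have hM0 : 0 ≤ M := by rw [hM]; exact Real.sqrt_nonneg _
  have hM2 : M ^ 2 = 48 * (2 + α * n) * s / α := by
    rw [hM]
    exact Real.sq_sqrt (by positivity)
  have hadj : ∀ θ : Ec k, ‖LinearMap.adjoint T θ‖ ≤ M * ‖θ‖ := by
    have h1 : ∀ θ : Ec k, ‖θ‖ = 1 → ‖LinearMap.adjoint T θ‖ ≤ M := by
      intro θ hθ
      have h2 := hT θ hθ
      have e1 : (fun x => ⟪T x, θ⟫_ℝ) = fun x => ⟪x, LinearMap.adjoint T θ⟫_ℝ := by
        funext x
        rw [LinearMap.adjoint_inner_right]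
      rw [e1] at h2
      have h3 := (var_low ha hb hL hs h0 h (LinearMap.adjoint T θ)).trans h2
      have h4 : ‖LinearMap.adjoint T θ‖ ^ 2 ≤ M ^ 2 := by
        rw [hM2]
        rw [← mul_div_assoc, div_le_iff₀ (by positivity)] at h3
        rw [le_div_iff₀ ha]
        linarith
      exact abs_le_of_sq_le_sq' h4 hM0 |>.2
    intro θ
    by_cases hθ : θ = 0
    · rw [hθ]
      simp
    · have hθ' : 0 < ‖θ‖ := norm_pos_iff.2 hθ
      have h2 := h1 (‖θ‖⁻¹ • θ) (by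
        rw [norm_smul, norm_inv, norm_norm, inv_mul_cancel₀ hθ'.ne'])
      rw [map_smul, norm_smul, norm_inv, norm_norm, inv_mul_le_iff₀ hθ'] at h2
      linarith
  have hTn : ∀ x : Ec n, ‖T x‖ ≤ M * ‖x‖ := by
    intro x
    by_cases hx : T x = 0
    · rw [hx, norm_zero]
      positivity
    · have hx' : 0 < ‖T x‖ := norm_pos_iff.2 hx
      have h1 : ‖T x‖ ^ 2 = ⟪x, LinearMap.adjoint T (T x)⟫_ℝ := by
        rw [LinearMap.adjoint_inner_right, real_inner_self_eq_norm_sq]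
      have h2 := real_inner_le_norm x (LinearMap.adjoint T (T x))
      have h3 := hadj (T x)
      have h4 : ‖T x‖ * ‖T x‖ ≤ ‖T x‖ * (M * ‖x‖) := by
        have h5 : ‖x‖ * ‖LinearMap.adjoint T (T x)‖ ≤ ‖x‖ * (M * ‖T x‖) :=
          mul_le_mul_of_nonneg_left h3 (norm_nonneg _)
        nlinarith
      exact le_of_mul_le_mul_left h4 hx'
  obtain ⟨T', hT'⟩ : ∃ T' : Ec n →L[ℝ] Ec k, T' = LinearMap.toContinuousLinearMap T := ⟨_, rfl⟩
  have hTT : ∀ x, T' x = T x := fun x => by rw [hT']; rfl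
  have hT'n : ‖T'‖ ≤ M := ContinuousLinearMap.opNorm_le_bound _ hM0 fun x => by
    rw [hTT]
    exact hTn x
  -- the function
  obtain ⟨f, hf⟩ : ∃ f : Ec n → ℝ, f = fun x => v (T' x) := ⟨_, rfl⟩
  have hfT : (fun x => v (T x)) = f := by
    rw [hf]
    funext x
    rw [hTT]
  have hfc : ContDiff ℝ 1 f := by
    rw [hf]
    exact hv.comp T'.contDiff
  have hfd : ∀ x, fderiv ℝ f x = (fderiv ℝ v (T' x)).comp T' := by
    intro x
    have h1 : HasFDerivAt v (fderiv ℝ v (T' x)) (T' x) :=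
      ((hv.differentiable one_ne_zero) _).hasFDerivAt
    rw [hf]
    exact (h1.comp x T'.hasFDerivAt).fderiv
  have hfl : ∀ x, ‖fderiv ℝ f x‖ ≤ κ / Real.sqrt s * M := by
    intro x
    rw [hfd]
    exact (ContinuousLinearMap.opNorm_comp_le _ _).trans
      (mul_le_mul (hv2 _) hT'n (norm_nonneg _) (by positivity))
  have h1 := pnc ha hb gp_nq one_pos mid_nq hL (cvx_nq L hc) h0 hn (scal hL h)
    (l := κ / Real.sqrt s * M) (by positivity) f hfc hfl
  rw [hfT]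
  refine h1.trans ?_
  rw [mul_pow, div_pow, Real.sq_sqrt hs0.le, hM2, hκ2]
  have e1 : 66 * ((α * n) ^ 2 / (79200 * n * (2 + α * n)) / s * (48 * (2 + α * n) * s / α)) /
      (α * n * 1) = 1 / 25 := by
    field_simp
    norm_num
  rw [e1]

end Pool.Agent.V7H69.IK
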