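import Pool.Agent.V7H69.IK.Two
import Pool.Agent.Y625.PV.LevUm

/-!
# Volumes of sublevel sets, shells
-/

set_option autoImplicit false

namespace Pool.Agent.V7H69.IK

open MeasureTheory Set Filter Topology
open scoped ENNReal InnerProductSpace Pointwise
open Pool.Agent.Y506.RG (EW VW Adm)
open Pool.Agent.Y506.PV (CcW ind adm_ind LCn ConcS)

variable {n : ℕ}

theorem lcn_ind {K : Set (Ec n)} (hc : Convex ℝ K) : LCn (ind K) := by
  intro x y t ht0 ht1
  unfold ind
  by_cases hx : x ∈ K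
  · by_cases hy : y ∈ K
    · have hm : (1 - t) • x + t • y ∈ K := hc hx hy (by linarith) ht0.le (by ring)
      rw [indicator_of_mem hx, indicator_of_mem hy, indicator_of_mem hm]
      simp
    · rw [indicator_of_notMem hy, Real.zero_rpow ht0.ne', mul_zero]
      exact indicator_nonneg (fun _ _ => zero_le_one) _
  · rw [indicator_of_notMem hx, Real.zero_rpow (by linarith), zero_mul]
    exact indicator_nonneg (fun _ _ => zero_le_one) _

theorem lc_vol {K : Set (Ec n)} (hK : IsCompact K) (hc : Convex ℝ K)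
    (hi : (interior K).Nonempty) {h : Ec n → ℝ} (hh : ConvexOn ℝ univ h) (hhc : Continuous h)
    (r s : ℝ) {t : ℝ} (ht0 : 0 < t) (ht1 : t < 1) :
    volume.real (K ∩ {x | h x ≤ r}) ^ (1 - t) * volume.real (K ∩ {x | h x ≤ s}) ^ t ≤
      volume.real (K ∩ {x | h x ≤ (1 - t) * r + t * s}) := by
  have hvol : 0 < volume K :=
    lt_of_lt_of_le (isOpen_interior.measure_pos volume hi) (measure_mono interior_subset)
  have hA := adm_ind K hK.measurableSet hK.isBounded hvol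
  have h1 := Pool.Agent.Y625.PV.lev n (ind K) (fun x => -h x) hA (lcn_ind hc)
    hhc.neg.measurable (fun x y t ht0 ht1 _ _ => by
      have := hh.2 (mem_univ x) (mem_univ y) (by linarith : 0 ≤ 1 - t) ht0.le (by ring)
      simp only [smul_eq_mul] at this
      linarith) (-r) (-s) t ht0 ht1
  have e1 : ∀ c : ℝ, ∫ x in {x | -c ≤ -h x}, ind K x = volume.real (K ∩ {x | h x ≤ c}) := by
    intro c
    have hm : MeasurableSet {x : Ec n | h x ≤ c} := (isClosed_le hhc continuous_const).measurableSet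
    have e2 : {x : Ec n | -c ≤ -h x} = {x | h x ≤ c} := by
      ext x
      constructor
      · intro hx
        have : -c ≤ -h x := hx
        change h x ≤ c
        linarith
      · intro hx
        have : h x ≤ c := hx
        change -c ≤ -h x
        linarith
    rw [e2]
    unfold ind
    rw [setIntegral_indicator hK.measurableSet, setIntegral_const, smul_eq_mul, mul_one, inter_comm]
  rw [e1, e1] at h1
  have e3 : (1 - t) * -r + t * -s = -((1 - t) * r + t * s) := by ring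
  rw [e3, e1] at h1
  exact h1

/-! ### gauges -/

theorem phi_low {Φ : Ec n → ℝ} (hΦ : GP Φ) {a : ℝ} (hm : Mid a Φ) (x : Ec n) :
    a * ‖x‖ ^ 2 ≤ Φ x := by
  have h1 := hm x (-x)
  rw [add_neg_cancel, smul_zero, hΦ.zero, hΦ.even, sub_neg_eq_add, ← two_smul ℝ x, norm_smul] at h1
  norm_num at h1
  rw [mul_pow] at h1
  linarith

theorem sqrt_cvx {Φ : Ec n → ℝ} (hΦ : GH Φ) {a : ℝ} (ha : 0 < a) (hm : Mid a Φ)
    (hcv : Convex ℝ {y | Φ y ≤ 1}) : ConvexOn ℝ univ fun x => Real.sqrt (Φ x) := by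
  have hhom : ∀ (c : ℝ) (x : Ec n), 0 ≤ c → Real.sqrt (Φ (c • x)) = c * Real.sqrt (Φ x) := by
    intro c x hc
    rw [hΦ.hom, Real.sqrt_mul (sq_nonneg c), Real.sqrt_sq hc]
  have hpos : ∀ x : Ec n, Real.sqrt (Φ x) = 0 → x = 0 := by
    intro x hx
    have h1 := phi_low hΦ.toGP hm x
    rw [Real.sqrt_eq_zero (hΦ.nonneg x)] at hx
    rw [hx] at h1
    have h2 : ‖x‖ ^ 2 ≤ 0 := by
      by_contra hcon
      push Not at hcon
      have := mul_pos ha hcon
      linarith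
    have h3 : ‖x‖ = 0 := by
      have := sq_nonneg ‖x‖
      exact pow_eq_zero_iff two_ne_zero |>.1 (le_antisymm h2 this)
    exact norm_eq_zero.1 h3
  have hsub : ∀ x y : Ec n, Real.sqrt (Φ (x + y)) ≤ Real.sqrt (Φ x) + Real.sqrt (Φ y) := by
    intro x y
    by_cases hx : Real.sqrt (Φ x) = 0
    · rw [hpos x hx, zero_add, hΦ.zero, Real.sqrt_zero, zero_add]
    by_cases hy : Real.sqrt (Φ y) = 0
    · rw [hpos y hy, add_zero, hΦ.zero, Real.sqrt_zero, add_zero]
    obtain ⟨p, hp⟩ : ∃ p, p = Real.sqrt (Φ x) := ⟨_, rfl⟩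
    obtain ⟨q, hq⟩ : ∃ q, q = Real.sqrt (Φ y) := ⟨_, rfl⟩
    have hp0 : 0 < p := by
      rw [hp]
      exact lt_of_le_of_ne (Real.sqrt_nonneg _) (Ne.symm hx)
    have hq0 : 0 < q := by
      rw [hq]
      exact lt_of_le_of_ne (Real.sqrt_nonneg _) (Ne.symm hy)
    have hpp : Φ x = p ^ 2 := by rw [hp, Real.sq_sqrt (hΦ.nonneg x)]
    have hqq : Φ y = q ^ 2 := by rw [hq, Real.sq_sqrt (hΦ.nonneg y)]
    have h1 : p⁻¹ • x ∈ {y | Φ y ≤ 1} := by
      change Φ (p⁻¹ • x) ≤ 1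
      rw [hΦ.hom, hpp, inv_pow, inv_mul_cancel₀ (by positivity)]
    have h2 : q⁻¹ • y ∈ {y | Φ y ≤ 1} := by
      change Φ (q⁻¹ • y) ≤ 1
      rw [hΦ.hom, hqq, inv_pow, inv_mul_cancel₀ (by positivity)]
    have h3 := hcv h1 h2 (a := p / (p + q)) (b := q / (p + q)) (by positivity) (by positivity)
      (by field_simp)
    have e1 : (p / (p + q)) • p⁻¹ • x + (q / (p + q)) • q⁻¹ • y = (p + q)⁻¹ • (x + y) := by
      rw [smul_smul, smul_smul, smul_add]
      congr 2 <;> field_simp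
    rw [e1] at h3
    have h4 : Φ ((p + q)⁻¹ • (x + y)) ≤ 1 := h3
    rw [hΦ.hom, inv_pow, inv_mul_le_iff₀ (by positivity), mul_one] at h4
    rw [← hp, ← hq]
    exact Real.sqrt_le_iff.2 ⟨by positivity, h4⟩
  refine ⟨convex_univ, fun x _ y _ s t hs ht _ => ?_⟩
  change Real.sqrt (Φ (s • x + t • y)) ≤ s • Real.sqrt (Φ x) + t • Real.sqrt (Φ y)
  refine (hsub _ _).trans ?_
  rw [hhom s x hs, hhom t y ht, smul_eq_mul, smul_eq_mul]

/-- volume inside `r` times the unit ball of `Φ` -/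
noncomputable def nn (Φ : Ec n → ℝ) (L : Set (Ec n)) (r : ℝ) : ℝ :=
  volume.real (L ∩ {x | Real.sqrt (Φ x) ≤ r})

theorem nn_nonneg (Φ : Ec n → ℝ) (L : Set (Ec n)) (r : ℝ) : 0 ≤ nn Φ L r := measureReal_nonneg

theorem nn_mono {Φ : Ec n → ℝ} {L : Set (Ec n)} (hL : IsCompact L) {r s : ℝ} (h : r ≤ s) :
    nn Φ L r ≤ nn Φ L s := by
  refine measureReal_mono (fun x hx => ⟨hx.1, le_trans hx.2 h⟩) ?_
  exact ((measure_mono inter_subset_left).trans_lt hL.measure_lt_top).ne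

theorem nn_pos {Φ : Ec n → ℝ} (hΦ : GP Φ) {L : Set (Ec n)} (hL : IsCompact L)
    (h0 : (0 : Ec n) ∈ interior L) {r : ℝ} (hr : 0 < r) : 0 < nn Φ L r := by
  have hU : IsOpen (interior L ∩ {x | Real.sqrt (Φ x) < r}) :=
    isOpen_interior.inter (isOpen_lt (Real.continuous_sqrt.comp hΦ.cont) continuous_const)
  have h1 : 0 < volume (interior L ∩ {x | Real.sqrt (Φ x) < r}) := by
    refine hU.measure_pos volume ⟨0, h0, ?_⟩
    change Real.sqrt (Φ 0) < r
    rw [hΦ.zero, Real.sqrt_zero]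
    exact hr
  unfold nn
  have h2 : interior L ∩ {x | Real.sqrt (Φ x) < r} ⊆ L ∩ {x | Real.sqrt (Φ x) ≤ r} :=
    fun x hx => ⟨interior_subset hx.1, (show Real.sqrt (Φ x) < r from hx.2).le⟩
  refine ENNReal.toReal_pos (lt_of_lt_of_le h1 (measure_mono h2)).ne' ?_
  exact ((measure_mono inter_subset_left).trans_lt hL.measure_lt_top).ne

/-- from one scale to smaller ones -/
theorem one_scale0 {h : Ec n → ℝ} (hh : ConvexOn ℝ univ h) (hhc : Continuous h) (hh0 : h 0 = 0)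
    {L : Set (Ec n)} (hL : IsCompact L) (hc : Convex ℝ L)
    (h0 : (0 : Ec n) ∈ interior L) {r s v g : ℝ} (hr : 0 < r) (hrs : r < s) (hsv : s < v)
    (hN : volume.real (L ∩ {x | h x ≤ s}) ≤ Real.exp (-g) * volume.real (L ∩ {x | h x ≤ v})) :
    volume.real (L ∩ {x | h x ≤ r}) ≤
      Real.exp (-(g * (v - r) / (v - s))) * volume.real (L ∩ {x | h x ≤ v}) := by
  have hvr : 0 < v - r := by linarith
  have hvs : 0 < v - s := by linarith
  have hpos : ∀ c : ℝ, 0 < c → 0 < volume.real (L ∩ {x | h x ≤ c}) := by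
    intro c hc0
    have hU : IsOpen (interior L ∩ {x | h x < c}) :=
      isOpen_interior.inter (isOpen_lt hhc continuous_const)
    have h1 : 0 < volume (interior L ∩ {x | h x < c}) := by
      refine hU.measure_pos volume ⟨0, h0, ?_⟩
      change h 0 < c
      rw [hh0]
      exact hc0
    have h2 : interior L ∩ {x | h x < c} ⊆ L ∩ {x | h x ≤ c} :=
      fun x hx => ⟨interior_subset hx.1, (show h x < c from hx.2).le⟩
    refine ENNReal.toReal_pos (lt_of_lt_of_le h1 (measure_mono h2)).ne' ?_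
    exact ((measure_mono inter_subset_left).trans_lt hL.measure_lt_top).ne
  obtain ⟨t, ht⟩ : ∃ t, t = (s - r) / (v - r) := ⟨_, rfl⟩
  have ht0 : 0 < t := by rw [ht]; exact div_pos (by linarith) hvr
  have ht1 : t < 1 := by rw [ht, div_lt_one hvr]; linarith
  have e1 : 1 - t = (v - s) / (v - r) := by
    rw [ht]
    field_simp
    ring
  have e2 : (1 - t) * r + t * v = s := by
    rw [e1, ht]
    field_simp
    ring
  have h1 := lc_vol hL hc ⟨0, h0⟩ hh hhc r v ht0 ht1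
  rw [e2] at h1
  have hNr := hpos r hr
  have hNv := hpos v (by linarith)
  obtain ⟨A, hA⟩ : ∃ A, A = volume.real (L ∩ {x | h x ≤ r}) := ⟨_, rfl⟩
  obtain ⟨B, hB⟩ : ∃ B, B = volume.real (L ∩ {x | h x ≤ v}) := ⟨_, rfl⟩
  rw [← hA, ← hB] at h1 ⊢
  rw [← hB] at hN hNv
  rw [← hA] at hNr
  have h2 : A ^ (1 - t) * B ^ t ≤ Real.exp (-g) * B := h1.trans hN
  have e3 : B = B ^ (1 - t) * B ^ t := by
    rw [← Real.rpow_add hNv, sub_add_cancel, Real.rpow_one]
  have h3 : A ^ (1 - t) ≤ Real.exp (-g) * B ^ (1 - t) := by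
    have hvt : 0 < B ^ t := Real.rpow_pos_of_pos hNv _
    have e5 : Real.exp (-g) * B = Real.exp (-g) * B ^ (1 - t) * B ^ t := by
      rw [mul_assoc, ← e3]
    rw [e5] at h2
    exact le_of_mul_le_mul_right h2 hvt
  have h1t : 0 < 1 - t := by linarith
  have h4 := Real.rpow_le_rpow (by positivity) h3 (inv_nonneg.2 h1t.le)
  rw [← Real.rpow_mul hNr.le, mul_inv_cancel₀ h1t.ne', Real.rpow_one,
    Real.mul_rpow (Real.exp_pos _).le (by positivity), ← Real.rpow_mul hNv.le,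
    mul_inv_cancel₀ h1t.ne', Real.rpow_one, ← Real.exp_mul] at h4
  have e4 : -g * (1 - t)⁻¹ = -(g * (v - r) / (v - s)) := by
    rw [e1]
    field_simp
  rw [e4] at h4
  exact h4

/-- the case of a gauge -/
theorem one_scale {Φ : Ec n → ℝ} (hΦ : GH Φ) {a : ℝ} (ha : 0 < a) (hm : Mid a Φ)
    (hcv : Convex ℝ {y | Φ y ≤ 1}) {L : Set (Ec n)} (hL : IsCompact L) (hc : Convex ℝ L)
    (h0 : (0 : Ec n) ∈ interior L) {r s v g : ℝ} (hr : 0 < r) (hrs : r < s) (hsv : s < v)
    (h : nn Φ L s ≤ Real.exp (-g) * nn Φ L v) :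
    nn Φ L r ≤ Real.exp (-(g * (v - r) / (v - s))) * nn Φ L v :=
  one_scale0 (sqrt_cvx hΦ ha hm hcv) (Real.continuous_sqrt.comp hΦ.cont)
    (by rw [hΦ.zero, Real.sqrt_zero]) hL hc h0 hr hrs hsv h

end Pool.Agent.V7H69.IK
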